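import Pool.Agent.KRb.Defs

/-!
Row COL: the columns are exact in degrees at least two (coefficients `ZMod 2`, everything commutes).
-/

set_option autoImplicit false

namespace Pool.Agent.KRb

open Finsupp Pool.Agent.KMil Pool.Agent.KRat Polynomial

universe u

section

variable {A : Type u} [Ring A] [Algebra (ZMod 2) A] {V V' : Submodule (ZMod 2) A}
  {J : Type u} {B : J → Type u} [∀ π, Ring (B π)] [∀ π, Algebra (ZMod 2) (B π)]
  {WB : ∀ π, Submodule (ZMod 2) (B π)}

/-- the residues vanish on the smaller algebra -/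
private theorem Col_del_pow (R : ResB V V' J B WB) (π : J) (n : ℕ) :
    ∀ a ∈ V ^ n, R.del π a = 0 := by
  induction n with
  | zero =>
    intro a ha
    rw [pow_zero, Submodule.mem_one] at ha
    obtain ⟨c, rfl⟩ := ha
    rw [Algebra.algebraMap_eq_smul_one, map_smul, R.del_one, smul_zero]
  | succ n ih =>
    intro a ha
    rw [pow_succ'] at ha
    refine Submodule.mul_induction_on ha ?_ ?_
    · intro x hx y hy
      rw [R.del_mul π x hx, ih y hy, mul_zero]
    · intro x y hx hy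
      rw [map_add, hx, hy, add_zero]

/-- the residue of a decomposed element -/
private theorem Col_del_dec (R : ResB V V' J B WB) (π : J) (n : ℕ) (x0 : A)
    (hx0 : x0 ∈ V ^ (n + 1)) (c : J →₀ A) (hc : ∀ ρ, c ρ ∈ V ^ n) :
    R.del π (x0 + c.sum (fun ρ a => R.e ρ * a)) = R.ev π (c π) := by
  classical
  rw [map_add, Col_del_pow R π _ x0 hx0, zero_add, Finsupp.sum, map_sum]
  by_cases h : π ∈ c.support
  · rw [Finset.sum_eq_single π]
    · exact R.del_e π n _ (hc π)
    · intro ρ _ hρ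
      exact R.del_e_ne ρ π hρ n _ (hc ρ)
    · intro h'
      exact absurd h h'
  · have h0 : c π = 0 := by
      by_contra h'
      exact h (Finsupp.mem_support_iff.2 h')
    rw [h0, map_zero]
    refine Finset.sum_eq_zero fun ρ hρ => ?_
    refine R.del_e_ne ρ π ?_ n _ (hc ρ)
    rintro rfl
    exact h hρ

/-- specialisation maps degree `n` to degree `n` -/
private theorem Col_ev_pow (R : ResB V V' J B WB) (π : J) (n : ℕ) :
    ∀ a ∈ V ^ n, R.ev π a ∈ WB π ^ n := by
  have h1 : Submodule.map (R.ev π).toLinearMap V ≤ WB π := by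
    rintro _ ⟨a, ha, rfl⟩
    exact R.ev_mem π a ha
  intro a ha
  have h2 : R.ev π a ∈ Submodule.map (R.ev π).toLinearMap (V ^ n) := ⟨a, ha, rfl⟩
  rw [Submodule.map_pow] at h2
  exact pow_le_pow_left' h1 n h2

/-- specialisation is surjective in each degree -/
private theorem Col_ev_surj (R : ResB V V' J B WB) (π : J) (n : ℕ) :
    ∀ y ∈ WB π ^ n, ∃ a ∈ V ^ n, (R.ev π).toLinearMap a = y := by
  have h1 : WB π ≤ Submodule.map (R.ev π).toLinearMap V := by
    intro w hw
    obtain ⟨a, ha, hw⟩ := R.ev_surj π w hw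
    exact ⟨a, ha, hw⟩
  intro y hy
  have h2 : y ∈ (Submodule.map (R.ev π).toLinearMap V) ^ n := pow_le_pow_left' h1 n hy
  rw [← Submodule.map_pow] at h2
  obtain ⟨a, ha, h⟩ := h2
  exact ⟨a, ha, h⟩

/-- elements of `V ^ n` commute with elements of `V` -/
private theorem Col_comm_pow {V : Submodule (ZMod 2) A} (hV : ∀ x ∈ V, ∀ y ∈ V, x * y = y * x)
    (n : ℕ) {a : A} (ha : a ∈ V ^ n) {x : A} (hx : x ∈ V) : a * x = x * a := by
  induction n generalizing a with
  | zero =>
    rw [pow_zero, Submodule.mem_one] at ha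
    obtain ⟨c, rfl⟩ := ha
    exact Algebra.commutes c x
  | succ n ih =>
    rw [pow_succ] at ha
    refine Submodule.mul_induction_on ha ?_ ?_
    · intro b hb y hy
      rw [mul_assoc, hV y hy x hx, ← mul_assoc, ih hb, mul_assoc]
    · intro b c hb hc
      rw [add_mul, hb, hc, mul_add]

/-- left and right differentials agree -/
private theorem Col_dR_eq_dL {I : Type*} (v : I → A) {V : Submodule (ZMod 2) A}
    (hV : ∀ x ∈ V, ∀ y ∈ V, x * y = y * x) (hv : ∀ i, v i ∈ V) (n : ℕ)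
    {z : List I →₀ A} (hz : ∀ w, z w ∈ V ^ n) : dR (ZMod 2) v z = dL (ZMod 2) v z := by
  classical
  ext w
  let s : Finset I := z.support.biUnion (fun w' => w'.toFinset)
  have hs : ∀ i, z (i :: w) ≠ 0 → i ∈ s := by
    intro i hi
    exact Finset.mem_biUnion.2 ⟨i :: w, Finsupp.mem_support_iff.2 hi, by simp⟩
  unfold dR dL
  rw [dif_apply _ z w s hs, dif_apply _ z w s hs]
  refine Finset.sum_congr rfl fun i _ => ?_
  show z (i :: w) * v i = v i * z (i :: w)
  exact Col_comm_pow hV n (hz _) (hv i)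

end

theorem columnsB {I : Type*} {A : Type u} [Ring A] [Algebra (ZMod 2) A] (v : I → A)
    (V' : Submodule (ZMod 2) A) {J : Type u} {B : J → Type u} [∀ π, Ring (B π)]
    [∀ π, Algebra (ZMod 2) (B π)] {WB : ∀ π, Submodule (ZMod 2) (B π)}
    (R : ResB (sp (ZMod 2) v) V' J B WB) (hc : ∀ x ∈ V', ∀ y ∈ V', x * y = y * x)
    (hK : Kos (ZMod 2) v) (hex : ∀ π, ExB v (fun i => R.ev π (v i)) (WB π)) (j : ℕ) :
    ColAt (ZMod 2) v V' j := by
  classical
  intro x hx hxv hdx
  have hvV : ∀ i, v i ∈ sp (ZMod 2) v := fun i => Submodule.subset_span ⟨i, rfl⟩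
  have hvV' : ∀ i, v i ∈ V' := fun i => R.le (hvV i)
  have hAV : ∀ x ∈ sp (ZMod 2) v, ∀ y ∈ sp (ZMod 2) v, x * y = y * x :=
    fun a ha b hb => hc a (R.le ha) b (R.le hb)
  -- decompositions of the values of `x`
  choose x0 hx0 c hc' hxc using fun w => R.dec (j + 1) (x w) (hxv w)
  let T : Finset J := x.support.biUnion (fun w => (c w).support)
  have hT : ∀ π, π ∉ T → ∀ w, R.del π (x w) = 0 := by
    intro π hπ w
    by_cases hw : x w = 0
    · rw [hw, map_zero]
    · rw [hxc w, Col_del_dec R π (j + 1) _ (hx0 w) _ (hc' w)]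
      have : c w π = 0 := by
        by_contra h
        exact hπ (Finset.mem_biUnion.2 ⟨w, Finsupp.mem_support_iff.2 hw,
          Finsupp.mem_support_iff.2 h⟩)
      rw [this, map_zero]
  have key : ∀ π, ∃ y ∈ C (ZMod 2) (pr v) A, (∀ w, y w ∈ sp (ZMod 2) v ^ j) ∧
      mp (R.ev π).toLinearMap (dL (ZMod 2) v y) = mp (R.del π) x := by
    intro π
    have e1 : mp (R.del π) x ∈ C (ZMod 2) (pr v) (B π) := C_mp _ _ hx
    have e2 : ∀ w, mp (R.del π) x w ∈ WB π ^ (j + 1) := by
      intro w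
      rw [mp_apply, hxc w, Col_del_dec R π (j + 1) _ (hx0 w) _ (hc' w)]
      exact Col_ev_pow R π _ _ (hc' w π)
    have e3 : dB (fun i => R.ev π (v i)) (mp (R.del π) x) = 0 := by
      have h1 : dB (fun i => R.ev π (v i)) (mp (R.del π) x) =
          mp (R.del π) (dL (ZMod 2) v x) := by
        unfold dB dL
        rw [dif_mp, mp_dif]
        have h2 : (fun i => LinearMap.mulLeft (ZMod 2) (R.ev π (v i)) ∘ₗ R.del π) =
            (fun i => R.del π ∘ₗ LinearMap.mulLeft (ZMod 2) (v i)) := by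
          funext i
          ext a
          show R.ev π (v i) * R.del π a = R.del π (v i * a)
          rw [R.del_mul π _ (hvV i)]
        rw [h2]
      rw [h1, hdx, map_zero]
    obtain ⟨y, hy, hyv, hdy⟩ := hex π j (mp (R.del π) x) e1 e2 e3
    obtain ⟨τ, hτ1, hτ2⟩ := exists_lin_graded (R.ev π).toLinearMap (sp (ZMod 2) v ^ j)
      (WB π ^ j) (Col_ev_surj R π j)
    refine ⟨mp τ y, C_mp _ _ hy, fun w => ?_, ?_⟩
    · rw [mp_apply]
      exact hτ1 _
    · rw [← hdy]
      have h1 : mp (R.ev π).toLinearMap (mp τ y) = y := by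
        ext w
        rw [mp_apply, mp_apply]
        exact hτ2 _ (hyv w)
      have h2 : ∀ z : List I →₀ A, mp (R.ev π).toLinearMap (dL (ZMod 2) v z) =
          dB (fun i => R.ev π (v i)) (mp (R.ev π).toLinearMap z) := by
        intro z
        unfold dL dB
        rw [mp_dif, dif_mp]
        have h3 : (fun i => (R.ev π).toLinearMap ∘ₗ LinearMap.mulLeft (ZMod 2) (v i)) =
            (fun i => LinearMap.mulLeft (ZMod 2) (R.ev π (v i)) ∘ₗ
              (R.ev π).toLinearMap) := by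
          funext i
          ext a
          show R.ev π (v i * a) = R.ev π (v i) * R.ev π a
          rw [map_mul]
        rw [h3]
      rw [h2, h1]
  choose y hy hyv hyd using key
  let u : List I →₀ A := ∑ π ∈ T, mp (LinearMap.mulLeft (ZMod 2) (R.e π)) (y π)
  have hu : u ∈ C (ZMod 2) (pr v) A := Submodule.sum_mem _ fun π _ => C_mp _ _ (hy π)
  have hVV' : ∀ n, sp (ZMod 2) v ^ n ≤ V' ^ n := fun n => pow_le_pow_left' R.le n
  have huv : ∀ w, u w ∈ V' ^ (j + 1) := by
    intro w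
    show (∑ π ∈ T, mp (LinearMap.mulLeft (ZMod 2) (R.e π)) (y π) : List I →₀ A) w ∈ _
    rw [Finsupp.finsetSum_apply]
    refine Submodule.sum_mem _ fun π _ => ?_
    rw [mp_apply, pow_succ']
    exact Submodule.mul_mem_mul (R.e_mem π) (hVV' j (hyv π w))
  have hdu : dL (ZMod 2) v u =
      ∑ π ∈ T, mp (LinearMap.mulLeft (ZMod 2) (R.e π)) (dL (ZMod 2) v (y π)) := by
    show dL (ZMod 2) v (∑ π ∈ T, mp (LinearMap.mulLeft (ZMod 2) (R.e π)) (y π)) = _
    rw [map_sum]
    refine Finset.sum_congr rfl fun π _ => ?_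
    unfold dL
    rw [dif_mp, mp_dif]
    have h2 : (fun i => LinearMap.mulLeft (ZMod 2) (v i) ∘ₗ LinearMap.mulLeft (ZMod 2) (R.e π)) =
        (fun i => LinearMap.mulLeft (ZMod 2) (R.e π) ∘ₗ LinearMap.mulLeft (ZMod 2) (v i)) := by
      funext i
      ext a
      show v i * (R.e π * a) = R.e π * (v i * a)
      rw [← mul_assoc, ← mul_assoc, hc _ (hvV' i) _ (R.e_mem π)]
    rw [h2]
  have hdel : ∀ π w, R.del π ((x - dL (ZMod 2) v u) w) = 0 := by
    intro π w
    rw [Finsupp.sub_apply, map_sub, hdu, Finsupp.finsetSum_apply, map_sum]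
    have h1 : ∀ ρ, dL (ZMod 2) v (y ρ) w ∈ sp (ZMod 2) v ^ (j + 1) :=
      fun ρ => dL_mem v hvV j (hyv ρ) w
    by_cases hπ : π ∈ T
    · rw [Finset.sum_eq_single π]
      · rw [mp_apply]
        show _ - R.del π (R.e π * _) = 0
        rw [R.del_e π (j + 1) _ (h1 π)]
        have h2 := DFunLike.congr_fun (hyd π) w
        rw [mp_apply, mp_apply] at h2
        rw [← h2]
        exact sub_self _
      · intro ρ _ hρ
        rw [mp_apply]
        exact R.del_e_ne ρ π hρ (j + 1) _ (h1 ρ)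
      · intro h'
        exact absurd hπ h'
    · rw [hT π hπ w, zero_sub, neg_eq_zero]
      refine Finset.sum_eq_zero fun ρ hρ => ?_
      rw [mp_apply]
      refine R.del_e_ne ρ π ?_ (j + 1) _ (h1 ρ)
      rintro rfl
      exact hπ hρ
  have hx'V' : ∀ w, (x - dL (ZMod 2) v u) w ∈ V' ^ (j + 2) := by
    intro w
    rw [Finsupp.sub_apply]
    exact Submodule.sub_mem _ (hxv w) (dL_mem v hvV' (j + 1) huv w)
  have hx'V : ∀ w, (x - dL (ZMod 2) v u) w ∈ sp (ZMod 2) v ^ (j + 2) := by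
    intro w
    obtain ⟨a0, ha0, d, hd, hxd⟩ := R.dec (j + 1) _ (hx'V' w)
    rw [hxd]
    refine Submodule.add_mem _ ha0 (Submodule.sum_mem _ fun π _ => ?_)
    refine R.ker π (j + 1) _ (hd π) ?_
    rw [← Col_del_dec R π (j + 1) a0 ha0 d hd, ← hxd]
    exact hdel π w
  have hx'C : x - dL (ZMod 2) v u ∈ C (ZMod 2) (pr v) A :=
    Submodule.sub_mem _ hx (C_dif _ _ hu)
  have h2 : ∀ i k, v i * v k + v k * v i = 0 := by
    intro i k
    rw [hAV _ (hvV i) _ (hvV k)]
    exact ZModModule.add_self _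
  have hdx' : dL (ZMod 2) v (x - dL (ZMod 2) v u) = 0 := by
    rw [map_sub, hdx, dL_dL v h2 hu, sub_zero]
  have hdRx' : dR (ZMod 2) v (x - dL (ZMod 2) v u) = 0 := by
    rw [Col_dR_eq_dL v hAV hvV (j + 2) hx'V, hdx']
  obtain ⟨t, htC, htv, htd⟩ := hK (j + 1) _ hx'C hx'V hdRx'
  refine ⟨u + t, Submodule.add_mem _ hu htC, ?_, ?_⟩
  · intro w
    rw [Finsupp.add_apply]
    exact Submodule.add_mem _ (huv w) (hVV' _ (htv w))
  · rw [map_add, ← Col_dR_eq_dL v hAV hvV (j + 1) htv, htd]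
    abel

end Pool.Agent.KRb
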