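import Pool.Agent.KRb.Defs

set_option autoImplicit false

namespace Pool.Agent.KRb

open Finsupp Pool.Agent.KMil Pool.Agent.KRat Polynomial

universe u

section fieldE

variable {k : Type u} [Field k] {E : Type u} [Field E]

private theorem kmt_one : KMn 2 E 1 = Submodule.span (ZMod 2) (Set.range (sym (F := E) 2)) := by
  unfold KMn
  congr 1
  ext x
  constructor
  · rintro ⟨l, hl, rfl⟩
    obtain ⟨a, rfl⟩ := List.length_eq_one_iff.1 hl
    exact ⟨a, by simp⟩
  · rintro ⟨a, rfl⟩
    exact ⟨[a], rfl, by simp⟩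

theorem km_comm (x : KM 2 E) (hx : x ∈ KMn 2 E 1) (y : KM 2 E) (hy : y ∈ KMn 2 E 1) :
    x * y = y * x := by
  rw [kmt_one] at hx hy
  induction hx using Submodule.span_induction with
  | mem x hx =>
    obtain ⟨a, rfl⟩ := hx
    induction hy using Submodule.span_induction with
    | mem y hy =>
      obtain ⟨b, rfl⟩ := hy
      exact sym_comm a b
    | zero => rw [mul_zero, zero_mul]
    | add u v _ _ hu hv => rw [mul_add, add_mul, hu, hv]
    | smul c u _ hu => rw [mul_smul_comm, smul_mul_assoc, hu]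
  | zero => rw [mul_zero, zero_mul]
  | add u v _ _ hu hv => rw [mul_add, add_mul, hu, hv]
  | smul c u _ hu => rw [mul_smul_comm, smul_mul_assoc, hu]

theorem rm_mem : rm E ∈ KMn 2 E 1 := sym_mem 2 (-1)

private theorem kmt_self (d : Eˣ) : sym 2 d * sym 2 d = sym 2 d * sym 2 (-1 : Eˣ) := by
  have h1 := sym_neg_self 2 d
  have h3 : sym 2 (-d) = sym 2 (-1 : Eˣ) + sym 2 d := by
    rw [← sym_mul, neg_one_mul]
  rw [h3, mul_add] at h1
  have h4 := eq_neg_of_add_eq_zero_left h1
  rw [neg_eq] at h4
  exact h4.symm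

theorem km_sq (x : KM 2 E) (hx : x ∈ KMn 2 E 1) : x * x = rm E * x := by
  rw [kmt_one] at hx
  induction hx using Submodule.span_induction with
  | mem x hx =>
    obtain ⟨a, rfl⟩ := hx
    rw [kmt_self a]
    exact sym_comm a (-1)
  | zero => rw [mul_zero, mul_zero]
  | add u v hu hv ihu ihv =>
    have h1 : u * v = v * u := km_comm u (by rw [kmt_one]; exact hu) v (by rw [kmt_one]; exact hv)
    have h2 : v * u + v * u = 0 := two_zero _
    calc (u + v) * (u + v) = u * u + (u * v + v * u) + v * v := by noncomm_ring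
      _ = u * u + v * v := by rw [h1, h2, add_zero]
      _ = rm E * (u + v) := by rw [ihu, ihv, mul_add]
  | smul c u _ hu =>
    have hc : c * c = c := by
      revert c
      decide
    rw [mul_smul_comm, smul_mul_assoc, mul_smul_comm, smul_smul, hc, hu]

/-- if two elements with sum one are minus squares, then `{-1}{-1} = 0` -/
theorem rm_rm (a b c d : E) (hc : a = -c ^ 2) (hd : b = -d ^ 2) (hab : a + b = 1) :
    rm E * rm E = 0 := by
  have key : ∀ e : E, (-1 : E) = e ^ 2 → rm E = 0 := by
    intro e he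
    have he0 : e ≠ 0 := by
      rintro rfl
      have : (-1 : E) = 0 := by rw [he]; ring
      exact one_ne_zero (neg_eq_zero.1 this)
    have h : (-1 : Eˣ) = Units.mk0 e he0 * Units.mk0 e he0 := by
      apply Units.ext
      rw [Units.val_neg, Units.val_one, Units.val_mul, Units.val_mk0, he]
      ring
    unfold rm
    rw [h, sym_sq]
  by_cases hc0 : c = 0
  · rw [key d (by
      rw [hc0] at hc
      rw [hc, hd] at hab
      have : -d ^ 2 = (1 : E) := by
        rw [← hab]; ring
      rw [← this]; ring), zero_mul]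
  · by_cases hd0 : d = 0
    · rw [key c (by
        rw [hd0] at hd
        rw [hc, hd] at hab
        have : -c ^ 2 = (1 : E) := by
          rw [← hab]; ring
        rw [← this]; ring), zero_mul]
    · have hu : ∀ e : E, ∀ he : e ≠ 0, ∀ h : -e ^ 2 ≠ 0, sym 2 (Units.mk0 (-e ^ 2) h) = rm E := by
        intro e he h
        have e1 : Units.mk0 (-e ^ 2) h = (-1) * (Units.mk0 e he * Units.mk0 e he) := by
          apply Units.ext
          simp only [Units.val_mk0, Units.val_mul, Units.val_neg, Units.val_one]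
          ring
        rw [e1, sym_mul, sym_sq, add_zero]
        rfl
      have ha0 : -c ^ 2 ≠ 0 := neg_ne_zero.2 (pow_ne_zero 2 hc0)
      have hb0 : -d ^ 2 ≠ 0 := neg_ne_zero.2 (pow_ne_zero 2 hd0)
      have h1 := sym_steinberg 2 (Units.mk0 _ ha0) (Units.mk0 _ hb0) (by
        rw [Units.val_mk0, Units.val_mk0, ← hc, ← hd, hab])
      rwa [hu c hc0 ha0, hu d hd0 hb0] at h1

theorem psym_neg_one : psym 2 k (-1) = rm (RatFunc k) := by
  have h0 : (-1 : k[X]) ≠ 0 := neg_ne_zero.2 one_ne_zero
  rw [psym_eq 2 k h0 (RatFunc.algebraMap_ne_zero h0)]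
  unfold rm
  congr 1
  apply Units.ext
  rw [Units.val_mk0, Units.val_neg, Units.val_one, map_neg, map_one]

theorem rm_rm_k (h : ∃ s t : k, s ^ 2 + t ^ 2 = -1) :
    psym 2 k (-1) * psym 2 k (-1) = 0 := by
  obtain ⟨s, t, hst⟩ := h
  rw [psym_neg_one]
  refine rm_rm (-(algebraMap k (RatFunc k) s) ^ 2) (-(algebraMap k (RatFunc k) t) ^ 2)
    (algebraMap k (RatFunc k) s) (algebraMap k (RatFunc k) t) rfl rfl ?_
  rw [← neg_add, ← map_pow, ← map_pow, ← map_add, hst, map_neg, map_one, neg_neg]

end fieldE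

end Pool.Agent.KRb
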