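import Pool.Agent.KRb.Defs
import Pool.Agent.KRb.Kmt

/-!
Row DET: the powers of the symbol of minus one detect degree one.
-/

set_option autoImplicit false

namespace Pool.Agent.KRb

open Finsupp Pool.Agent.KMil Pool.Agent.KRat Polynomial

universe u

section fieldE

variable {k : Type u} [Field k] {E : Type u} [Field E]

private theorem det_sym_of_sq (a : Eˣ) (c : E) (h : (a : E) = c ^ 2) : sym 2 a = 0 := by
  have hc : c ≠ 0 := by
    rintro rfl
    apply a.ne_zero
    rw [h]
    ring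
  have e : a = Units.mk0 c hc * Units.mk0 c hc := by
    apply Units.ext
    rw [Units.val_mul, Units.val_mk0, h]
    ring
  rw [e, sym_sq]

private theorem det_rel (χ : KM 2 E →ₗ[ZMod 2] ZMod 2)
    (key : ∀ a b : Eˣ, (a : E) + b = 1 → χ (sym 2 a) * χ (sym 2 b) = 0) :
    ∀ x y, MRel 2 E x y →
      (FreeAlgebra.lift (ZMod 2) (fun u : Eˣ => Polynomial.C (χ (sym 2 u)) *
        (Polynomial.X : (ZMod 2)[X]))) x =
      (FreeAlgebra.lift (ZMod 2) (fun u : Eˣ => Polynomial.C (χ (sym 2 u)) *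
        (Polynomial.X : (ZMod 2)[X]))) y := by
  intro x y hxy
  cases hxy with
  | mul a b =>
    rw [map_add, FreeAlgebra.lift_ι_apply, FreeAlgebra.lift_ι_apply, FreeAlgebra.lift_ι_apply,
      sym_mul, map_add, map_add, add_mul]
  | steinberg a b hab =>
    rw [map_mul, FreeAlgebra.lift_ι_apply, FreeAlgebra.lift_ι_apply, map_zero]
    have e : Polynomial.C (χ (sym 2 a)) * (Polynomial.X : (ZMod 2)[X]) *
        (Polynomial.C (χ (sym 2 b)) * Polynomial.X) =
        Polynomial.C (χ (sym 2 a) * χ (sym 2 b)) * (Polynomial.X * Polynomial.X) := by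
      rw [Polynomial.C_mul]
      ring
    rw [e, key a b hab, map_zero, zero_mul]

/-! Row DET (file DetK.lean), uses KMT -/
theorem det_KM (h : H2 k E) : Det (KMn 2 E 1) (rm E) ∨
    (rm E * rm E = 0 ∧ ∃ s t : k, s ^ 2 + t ^ 2 = -1) := by
  by_cases h4 : ∃ a : E, (∃ s t : k, s ^ 2 + t ^ 2 = -1) ∧ (∃ c : E, -a = c ^ 2) ∧
      ∃ c : E, a - 1 = c ^ 2
  · right
    obtain ⟨a, hs, ⟨c, hc⟩, ⟨d, hd⟩⟩ := h4
    refine ⟨rm_rm a (1 - a) c d ?_ ?_ ?_, hs⟩
    · rw [← hc]
      ring
    · rw [← hd]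
      ring
    · ring
  · left
    intro χ hχ n
    have key : ∀ a b : Eˣ, (a : E) + b = 1 → χ (sym 2 a) * χ (sym 2 b) = 0 := by
      intro a b hab
      have hb : (b : E) = 1 - a := by rw [← hab]; ring
      have ha1 : (a : E) ≠ 1 := by
        intro e
        apply b.ne_zero
        rw [hb, e, sub_self]
      rcases h (a : E) a.ne_zero ha1 with ⟨c, hc⟩ | ⟨c, hc⟩ | ⟨c, hc⟩ | hc
      · rw [det_sym_of_sq a c hc, map_zero, zero_mul]
      · rw [det_sym_of_sq b c (hb.trans hc), map_zero, mul_zero]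
      · have e1 : sym 2 (-1 * (a * b)) = 0 := by
          apply det_sym_of_sq _ c
          rw [Units.val_mul, Units.val_mul, Units.val_neg, Units.val_one, hb, ← hc]
          ring
        have e2 : (1 : ZMod 2) + (χ (sym 2 a) + χ (sym 2 b)) = 0 := by
          rw [← hχ, ← map_add, ← map_add, ← sym_mul]
          unfold rm
          rw [← sym_mul, e1, map_zero]
        have dec : ∀ x y : ZMod 2, 1 + (x + y) = 0 → x * y = 0 := by decide
        exact dec _ _ e2
      · exact absurd ⟨(a : E), hc⟩ h4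
    have hΨ : ∀ w ∈ KMn 2 E 1, liftKM _ (det_rel χ key) w =
        Polynomial.C (χ w) * (Polynomial.X : (ZMod 2)[X]) := by
      intro w hw
      induction hw using Submodule.span_induction with
      | mem x hx =>
        obtain ⟨l, hl, rfl⟩ := hx
        obtain ⟨a, rfl⟩ := List.length_eq_one_iff.1 hl
        rw [List.map_cons, List.map_nil, List.prod_cons, List.prod_nil, mul_one]
        exact (liftKM_quo _ _ _).trans (FreeAlgebra.lift_ι_apply _ _)
      | zero => rw [map_zero, map_zero, map_zero, zero_mul]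
      | add x z _ _ h1 h2 => rw [map_add, h1, h2, map_add, map_add, add_mul]
      | smul c x _ h1 =>
        rw [map_smul, h1, map_smul, smul_eq_mul, Polynomial.C_mul, Polynomial.smul_eq_C_mul,
          mul_assoc]
    refine ⟨(Polynomial.lcoeff (ZMod 2) (n + 2)) ∘ₗ (liftKM _ (det_rel χ key)).toLinearMap, ?_⟩
    intro w hw
    have e3 : liftKM _ (det_rel χ key) (rm E) = (Polynomial.X : (ZMod 2)[X]) := by
      have h5 : rm E ∈ KMn 2 E 1 := sym_mem 2 (-1 : Eˣ)
      rw [hΨ _ h5, hχ, map_one, one_mul]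
    rw [LinearMap.comp_apply, AlgHom.toLinearMap_apply, map_mul, map_pow, e3, hΨ w hw,
      mul_assoc, ← pow_succ', Polynomial.lcoeff_apply, Polynomial.coeff_C_mul_X_pow]
    simp

end fieldE

end Pool.Agent.KRb
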