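import Pool.Agent.KRb.Defs
import Pool.Agent.KRb.Kmt

set_option autoImplicit false

namespace Pool.Agent.KRb

open Finsupp Pool.Agent.KMil Pool.Agent.KRat Polynomial

universe u

section good

variable {k : Type u} [Field k] {E : Type u} [Field E]

private theorem gk_add_self (x : KM 2 E) : x + x = 0 := by
  have h : (2 : ZMod 2) • x = x + x := two_smul _ x
  rw [← h]
  have h2 : (2 : ZMod 2) = 0 := rfl
  rw [h2, zero_smul]

private theorem gk_sq (c : Eˣ) : sym 2 (c ^ 2) = (0 : KM 2 E) := by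
  rw [pow_two, sym_mul]
  exact gk_add_self _

/-- the entry that has to vanish -/
private theorem gk_key (h : H2 k E) (Z : KM 2 E →ₗ[ZMod 2] ZMod 2) (hZ : Z (rm E) = 0)
    (a b : Eˣ) (hab : (a : E) + (b : E) = 1) :
    Z (sym 2 b) • sym 2 a + (Z (sym 2 a) * Z (sym 2 b)) • rm E +
      Z (sym 2 a) • sym 2 b = 0 := by
  have ha1 : (a : E) ≠ 1 := by
    intro h1
    rw [h1] at hab
    exact b.ne_zero (by linear_combination hab)
  have hb : (b : E) = 1 - a := by linear_combination hab
  have hunit : ∀ (u : Eˣ) (c : E), (u : E) = c ^ 2 → sym 2 u = (0 : KM 2 E) := by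
    intro u c hc
    have hc0 : c ≠ 0 := by
      rintro rfl
      exact u.ne_zero (by rw [hc]; ring)
    have hu : u = (Units.mk0 c hc0) ^ 2 := by
      ext
      rw [hc]
      simp
    rw [hu]
    exact gk_sq _
  rcases h a a.ne_zero ha1 with ⟨c, hc⟩ | ⟨c, hc⟩ | ⟨c, hc⟩ | ⟨-, ⟨c, hc⟩, ⟨c', hc'⟩⟩
  · have h0 := hunit a c hc
    rw [h0, map_zero, smul_zero, zero_mul, zero_smul, zero_smul, add_zero, add_zero]
  · have h0 := hunit b c (by rw [hb, hc])
    rw [h0, map_zero, smul_zero, mul_zero, zero_smul, zero_smul, add_zero, add_zero]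
  · have h0 := hunit (-1 * (a * b)) c (by
      rw [← hc, Units.val_mul, Units.val_mul, Units.val_neg, Units.val_one, hb]
      ring)
    rw [sym_mul, sym_mul] at h0
    have h1 : sym 2 b = sym 2 a + rm E := by
      have h2 : rm E + (sym 2 a + sym 2 b) = 0 := h0
      have h3 := gk_add_self (rm E)
      have h4 := gk_add_self (sym 2 a : KM 2 E)
      calc (sym 2 b : KM 2 E) = (rm E + (sym 2 a + sym 2 b)) + (rm E + rm E) +
            (sym 2 a + sym 2 a) - (rm E + rm E) - (sym 2 a + sym 2 a) -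
            (rm E + (sym 2 a + sym 2 b)) + sym 2 b := by abel
        _ = sym 2 b := by rw [h2, h3, h4]; abel
        _ = (sym 2 a + rm E) + (rm E + (sym 2 a + sym 2 b)) - (rm E + rm E) -
            (sym 2 a + sym 2 a) := by abel
        _ = sym 2 a + rm E := by rw [h2, h3, h4]; abel
    have hZ1 : Z (sym 2 b) = Z (sym 2 a) := by rw [h1, map_add, hZ, add_zero]
    rw [hZ1, h1]
    have hz : Z (sym 2 a) * Z (sym 2 a) = Z (sym 2 a) := by
      generalize Z (sym 2 a) = z
      revert z
      decide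
    rw [hz, smul_add]
    have h3 := gk_add_self (Z (sym 2 a) • rm E)
    have h4 := gk_add_self (Z (sym 2 a) • (sym 2 a : KM 2 E))
    calc Z (sym 2 a) • sym 2 a + Z (sym 2 a) • rm E + (Z (sym 2 a) • sym 2 a + Z (sym 2 a) • rm E)
        = (Z (sym 2 a) • sym 2 a + Z (sym 2 a) • sym 2 a) +
          (Z (sym 2 a) • rm E + Z (sym 2 a) • rm E) := by abel
      _ = 0 := by rw [h3, h4, add_zero]
  · have h0 := hunit (-1 * a) c (by
      rw [← hc, Units.val_mul, Units.val_neg, Units.val_one]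
      ring)
    have h0' := hunit (-1 * b) c' (by
      rw [← hc', Units.val_mul, Units.val_neg, Units.val_one, hb]
      ring)
    rw [sym_mul] at h0 h0'
    have hrr := gk_add_self (rm E)
    have h1 : sym 2 a = rm E := by
      have h2 : rm E + sym 2 a = 0 := h0
      calc (sym 2 a : KM 2 E) = (rm E + sym 2 a) - (rm E + rm E) + rm E := by abel
        _ = rm E := by rw [h2, hrr]; abel
    have h1' : sym 2 b = rm E := by
      have h2 : rm E + sym 2 b = 0 := h0'
      calc (sym 2 b : KM 2 E) = (rm E + sym 2 b) - (rm E + rm E) + rm E := by abel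
        _ = rm E := by rw [h2, hrr]; abel
    rw [h1, h1', hZ, zero_smul, mul_zero, zero_smul, add_zero, add_zero]

private theorem gk_ind (P : KM 2 E → Prop) (h0 : ∀ r : ZMod 2, P (algebraMap (ZMod 2) (KM 2 E) r))
    (h1 : ∀ a : Eˣ, P (sym 2 a)) (h2 : ∀ x y, P x → P y → P (x + y))
    (h3 : ∀ x y, P x → P y → P (x * y)) (x : KM 2 E) : P x := by
  obtain ⟨x, rfl⟩ := RingQuot.mkAlgHom_surjective (ZMod 2) (MRel 2 E) x
  change P (quo 2 E x)
  induction x using FreeAlgebra.induction with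
  | grade0 r =>
    rw [AlgHom.commutes]
    exact h0 r
  | grade1 a => exact h1 a
  | mul x y hx hy =>
    rw [map_mul]
    exact h3 _ _ hx hy
  | add x y hx hy =>
    rw [map_add]
    exact h2 _ _ hx hy

/-- GOOD -/
theorem good_KM (h : H2 k E) : Good (KMn 2 E 1) (rm E) := by
  refine ⟨rm_mem, km_comm, km_sq, ?_⟩
  intro Z hZ
  obtain ⟨f, hf⟩ : ∃ f : Eˣ → Matrix (Fin 2) (Fin 2) (KM 2 E), ∀ a, f a =
      !![sym 2 a + Z (sym 2 a) • rm E, Z (sym 2 a) • 1; 0, sym 2 a] := ⟨_, fun _ => rfl⟩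
  have hrel : ∀ x y, MRel 2 E x y → FreeAlgebra.lift (ZMod 2) f x =
      FreeAlgebra.lift (ZMod 2) f y := by
    intro x y hxy
    cases hxy with
    | mul a b =>
      rw [map_add, FreeAlgebra.lift_ι_apply, FreeAlgebra.lift_ι_apply, FreeAlgebra.lift_ι_apply,
        hf, hf, hf, sym_mul, map_add]
      ext i j
      fin_cases i <;> fin_cases j
      · simp [add_smul]
        abel
      · simp [add_smul]
      · simp
      · simp
    | steinberg a b hab =>
      rw [map_mul, FreeAlgebra.lift_ι_apply, FreeAlgebra.lift_ι_apply, map_zero, hf, hf]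
      have hk := gk_key h Z hZ a b hab
      have hst := sym_steinberg 2 a b hab
      have hc : sym 2 a * rm E = rm E * sym 2 a := km_comm _ (sym_mem 2 a) _ rm_mem
      rw [Matrix.mul_fin_two]
      have e01 : (sym 2 a + Z (sym 2 a) • rm E) * (Z (sym 2 b) • 1) + Z (sym 2 a) • 1 * sym 2 b
          = (0 : KM 2 E) := by
        rw [mul_smul_comm, mul_one, smul_mul_assoc, one_mul, smul_add, smul_smul]
        rw [mul_comm (Z (sym 2 b)) (Z (sym 2 a))]
        exact hk
      have e00 : (sym 2 a + Z (sym 2 a) • rm E) * (sym 2 b + Z (sym 2 b) • rm E) +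
          Z (sym 2 a) • 1 * 0 = (0 : KM 2 E) := by
        have e : (sym 2 a + Z (sym 2 a) • rm E) * (sym 2 b + Z (sym 2 b) • rm E) =
            sym 2 a * sym 2 b + rm E * (Z (sym 2 b) • sym 2 a +
              (Z (sym 2 a) * Z (sym 2 b)) • rm E + Z (sym 2 a) • sym 2 b) := by
          rw [add_mul, mul_add, mul_add, mul_add, mul_add, mul_smul_comm, hc, mul_smul_comm,
            mul_smul_comm, mul_smul_comm, smul_mul_assoc, smul_mul_assoc, mul_smul_comm,
            smul_smul, mul_comm (Z (sym 2 b)) (Z (sym 2 a))]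
          abel
        rw [e, hk, hst, mul_zero, mul_zero, add_zero, add_zero]
      rw [e01, e00]
      ext i j
      fin_cases i <;> fin_cases j
      · simp
      · simp
      · simp
      · simp [hst]
  obtain ⟨Φ, hΦ⟩ : ∃ Φ : KM 2 E →ₐ[ZMod 2] Matrix (Fin 2) (Fin 2) (KM 2 E),
      ∀ a, Φ (sym 2 a) = f a := by
    refine ⟨liftKM (FreeAlgebra.lift (ZMod 2) f) hrel, fun a => ?_⟩
    exact (liftKM_quo _ _ _).trans (FreeAlgebra.lift_ι_apply _ _)
  have htri : ∀ m : KM 2 E, Φ m 1 0 = 0 ∧ Φ m 1 1 = m := by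
    apply gk_ind
    · intro r
      rw [AlgHom.commutes, Matrix.algebraMap_matrix_apply, Matrix.algebraMap_matrix_apply]
      simp
    · intro a
      rw [hΦ, hf]
      simp
    · rintro x y ⟨h1, h2⟩ ⟨h3, h4⟩
      rw [map_add, Matrix.add_apply, Matrix.add_apply, h1, h2, h3, h4, add_zero]
      exact ⟨rfl, rfl⟩
    · rintro x y ⟨h1, h2⟩ ⟨h3, h4⟩
      rw [map_mul, Matrix.mul_apply, Matrix.mul_apply, Fin.sum_univ_two, Fin.sum_univ_two,
        h1, h2, h3, h4, zero_mul, mul_zero, add_zero, zero_mul, zero_add]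
      exact ⟨rfl, rfl⟩
  refine ⟨(Matrix.entryLinearMap (ZMod 2) (KM 2 E) 0 1) ∘ₗ Φ.toLinearMap, ?_, ?_⟩
  · change Φ 1 0 1 = 0
    rw [map_one]
    simp
  · intro w hw m
    change Φ (w * m) 0 1 = Z w • m + w * Φ m 0 1 + Z w • (rm E * Φ m 0 1)
    have hmul : ∀ w : KM 2 E, Φ (w * m) 0 1 = Φ w 0 0 * Φ m 0 1 + Φ w 0 1 * m := by
      intro w
      rw [map_mul, Matrix.mul_apply, Fin.sum_univ_two, (htri m).2]
    rw [hmul]
    have hw2 : Φ w 0 0 = w + Z w • rm E ∧ Φ w 0 1 = Z w • 1 := by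
      unfold KMn at hw
      induction hw using Submodule.span_induction with
      | mem x hx =>
        obtain ⟨l, hl, rfl⟩ := hx
        obtain ⟨a, rfl⟩ := List.length_eq_one_iff.1 hl
        rw [List.map_singleton, List.prod_singleton, hΦ, hf]
        simp
      | zero => simp
      | add x y _ _ h1 h2 =>
        rw [map_add, Matrix.add_apply, Matrix.add_apply, h1.1, h1.2, h2.1, h2.2, map_add,
          add_smul, add_smul]
        exact ⟨by abel, rfl⟩
      | smul c x _ h1 =>
        rw [map_smul, Matrix.smul_apply, Matrix.smul_apply, h1.1, h1.2, map_smul, smul_add,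
          smul_smul, smul_smul]
        exact ⟨rfl, rfl⟩
    rw [hw2.1, hw2.2, add_mul, smul_mul_assoc, smul_mul_assoc, one_mul]
    abel

end good

end Pool.Agent.KRb
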