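import Pool.Agent.KRb.Step
import Pool.Agent.KRb.GoodK
import Pool.Agent.KRb.DetK
import Pool.Agent.KRb.Kmt
import Pool.Agent.KRat.PSymB

/-!
Row EXV of the board KRb (MP_da2a57_al): exactness of the Koszul complex with coefficients for a
basis of the span of the symbols of the polynomials of bounded degree.
-/

set_option autoImplicit false

namespace Pool.Agent.KRb

open Finsupp Pool.Agent.KMil Pool.Agent.KRat Polynomial

universe u

private theorem exv_lc {I : Type*} {A : Type*} [Ring A] [Algebra (ZMod 2) A] {B : Type*} [Ring B]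
    [Algebra (ZMod 2) B] (ev : A →ₐ[ZMod 2] B) (v : I → A) (x : I →₀ ZMod 2) :
    lc (fun i => ev (v i)) x = ev (lc v x) := by
  unfold lc
  rw [Finsupp.sum, Finsupp.sum, map_sum]
  exact Finset.sum_congr rfl fun i _ => (map_smul ev _ _).symm

private theorem exv_ex {A : Type*} [Ring A] [Algebra (ZMod 2) A] (B0 : Set A) (x : A)
    (hx : x ∈ Submodule.span (ZMod 2) B0) :
    ∃ c : B0 →₀ ZMod 2, lc (Subtype.val : B0 → A) c = x := by
  rw [← Subtype.range_coe (s := B0), Finsupp.mem_span_range_iff_exists_finsupp] at hx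
  obtain ⟨c, hc⟩ := hx
  exact ⟨c, hc⟩

private theorem exv_mem {A : Type*} [Ring A] [Algebra (ZMod 2) A] (B0 : Set A)
    (c : B0 →₀ ZMod 2) : lc (Subtype.val : B0 → A) c ∈ Submodule.span (ZMod 2) B0 := by
  unfold lc
  exact Submodule.sum_mem _ fun i _ =>
    Submodule.smul_mem _ _ (Submodule.subset_span i.2)

section fieldk

variable {k : Type u} [Field k]

theorem exB_VV (hE : ∀ (d : ℕ) (π : Pl k d), H2 k (AdjoinRoot π.1)) (d : ℕ) (e : ℕ) (π : Pl k e)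
    (B0 : Set (KM 2 (RatFunc k))) (hs : Submodule.span (ZMod 2) B0 = VV 2 k d)
    (ev : KM 2 (RatFunc k) →ₐ[ZMod 2] KM 2 (AdjoinRoot π.1))
    (hev : ∀ x ∈ VV 2 k d, ev x ∈ KMn 2 (AdjoinRoot π.1) 1)
    (hsurj : ∀ w ∈ KMn 2 (AdjoinRoot π.1) 1, ∃ x ∈ VV 2 k d, ev x = w)
    (h1 : ev (psym 2 k (-1)) = rm (AdjoinRoot π.1)) :
    ExB (Subtype.val : B0 → KM 2 (RatFunc k)) (fun i => ev (i : KM 2 (RatFunc k)))
      (KMn 2 (AdjoinRoot π.1) 1) := by
  have hB : ∀ i : B0, (i : KM 2 (RatFunc k)) ∈ VV 2 k d := fun i =>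
    hs ▸ Submodule.subset_span i.2
  have hle : ∀ x ∈ VV 2 k d, x ∈ KMn 2 (RatFunc k) 1 := fun x hx => VV_le 2 k d hx
  have hlc : ∀ c : B0 →₀ ZMod 2,
      lc (Subtype.val : B0 → KM 2 (RatFunc k)) c ∈ KMn 2 (RatFunc k) 1 := fun c =>
    hle _ (hs ▸ exv_mem B0 c)
  have hm1 : psym 2 k (-1) ∈ VV 2 k d := by
    unfold VV
    exact Submodule.subset_span ⟨-1, neg_ne_zero.mpr one_ne_zero, by simp, rfl⟩
  obtain ⟨ρ, hρ⟩ := exv_ex B0 (psym 2 k (-1)) (by rw [hs]; exact hm1)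
  refine exB (Subtype.val : B0 → KM 2 (RatFunc k)) (fun i j => ?_) ev
    (KMn 2 (AdjoinRoot π.1) 1) (rm (AdjoinRoot π.1)) (good_KM (k := k) (hE e π)) (fun i => ?_)
    (fun w hw => ?_) ρ ?_ (fun x => ?_) ?_
  · exact km_comm _ (hle _ (hB i)) _ (hle _ (hB j))
  · exact hev _ (hB i)
  · obtain ⟨x, hx, hxw⟩ := hsurj w hw
    obtain ⟨c, hc⟩ := exv_ex B0 x (by rw [hs]; exact hx)
    exact ⟨c, by rw [exv_lc, hc, hxw]⟩
  · rw [exv_lc, hρ, h1]
  · rw [hρ, psym_neg_one]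
    exact km_sq _ (hlc x)
  · rcases det_KM (k := k) (hE e π) with h | ⟨h, h'⟩
    · exact Or.inl h
    · exact Or.inr ⟨h, by rw [hρ]; exact rm_rm_k h'⟩

end fieldk

end Pool.Agent.KRb
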