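import Pool.Agent.KRb.Defs
import Pool.Agent.KRat.Gen

/-!
Row GEN: generators of the next stage, `p = 2`, no hypothesis on `-1`.
-/

set_option autoImplicit false

namespace Pool.Agent.KRb

open Finsupp Pool.Agent.KMil Pool.Agent.KRat Polynomial

universe u

section GenAux

variable {f : Type} [Field f] {I : Type*} {A : Type*} [Ring A] [Algebra f A]

/-- the elements of the required form -/
private noncomputable def gDec (V : Submodule f A) (s : I → A) (n : ℕ) : Submodule f A where
  carrier := {x | ∃ x0 ∈ V ^ (n + 1), ∃ c : I →₀ A,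
      (∀ i, c i ∈ V ^ n) ∧ x = x0 + c.sum (fun i a => s i * a)}
  add_mem' := by
    classical
    rintro x y ⟨x0, hx0, c, hc, rfl⟩ ⟨y0, hy0, c', hc', rfl⟩
    refine ⟨x0 + y0, add_mem hx0 hy0, c + c', fun i => add_mem (hc i) (hc' i), ?_⟩
    rw [Finsupp.sum_add_index' (fun i => mul_zero _) (fun i a b => mul_add _ _ _)]
    abel
  zero_mem' := ⟨0, zero_mem _, 0, fun i => zero_mem _, by rw [Finsupp.sum_zero_index, add_zero]⟩
  smul_mem' := by
    rintro a x ⟨x0, hx0, c, hc, rfl⟩
    refine ⟨a • x0, Submodule.smul_mem _ _ hx0, a • c,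
      fun i => Submodule.smul_mem _ _ (hc i), ?_⟩
    rw [Finsupp.sum_smul_index' (fun i => mul_zero _), smul_add, Finsupp.smul_sum]
    simp only [mul_smul_comm]

private theorem gDec_left {V : Submodule f A} {s : I → A} {n : ℕ} {x : A}
    (hx : x ∈ V ^ (n + 1)) : x ∈ gDec V s n :=
  ⟨x, hx, 0, fun i => zero_mem _, by rw [Finsupp.sum_zero_index, add_zero]⟩

private theorem gDec_right {V : Submodule f A} {s : I → A} {n : ℕ} (i : I) {m : A}
    (hm : m ∈ V ^ n) : s i * m ∈ gDec V s n := by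
  classical
  refine ⟨0, zero_mem _, Finsupp.single i m, fun j => ?_, ?_⟩
  · rw [Finsupp.single_apply]
    split_ifs
    · exact hm
    · exact zero_mem _
  · rw [Finsupp.sum_single_index (mul_zero _), zero_add]

private theorem gPow_le {V U : Submodule f A} (hVU : V ≤ U) (m : ℕ) : V ^ m ≤ U ^ m := by
  induction m with
  | zero => rw [pow_zero, pow_zero]
  | succ m ih =>
    rw [pow_succ, pow_succ]
    exact Submodule.mul_le.2 fun a ha b hb => Submodule.mul_mem_mul (ih ha) (hVU hb)

/-- powers of a commuting subspace commute with it -/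
private theorem gComm {U : Submodule f A} (hU : ∀ x ∈ U, ∀ y ∈ U, x * y = y * x) (n : ℕ) {a : A}
    (ha : a ∈ U ^ n) {x : A} (hx : x ∈ U) : a * x = x * a := by
  induction n generalizing a with
  | zero =>
    rw [pow_zero, Submodule.mem_one] at ha
    obtain ⟨c, rfl⟩ := ha
    exact Algebra.commutes c x
  | succ n ih =>
    rw [pow_succ] at ha
    refine Submodule.mul_induction_on ha ?_ ?_
    · intro b hb y hy
      rw [mul_assoc, hU y hy x hx, ← mul_assoc, ih hb, mul_assoc]
    · intro b c hb hc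
      rw [add_mul, hb, hc, mul_add]

private theorem gDec_mul {V U : Submodule f A} {s : I → A}
    (hU : ∀ x ∈ U, ∀ y ∈ U, x * y = y * x) (hVU : V ≤ U)
    (hs : ∀ i, s i ∈ U)
    (hss : ∀ i j, ∃ a ∈ V, ∃ b ∈ V, s i * s j = s i * a + s j * b) {n : ℕ} {y v : A}
    (hy : y ∈ gDec V s n) (hv : v ∈ V ⊔ Submodule.span f (Set.range s)) :
    y * v ∈ gDec V s (n + 1) := by
  obtain ⟨y0, hy0, c, hc, rfl⟩ := hy
  obtain ⟨v0, hv0, v1, hv1, rfl⟩ := Submodule.mem_sup.1 hv
  clear hv
  rw [add_mul]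
  refine add_mem ?_ ?_
  · rw [mul_add]
    refine add_mem ?_ ?_
    · apply gDec_left
      rw [pow_succ]
      exact Submodule.mul_mem_mul hy0 hv0
    · induction hv1 using Submodule.span_induction with
      | mem x hx =>
        obtain ⟨j, rfl⟩ := hx
        rw [gComm hU (n + 1) (gPow_le hVU _ hy0) (hs j)]
        exact gDec_right j hy0
      | zero => rw [mul_zero]; exact zero_mem _
      | add x z _ _ h2 h3 =>
        rw [mul_add]
        exact add_mem h2 h3
      | smul a x _ h2 =>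
        rw [mul_smul_comm]
        exact Submodule.smul_mem _ _ h2
  · rw [Finsupp.sum, Finset.sum_mul]
    refine Submodule.sum_mem _ fun i _ => ?_
    rw [mul_add]
    refine add_mem ?_ ?_
    · rw [mul_assoc]
      apply gDec_right
      rw [pow_succ]
      exact Submodule.mul_mem_mul (hc i) hv0
    · induction hv1 using Submodule.span_induction with
      | mem x hx =>
        obtain ⟨j, rfl⟩ := hx
        have h2 := gComm hU n (gPow_le hVU _ (hc i)) (hs j)
        obtain ⟨a, ha, b, hb, hab⟩ := hss i j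
        have h3 : s i * c i * s j = s i * (a * c i) + s j * (b * c i) := by
          rw [mul_assoc, h2, ← mul_assoc, hab, add_mul, mul_assoc (s i) a, mul_assoc (s j) b]
        rw [h3]
        refine add_mem (gDec_right i ?_) (gDec_right j ?_)
        · rw [pow_succ']
          exact Submodule.mul_mem_mul ha (hc i)
        · rw [pow_succ']
          exact Submodule.mul_mem_mul hb (hc i)
      | zero => rw [mul_zero]; exact zero_mem _
      | add x z _ _ h2 h3 =>
        rw [mul_add]
        exact add_mem h2 h3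
      | smul a x _ h2 =>
        rw [mul_smul_comm]
        exact Submodule.smul_mem _ _ h2

private theorem gDec_pow {V U V' : Submodule f A} {s : I → A}
    (hU : ∀ x ∈ U, ∀ y ∈ U, x * y = y * x) (hVU : V ≤ U)
    (hs : ∀ i, s i ∈ U)
    (hss : ∀ i j, ∃ a ∈ V, ∃ b ∈ V, s i * s j = s i * a + s j * b)
    (hV' : V' ≤ V ⊔ Submodule.span f (Set.range s)) (n : ℕ) : V' ^ (n + 1) ≤ gDec V s n := by
  induction n with
  | zero =>
    rw [zero_add, pow_one]
    refine hV'.trans (sup_le ?_ ?_)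
    · intro x hx
      apply gDec_left
      rw [zero_add, pow_one]
      exact hx
    · refine Submodule.span_le.2 ?_
      rintro x ⟨i, rfl⟩
      have h1 : s i * 1 ∈ gDec V s 0 := by
        apply gDec_right
        rw [pow_zero]
        exact Submodule.one_le.1 le_rfl
      rw [mul_one] at h1
      exact h1
  | succ n ih =>
    rw [pow_succ]
    refine Submodule.mul_le.2 fun y hy v hv => ?_
    exact gDec_mul hU hVU hs hss (ih hy) (hV' hv)

end GenAux

section GenField

private theorem gNeg2 {A : Type*} [Ring A] [Algebra (ZMod 2) A] (x : A) : -x = x := by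
  have h1 : (2 : ZMod 2) • x = 0 := by
    rw [show (2 : ZMod 2) = 0 from rfl, zero_smul]
  have h : x + x = 0 := by
    rw [← two_smul (ZMod 2) x]
    exact h1
  exact neg_eq_of_add_eq_zero_left h

variable {k : Type u} [Field k]

private theorem gen_span {E : Type u} [Field E] {x : KM 2 E} (hx : x ∈ KMn 2 E 1) :
    x ∈ Submodule.span (ZMod 2) (Set.range (sym 2 : Eˣ → KM 2 E)) := by
  refine (Submodule.span_le.2 ?_ : KMn 2 E 1 ≤ _) hx
  rintro y ⟨l, hl, rfl⟩
  rw [List.length_eq_one_iff] at hl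
  obtain ⟨a, rfl⟩ := hl
  refine Submodule.subset_span ⟨a, ?_⟩
  simp

private theorem gen_comm {E : Type u} [Field E] : ∀ x ∈ KMn 2 E 1, ∀ y ∈ KMn 2 E 1,
    x * y = y * x := by
  intro x hx y hy
  replace hx := gen_span hx
  replace hy := gen_span hy
  induction hx using Submodule.span_induction with
  | mem x hx =>
    obtain ⟨a, rfl⟩ := hx
    induction hy using Submodule.span_induction with
    | mem y hy =>
      obtain ⟨b, rfl⟩ := hy
      have h := sym_anticomm 2 a b
      rw [add_eq_zero_iff_eq_neg] at h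
      rw [h, gNeg2]
    | zero => rw [mul_zero, zero_mul]
    | add y z _ _ h2 h3 => rw [mul_add, add_mul, h2, h3]
    | smul c y _ h2 => rw [mul_smul_comm, smul_mul_assoc, h2]
  | zero => rw [mul_zero, zero_mul]
  | add x z _ _ h2 h3 => rw [mul_add, add_mul, h2, h3]
  | smul c x _ h2 => rw [mul_smul_comm, smul_mul_assoc, h2]

private theorem gen_mem {d : ℕ} {q : k[X]} (hq : q ≠ 0) (hdeg : q.natDegree ≤ d) :
    psym 2 k q ∈ VV 2 k d :=
  Submodule.subset_span ⟨q, hq, hdeg, rfl⟩

private theorem gen_sq {q : k[X]} (hq : q ≠ 0) :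
    psym 2 k q * psym 2 k q = psym 2 k q * psym 2 k (-1) := by
  have h2 : algebraMap k[X] (RatFunc k) q ≠ 0 := RatFunc.algebraMap_ne_zero hq
  have h3 : algebraMap k[X] (RatFunc k) (-q) ≠ 0 :=
    RatFunc.algebraMap_ne_zero (neg_ne_zero.2 hq)
  have h4 : psym 2 k (-q) = psym 2 k (-1) + psym 2 k q := by
    rw [← psym_mul 2 k (neg_ne_zero.2 one_ne_zero) hq, neg_one_mul]
  have h5 : psym 2 k q * psym 2 k (-q) = 0 := by
    rw [psym_eq 2 k hq h2, psym_eq 2 k (neg_ne_zero.2 hq) h3]
    have h6 : Units.mk0 _ h3 = -Units.mk0 _ h2 := by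
      apply Units.ext
      rw [Units.val_neg, Units.val_mk0, Units.val_mk0, map_neg]
    rw [h6]
    exact sym_neg_self 2 _
  rw [h4, mul_add, add_eq_zero_iff_eq_neg] at h5
  rw [h5]
  exact (gNeg2 _).symm

/-- the product of two new generators -/
private theorem gen_mul (d : ℕ) (π ρ : Pl k (d + 1)) :
    ∃ a ∈ VV 2 k d, ∃ b ∈ VV 2 k d,
      psym 2 k π.1 * psym 2 k ρ.1 = psym 2 k π.1 * a + psym 2 k ρ.1 * b := by
  have hm1 : psym 2 k (-1) ∈ VV 2 k d :=
    gen_mem (neg_ne_zero.2 one_ne_zero) (by rw [Polynomial.natDegree_neg, Polynomial.natDegree_one]; exact Nat.zero_le _)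
  by_cases h : π.1 = ρ.1
  · refine ⟨psym 2 k (-1), hm1, 0, Submodule.zero_mem _, ?_⟩
    rw [← h, gen_sq π.2.1.ne_zero, mul_zero, add_zero]
  · have hg : π.1 - ρ.1 ≠ 0 := sub_ne_zero.2 h
    have hgd : (π.1 - ρ.1).natDegree ≤ d := by
      have h2 : (π.1 - ρ.1).degree < π.1.degree := by
        apply Polynomial.degree_sub_lt_left
        · rw [Polynomial.degree_eq_natDegree π.2.1.ne_zero,
            Polynomial.degree_eq_natDegree ρ.2.1.ne_zero, π.2.2.2, ρ.2.2.2]
        · exact π.2.1.ne_zero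
        · rw [π.2.1.leadingCoeff, ρ.2.1.leadingCoeff]
      have h3 := Polynomial.natDegree_lt_natDegree hg h2
      have h4 := π.2.2.2
      omega
    have hmem : psym 2 k (π.1 - ρ.1) ∈ VV 2 k d := gen_mem hg hgd
    refine ⟨psym 2 k (π.1 - ρ.1) + psym 2 k (-1), add_mem hmem hm1,
      psym 2 k (π.1 - ρ.1), hmem, ?_⟩
    have h5 := psym_add 2 k ρ.2.1.ne_zero hg π.2.1.ne_zero (by ring)
    have h6 := gen_comm _ (psym_mem 2 k π.1) _ (psym_mem 2 k ρ.1)
    have h7 := gen_comm _ (psym_mem 2 k π.1) _ (psym_mem 2 k (π.1 - ρ.1))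
    have h8 := gen_sq (k := k) π.2.1.ne_zero
    rw [sub_mul, mul_sub, mul_sub, ← h6, h8] at h5
    -- ρ g - π ρ - (π g - π {-1}) = 0
    have h9 : psym 2 k π.1 * psym 2 k ρ.1 = psym 2 k ρ.1 * psym 2 k (π.1 - ρ.1) -
        (psym 2 k π.1 * psym 2 k (π.1 - ρ.1) - psym 2 k π.1 * psym 2 k (-1)) := by
      rw [sub_eq_zero] at h5
      rw [← h5]
      abel
    have h10 : psym 2 k π.1 * psym 2 k ρ.1 = psym 2 k ρ.1 * psym 2 k (π.1 - ρ.1) +
        (-(psym 2 k π.1 * psym 2 k (π.1 - ρ.1)) + psym 2 k π.1 * psym 2 k (-1)) := by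
      rw [h9]
      abel
    rw [h10, gNeg2, mul_add]
    abel

theorem decM (d n : ℕ) : ∀ x ∈ VV 2 k (d + 1) ^ (n + 1),
    ∃ x0 ∈ VV 2 k d ^ (n + 1), ∃ c : Pl k (d + 1) →₀ KM 2 (RatFunc k),
      (∀ π, c π ∈ VV 2 k d ^ n) ∧ x = x0 + c.sum (fun π a => psym 2 k π.1 * a) := by
  intro x hx
  exact gDec_pow gen_comm (VV_le 2 k d) (fun π : Pl k (d + 1) => psym_mem 2 k π.1)
    (gen_mul d) (VV_succ_le 2 k d) n hx

end GenField

end Pool.Agent.KRb
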