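import Pool.Agent.KRb.Defs
import Pool.Agent.KRat.Ker

/-!
Row KER: the new generator times the kernel of the evaluation, `p = 2`.
-/

set_option autoImplicit false

namespace Pool.Agent.KRb

open Finsupp Pool.Agent.KMil Pool.Agent.KRat Polynomial

universe u

variable {k : Type u} [Field k]

/-- the key relation (as in KRat, the hypothesis on `-1` is not needed) -/
private theorem ker_key (d : ℕ) (π : Pl k (d + 1)) (q r s : k[X]) (hq : q ≠ 0)
    (hr : r ≠ 0) (hs : s ≠ 0) (hqd : q.natDegree ≤ d) (hrd : r.natDegree ≤ d)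
    (hsd : s.natDegree ≤ d) (h : π.1 ∣ q * r - s) :
    psym 2 k π.1 * (psym 2 k q + psym 2 k r - psym 2 k s) ∈ VV 2 k d ^ 2 := by
  obtain ⟨t, ht⟩ := h
  by_cases ht0 : t = 0
  · rw [ht0, mul_zero, sub_eq_zero] at ht
    rw [← psym_mul 2 k hq hr, ht, sub_self, mul_zero]
    exact Submodule.zero_mem _
  have hπ : π.1 ≠ 0 := π.2.2.1.ne_zero
  have htd : t.natDegree ≤ d := by
    have e1 : (π.1 * t).natDegree = (d + 1) + t.natDegree := by
      rw [natDegree_mul hπ ht0, π.2.2.2]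
    have e2 : (q * r - s).natDegree ≤ 2 * d := by
      refine (natDegree_sub_le _ _).trans (max_le ?_ ?_)
      · rw [natDegree_mul hq hr]
        omega
      · omega
    rw [ht, e1] at e2
    omega
  have e1 : (psym 2 k s - (psym 2 k q + psym 2 k r)) *
      ((psym 2 k t + psym 2 k π.1) - (psym 2 k q + psym 2 k r)) = 0 := by
    have h3 := psym_add 2 k hs (mul_ne_zero ht0 hπ) (mul_ne_zero hq hr)
      (by rw [mul_comm t, ← ht]; ring)
    rw [psym_mul 2 k ht0 hπ, psym_mul 2 k hq hr] at h3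
    exact h3
  have e2 : psym 2 k π.1 * (psym 2 k q + psym 2 k r - psym 2 k s) =
      -((psym 2 k q + psym 2 k r - psym 2 k s) * psym 2 k π.1) := by
    rw [mul_sub, mul_add, sub_mul, add_mul, psym_anticomm 2 hπ hq, psym_anticomm 2 hπ hr,
      psym_anticomm 2 hπ hs]
    abel
  have e3 : psym 2 k π.1 * (psym 2 k q + psym 2 k r - psym 2 k s) =
      (psym 2 k q + psym 2 k r - psym 2 k s) * (psym 2 k t - (psym 2 k q + psym 2 k r)) := by
    rw [e2, ← add_zero ((psym 2 k q + psym 2 k r - psym 2 k s) *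
      (psym 2 k t - (psym 2 k q + psym 2 k r))), ← e1]
    noncomm_ring
  have hm : ∀ x : k[X], x ≠ 0 → x.natDegree ≤ d → psym 2 k x ∈ VV 2 k d := fun x hx hxd =>
    Submodule.subset_span ⟨x, hx, hxd, rfl⟩
  rw [e3, pow_two]
  exact Submodule.mul_mem_mul
    (Submodule.sub_mem _ (Submodule.add_mem _ (hm q hq hqd) (hm r hr hrd)) (hm s hs hsd))
    (Submodule.sub_mem _ (hm t ht0 htd) (Submodule.add_mem _ (hm q hq hqd) (hm r hr hrd)))

/-- the Steinberg relation for polynomials -/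
private theorem ker_steinberg (q r : k[X]) (hq : q ≠ 0) (hr : r ≠ 0) (h : q + r = 1) :
    psym 2 k q * psym 2 k r = 0 := by
  have h1 : psym 2 k (1 : k[X]) = 0 := by
    have h2 := psym_mul 2 k (one_ne_zero (α := k[X])) (one_ne_zero (α := k[X]))
    rw [mul_one] at h2
    exact left_eq_add.1 h2
  have h3 := psym_add 2 k hq hr one_ne_zero h
  rw [h1, sub_zero, sub_zero] at h3
  exact h3

theorem ker_evM (d : ℕ) (π : Pl k (d + 1))
    (ev : KM 2 (RatFunc k) →ₐ[ZMod 2] KM 2 (AdjoinRoot π.1))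
    (hev : ∀ q : k[X], q ≠ 0 → q.natDegree ≤ d → ev (psym 2 k q) = rsig π (sym 2) q)
    (n : ℕ) (a : KM 2 (RatFunc k)) (ha : a ∈ VV 2 k d ^ n) (h0 : ev a = 0) :
    psym 2 k π.1 * a ∈ VV 2 k d ^ (n + 1) := by
  classical
  have hπ0 : π.1 ≠ 0 := π.2.2.1.ne_zero
  have he : psym 2 k π.1 ∈ KMn 2 (RatFunc k) 1 := psym_mem 2 k π.1
  have hSe : ∀ v ∈ {x | ∃ q : k[X], q ≠ 0 ∧ q.natDegree ≤ d ∧ x = psym 2 k q},
      psym 2 k π.1 * v = -(v * psym 2 k π.1) := by
    rintro _ ⟨q, hq, _, rfl⟩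
    exact psym_anticomm 2 hπ0 hq
  obtain ⟨E, _, _, lam, hlam⟩ := KERB_rep (f := ZMod 2)
    {x | ∃ q : k[X], q ≠ 0 ∧ q.natDegree ≤ d ∧ x = psym 2 k q} (psym 2 k π.1) hSe
  have hmem : ∀ q : k[X], q ≠ 0 → q.natDegree ≤ d → psym 2 k q ∈
      Algebra.adjoin (ZMod 2) {x | ∃ q : k[X], q ≠ 0 ∧ q.natDegree ≤ d ∧ x = psym 2 k q} :=
    fun q hq hqd => Algebra.subset_adjoin ⟨q, hq, hqd, rfl⟩
  have hkey : ∀ (q r s : k[X]) (hq : q ≠ 0) (hr : r ≠ 0) (hs : s ≠ 0) (hqd : q.natDegree ≤ d)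
      (hrd : r.natDegree ≤ d) (hsd : s.natDegree ≤ d), π.1 ∣ q * r - s →
      lam ⟨psym 2 k s, hmem s hs hsd⟩ =
        lam ⟨psym 2 k q, hmem q hq hqd⟩ + lam ⟨psym 2 k r, hmem r hr hrd⟩ := by
    intro q r s hq hr hs hqd hrd hsd h
    have h2 := ker_key d π q r s hq hr hs hqd hrd hsd h
    have h3 : lam (⟨psym 2 k q, hmem q hq hqd⟩ + ⟨psym 2 k r, hmem r hr hrd⟩ -
        ⟨psym 2 k s, hmem s hs hsd⟩) = 0 := by
      rw [hlam]
      exact KERB_pow _ 2 _ h2
    rw [map_sub, map_add, sub_eq_zero] at h3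
    exact h3.symm
  -- representatives
  have hrep : ∀ u : (AdjoinRoot π.1)ˣ, ∃ q : k[X], q ≠ 0 ∧ q.natDegree ≤ d ∧
      AdjoinRoot.mk π.1 q = (u : AdjoinRoot π.1) := fun u => KERB_unit π _ u.ne_zero
  choose rep hr1 hr2 hr3 using hrep
  have hrel : ∀ x y, MRel 2 (AdjoinRoot π.1) x y →
      FreeAlgebra.lift (ZMod 2) (fun u : (AdjoinRoot π.1)ˣ =>
        lam ⟨psym 2 k (rep u), hmem _ (hr1 u) (hr2 u)⟩) x =
      FreeAlgebra.lift (ZMod 2) (fun u : (AdjoinRoot π.1)ˣ =>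
        lam ⟨psym 2 k (rep u), hmem _ (hr1 u) (hr2 u)⟩) y := by
    intro x y hxy
    induction hxy with
    | mul a b =>
      rw [map_add, FreeAlgebra.lift_ι_apply, FreeAlgebra.lift_ι_apply, FreeAlgebra.lift_ι_apply]
      refine hkey _ _ _ (hr1 _) (hr1 _) (hr1 _) (hr2 _) (hr2 _) (hr2 _) ?_
      rw [← AdjoinRoot.mk_eq_zero, map_sub, map_mul, hr3, hr3, hr3, Units.val_mul, sub_self]
    | steinberg a b hab =>
      rw [map_mul, map_zero, FreeAlgebra.lift_ι_apply, FreeAlgebra.lift_ι_apply, ← map_mul]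
      have h1 : rep a + rep b = 1 := by
        have h5 : AdjoinRoot.mk π.1 (rep a + rep b - 1) = 0 := by
          rw [map_sub, map_add, hr3, hr3, hab, map_one, sub_self]
        rw [AdjoinRoot.mk_eq_zero] at h5
        have h6 : (rep a + rep b - 1).natDegree ≤ d := by
          refine (Polynomial.natDegree_sub_le _ _).trans (max_le ?_ ?_)
          · exact (Polynomial.natDegree_add_le _ _).trans (max_le (hr2 _) (hr2 _))
          · rw [natDegree_one]
            exact Nat.zero_le _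
        have h7 := π.2.2.2
        exact sub_eq_zero.1 (Polynomial.eq_zero_of_dvd_of_natDegree_lt h5 (by omega))
      have h2 : (⟨psym 2 k (rep a), hmem _ (hr1 a) (hr2 a)⟩ *
          ⟨psym 2 k (rep b), hmem _ (hr1 b) (hr2 b)⟩ :
          Algebra.adjoin (ZMod 2) {x | ∃ q : k[X], q ≠ 0 ∧ q.natDegree ≤ d ∧ x = psym 2 k q})
          = 0 := by
        apply Subtype.ext
        exact ker_steinberg _ _ (hr1 a) (hr1 b) h1
      rw [h2, map_zero]
  let Φ : KM 2 (AdjoinRoot π.1) →ₐ[ZMod 2] E := liftKM _ hrel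
  have hΦs : ∀ u : (AdjoinRoot π.1)ˣ, Φ (sym 2 u) =
      lam ⟨psym 2 k (rep u), hmem _ (hr1 u) (hr2 u)⟩ := by
    intro u
    exact (liftKM_quo _ _ _).trans (FreeAlgebra.lift_ι_apply _ _)
  have hψ2 : ∀ (q : k[X]) (hq : q ≠ 0) (hqd : q.natDegree ≤ d),
      Φ (rsig π (sym 2) q) = lam ⟨psym 2 k q, hmem q hq hqd⟩ := by
    intro q hq hqd
    have h2 := KERB_mk_ne π q hq hqd
    have h3 : rsig π (sym 2) q = sym 2 (Units.mk0 _ h2) := by
      unfold rsig
      rw [dif_neg h2]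
    rw [h3, hΦs]
    have h4 : rep (Units.mk0 _ h2) = q := by
      have h5 : AdjoinRoot.mk π.1 (rep (Units.mk0 _ h2) - q) = 0 := by
        rw [map_sub, hr3, Units.val_mk0, sub_self]
      rw [AdjoinRoot.mk_eq_zero] at h5
      have h6 : (rep (Units.mk0 _ h2) - q).natDegree ≤ d :=
        (Polynomial.natDegree_sub_le _ _).trans (max_le (hr2 _) hqd)
      have h7 := π.2.2.2
      exact sub_eq_zero.1 (Polynomial.eq_zero_of_dvd_of_natDegree_lt h5 (by omega))
    congr 1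
    apply Subtype.ext
    show psym 2 k (rep (Units.mk0 _ h2)) = psym 2 k q
    rw [h4]
  have hΦ : ∀ (b : KM 2 (RatFunc k)) (hb : b ∈
      Algebra.adjoin (ZMod 2) {x | ∃ q : k[X], q ≠ 0 ∧ q.natDegree ≤ d ∧ x = psym 2 k q}),
      Φ (ev b) = lam ⟨b, hb⟩ := by
    intro b hb
    induction hb using Algebra.adjoin_induction with
    | mem x hx =>
      obtain ⟨q, hq, hqd, rfl⟩ := hx
      rw [hev q hq hqd]
      exact hψ2 q hq hqd
    | algebraMap r =>
      rw [AlgHom.commutes, AlgHom.commutes]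
      exact (lam.commutes r).symm
    | add x y hx' hy' hx hy =>
      rw [map_add, map_add, hx, hy, ← map_add]
      rfl
    | mul x y hx' hy' hx hy =>
      rw [map_mul, map_mul, hx, hy, ← map_mul]
      rfl
  have haB := KERB_pow _ n a ha
  have h2 : lam ⟨a, haB⟩ = 0 := by
    rw [← hΦ a haB, h0, map_zero]
  rw [hlam] at h2
  have h3 := KERB_iSup _ _ h2
  apply mem_pow_of_iSup 2 k (VV 2 k d) (VV_le 2 k d) (n + 1) _ h3
  rw [KMn_pow, pow_succ']
  exact Submodule.mul_mem_mul he (pow_le_pow_left' (VV_le 2 k d) n ha)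

end Pool.Agent.KRb
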