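import Pool.Agent.KRb.Defs

/-!
Row RSG: symbols of residues.
-/

set_option autoImplicit false

namespace Pool.Agent.KRb

open Finsupp Pool.Agent.KMil Pool.Agent.KRat Polynomial

universe u

variable {k : Type u} [Field k]

theorem rsg_single {E : Type*} [Field E] (w : KM 2 E) (hw : w ∈ KMn 2 E 1) :
    ∃ a : Eˣ, sym 2 a = w := by
  unfold KMn at hw
  induction hw using Submodule.span_induction with
  | mem x hx =>
    obtain ⟨l, hl, rfl⟩ := hx
    obtain ⟨a, rfl⟩ := List.length_eq_one_iff.1 hl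
    exact ⟨a, by simp⟩
  | zero => exact ⟨1, sym_one 2⟩
  | add x y _ _ h1 h2 =>
    obtain ⟨a, rfl⟩ := h1
    obtain ⟨b, rfl⟩ := h2
    exact ⟨a * b, sym_mul 2 a b⟩
  | smul c x _ h1 =>
    obtain ⟨a, rfl⟩ := h1
    have hc : c = 0 ∨ c = 1 := by
      revert c
      decide
    rcases hc with rfl | rfl
    · exact ⟨1, by rw [sym_one, zero_smul]⟩
    · exact ⟨a, by rw [one_smul]⟩

theorem rsg_eq {d : ℕ} (π : Pl k d) {M : Type*} [Zero M] (σ : (AdjoinRoot π.1)ˣ → M) (q : k[X])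
    (h : AdjoinRoot.mk π.1 q ≠ 0) : rsig π σ q = σ (Units.mk0 _ h) := by
  unfold rsig
  rw [dif_neg h]

theorem rsig_mem {d : ℕ} (π : Pl k d) (q : k[X]) :
    rsig π (sym 2) q ∈ KMn 2 (AdjoinRoot π.1) 1 := by
  by_cases h : AdjoinRoot.mk π.1 q = 0
  · unfold rsig
    rw [dif_pos h]
    exact Submodule.zero_mem _
  · rw [rsg_eq π _ q h]
    exact sym_mem 2 _

theorem rsig_surj {d : ℕ} (π : Pl k (d + 1)) (w : KM 2 (AdjoinRoot π.1))
    (hw : w ∈ KMn 2 (AdjoinRoot π.1) 1) :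
    ∃ q : k[X], q ≠ 0 ∧ q.natDegree ≤ d ∧ rsig π (sym 2) q = w := by
  obtain ⟨a, rfl⟩ := rsg_single w hw
  obtain ⟨q0, hq0⟩ := AdjoinRoot.mk_surjective (a : AdjoinRoot π.1)
  have hne1 : π.1 ≠ 1 := by
    intro h
    have := π.2.2.2
    rw [h, natDegree_one] at this
    omega
  have h1 : AdjoinRoot.mk π.1 (q0 %ₘ π.1) = (a : AdjoinRoot π.1) := by
    rw [← hq0]
    apply AdjoinRoot.mk_eq_mk.2
    rw [dvd_sub_comm]
    exact ⟨q0 /ₘ π.1, by rw [sub_eq_iff_eq_add, add_comm]; exact (modByMonic_add_div q0 π.1).symm⟩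
  have h2 : AdjoinRoot.mk π.1 (q0 %ₘ π.1) ≠ 0 := by
    rw [h1]
    exact a.ne_zero
  refine ⟨q0 %ₘ π.1, ?_, ?_, ?_⟩
  · intro h
    apply h2
    rw [h, map_zero]
  · have := natDegree_modByMonic_lt q0 π.2.1 hne1
    rw [π.2.2.2] at this
    omega
  · rw [rsg_eq π _ _ h2]
    congr 1
    apply Units.ext
    rw [Units.val_mk0, h1]

theorem rsig_neg_one {d : ℕ} (π : Pl k d) : rsig π (sym 2) (-1) = rm (AdjoinRoot π.1) := by
  have h : AdjoinRoot.mk π.1 (-1) ≠ 0 := by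
    rw [map_neg, map_one]
    exact neg_ne_zero.2 one_ne_zero
  rw [rsg_eq π _ _ h]
  unfold rm
  congr 1
  apply Units.ext
  rw [Units.val_mk0, map_neg, map_one, Units.val_neg, Units.val_one]

end Pool.Agent.KRb
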