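import Pool.Agent.KRb.Res
import Pool.Agent.KRb.Rsg
import Pool.Agent.KRb.Gen
import Pool.Agent.KRb.Ker
import Pool.Agent.KRat.ResDB

/-!
Row RST: the residue data.
-/

set_option autoImplicit false

namespace Pool.Agent.KRb

open Finsupp Pool.Agent.KMil Pool.Agent.KRat Polynomial

universe u

variable {k : Type u} [Field k]

theorem exists_resM (d : ℕ) :
    ∃ R : ResB (VV 2 k d) (VV 2 k (d + 1)) (Pl k (d + 1)) (fun π => KM 2 (AdjoinRoot π.1))
      (fun π => KMn 2 (AdjoinRoot π.1) 1),
      ∀ π, R.ev π (psym 2 k (-1)) = rm (AdjoinRoot π.1) := by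
  choose ev del hev hdel1 hdel2 hdel3 using
    fun π : Pl k (d + 1) => exists_ev_delM π
  have hdm : ∀ π, ∀ v ∈ VV 2 k d, ∀ a, del π (v * a) = ev π v * del π a := by
    intro π v hv a
    unfold VV at hv
    induction hv using Submodule.span_induction with
    | mem x hx =>
      obtain ⟨q, hq, hqd, rfl⟩ := hx
      exact hdel2 π q (ResDB_not_dvd π hq hqd) a
    | zero => simp
    | add x y _ _ hx hy =>
      rw [add_mul, map_add, map_add, hx, hy, add_mul]
    | smul c x _ hx =>
      rw [smul_mul_assoc, map_smul, map_smul, hx, smul_mul_assoc]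
  have hdz : ∀ π, ∀ n, ∀ a ∈ VV 2 k d ^ n, del π a = 0 := by
    intro π n
    induction n with
    | zero =>
      intro a ha
      rw [pow_zero, Submodule.mem_one] at ha
      obtain ⟨c, rfl⟩ := ha
      rw [Algebra.algebraMap_eq_smul_one, map_smul, hdel1, smul_zero]
    | succ n ih =>
      intro a ha
      rw [pow_succ'] at ha
      induction ha using Submodule.mul_induction_on' with
      | mem_mul_mem v hv b hb => rw [hdm π v hv, ih b hb, mul_zero]
      | add x _ y _ hx hy => rw [map_add, hx, hy, add_zero]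
  refine ⟨{
    ev := ev
    del := del
    e := fun π => psym 2 k π.1
    le := VV_mono 2 k (Nat.le_succ d)
    e_mem := fun π => psym_pl_mem 2 k d π
    del_mul := hdm
    del_one := hdel1
    del_e := ?_
    del_e_ne := ?_
    ev_mem := ?_
    ev_surj := ?_
    dec := fun n x hx => decM d n x hx
    ker := ?_ }, ?_⟩
  · intro π n a ha
    rw [hdel3 π a, hdz π n a ha, mul_zero, add_zero]
  · intro π ρ hπρ n a ha
    rw [hdel2 ρ π.1 (ResDB_not_dvd_pl π ρ hπρ) a, hdz ρ n a ha, mul_zero]
  · intro π v hv
    unfold VV at hv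
    induction hv using Submodule.span_induction with
    | mem x hx =>
      obtain ⟨q, hq, hqd, rfl⟩ := hx
      rw [hev π q (ResDB_not_dvd π hq hqd)]
      exact rsig_mem π q
    | zero =>
      rw [map_zero]
      exact Submodule.zero_mem _
    | add x y _ _ hx hy =>
      rw [map_add]
      exact Submodule.add_mem _ hx hy
    | smul c x _ hx =>
      rw [map_smul]
      exact Submodule.smul_mem _ c hx
  · intro π w hw
    obtain ⟨q, hq, hqd, rfl⟩ := rsig_surj π w hw
    exact ⟨psym 2 k q, Submodule.subset_span ⟨q, hq, hqd, rfl⟩,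
      hev π q (ResDB_not_dvd π hq hqd)⟩
  · intro π n a ha h0
    exact ker_evM d π (ev π) (fun q hq hqd => hev π q (ResDB_not_dvd π hq hqd)) n a ha h0
  · intro π
    have h1 : ¬ π.1 ∣ (-1 : k[X]) := ResDB_not_dvd π (neg_ne_zero.2 one_ne_zero) (by
      rw [natDegree_neg, natDegree_one]
      exact Nat.zero_le d)
    show ev π (psym 2 k (-1)) = rm (AdjoinRoot π.1)
    rw [hev π (-1) h1, rsig_neg_one]

end Pool.Agent.KRb
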