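import Pool.Agent.KRb.Defs

/-!
Row BASE: the bottom of the induction.
-/

set_option autoImplicit false

namespace Pool.Agent.KRb

open Finsupp Pool.Agent.KMil Pool.Agent.KRat Polynomial

universe u

section

variable {I : Type*} {A : Type*} [Ring A] [Algebra (ZMod 2) A] (v : I → A)

private theorem base_comm (V : Submodule (ZMod 2) A) (hc : ∀ x ∈ V, ∀ y ∈ V, x * y = y * x)
    (n : ℕ) : ∀ a ∈ V ^ n, ∀ x ∈ V, a * x = x * a := by
  induction n with
  | zero =>
    intro a ha x _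
    rw [pow_zero, Submodule.mem_one] at ha
    obtain ⟨c, rfl⟩ := ha
    exact Algebra.commutes c x
  | succ n ih =>
    intro a ha x hx
    rw [pow_succ] at ha
    refine Submodule.mul_induction_on ha (fun m hm y hy => ?_) (fun a b h1 h2 => ?_)
    · rw [mul_assoc, hc y hy x hx, ← mul_assoc, ih m hm x hx, mul_assoc]
    · rw [add_mul, mul_add, h1, h2]

private theorem base_dR (V : Submodule (ZMod 2) A) (hc : ∀ x ∈ V, ∀ y ∈ V, x * y = y * x)
    (hv : ∀ i, v i ∈ V) (n : ℕ) {z : List I →₀ A} (hz : ∀ w, z w ∈ V ^ n) :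
    dR (ZMod 2) v z = dL (ZMod 2) v z := by
  classical
  ext w
  let s : Finset I := z.support.biUnion (fun w' => w'.toFinset)
  have hs : ∀ i, z (i :: w) ≠ 0 → i ∈ s := by
    intro i hi
    exact Finset.mem_biUnion.2 ⟨i :: w, Finsupp.mem_support_iff.2 hi, by simp⟩
  unfold dR dL
  rw [dif_apply _ z w s hs, dif_apply _ z w s hs]
  refine Finset.sum_congr rfl fun i _ => ?_
  show z (i :: w) * v i = v i * z (i :: w)
  exact base_comm V hc n _ (hz _) _ (hv i)

variable {B : Type*} [Ring B] [Algebra (ZMod 2) B]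

private theorem base_dB (ev : A →ₐ[ZMod 2] B) (z : List I →₀ A) :
    dB (fun i => ev (v i)) (mp ev.toLinearMap z) = mp ev.toLinearMap (dL (ZMod 2) v z) := by
  unfold dB dL
  rw [dif_mp, mp_dif]
  congr 2
  funext i
  ext m
  show ev (v i) * ev m = ev (v i * m)
  rw [map_mul]

private theorem base_mapB (WB : Submodule (ZMod 2) B) (ev : A →ₐ[ZMod 2] B)
    (hev : ∀ i, ev (v i) ∈ WB) (hsurj : ∀ w ∈ WB, ∃ x ∈ sp (ZMod 2) v, ev x = w) (n : ℕ) :
    (sp (ZMod 2) v ^ n).map ev.toLinearMap = WB ^ n := by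
  rw [Submodule.map_pow]
  congr 1
  apply le_antisymm
  · rw [Submodule.map_le_iff_le_comap, sp, Submodule.span_le]
    rintro _ ⟨i, rfl⟩
    exact hev i
  · intro w hw
    obtain ⟨x, hx, rfl⟩ := hsurj w hw
    exact ⟨x, hx, rfl⟩

end

theorem baseB {I : Type*} {A : Type*} [Ring A] [Algebra (ZMod 2) A] (v : I → A)
    (hc : ∀ x ∈ sp (ZMod 2) v, ∀ y ∈ sp (ZMod 2) v, x * y = y * x) {B : Type*} [Ring B]
    [Algebra (ZMod 2) B] (WB : Submodule (ZMod 2) B) (ev : A →ₐ[ZMod 2] B)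
    (hev : ∀ i, ev (v i) ∈ WB) (hsurj : ∀ w ∈ WB, ∃ x ∈ sp (ZMod 2) v, ev x = w)
    (hex : ExB v (fun i => ev (v i)) WB)
    (hinj : ∀ n, ∀ a ∈ sp (ZMod 2) v ^ n, ev a = 0 → a = 0) : Kos (ZMod 2) v := by
  intro j z hz hn hd
  have hvm : ∀ i, v i ∈ sp (ZMod 2) v := fun i => Submodule.subset_span ⟨i, rfl⟩
  have hdL : dL (ZMod 2) v z = 0 := by
    rw [← base_dR v _ hc hvm (j + 1) hn]
    exact hd
  have hmem : ∀ w, mp ev.toLinearMap z w ∈ WB ^ (j + 1) := by
    intro w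
    rw [mp_apply, ← base_mapB v WB ev hev hsurj]
    exact Submodule.mem_map_of_mem (hn w)
  obtain ⟨y, hyC, hyn, hyd⟩ := hex j (mp ev.toLinearMap z) (C_mp (pr v) _ hz) hmem
    (by rw [base_dB v ev, hdL, map_zero])
  obtain ⟨τ, hτ1, hτ2⟩ := exists_lin_graded ev.toLinearMap (sp (ZMod 2) v ^ j) (WB ^ j)
    (fun b hb => by
      rw [← base_mapB v WB ev hev hsurj] at hb
      obtain ⟨a, ha, hab⟩ := hb
      exact ⟨a, ha, hab⟩)
  have hy' : ∀ w, mp τ y w ∈ sp (ZMod 2) v ^ j := fun w => by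
    rw [mp_apply]
    exact hτ1 _
  have hback : mp ev.toLinearMap (mp τ y) = y := by
    ext w
    rw [mp_apply, mp_apply]
    exact hτ2 _ (hyn w)
  have hdy : dL (ZMod 2) v (mp τ y) = z := by
    ext w
    have h1 : dL (ZMod 2) v (mp τ y) w - z w ∈ sp (ZMod 2) v ^ (j + 1) :=
      Submodule.sub_mem _ (dL_mem v hvm j hy' w) (hn w)
    have h2 : ev (dL (ZMod 2) v (mp τ y) w - z w) = 0 := by
      have h3 : mp ev.toLinearMap (dL (ZMod 2) v (mp τ y)) = mp ev.toLinearMap z := by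
        rw [← base_dB v ev, hback, hyd]
      have h4 := congrArg (fun t => t w) h3
      simp only [mp_apply] at h4
      rw [map_sub, sub_eq_zero]
      exact h4
    exact sub_eq_zero.1 (hinj _ _ h1 h2)
  refine ⟨mp τ y, C_mp (pr v) τ hyC, fun w => hy' w, ?_⟩
  rw [base_dR v _ hc hvm j hy', hdy]

end Pool.Agent.KRb
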