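import Pool.Agent.KRat.KerA
import Pool.Agent.KRat.QuadB
import Pool.Agent.KRat.LinSec
import Pool.Agent.KRat.Sec

/-!
Definitions for the theorem on rational function fields at `p = 2` without a hypothesis on `-1`
(MP_da2a57_al). The field of coefficients is `ZMod 2`.
-/

set_option autoImplicit false

namespace Pool.Agent.KRb

open Finsupp Pool.Agent.KMil Pool.Agent.KRat Polynomial

universe u

section

variable {I : Type*} {M : Type*} [AddCommGroup M] [Module (ZMod 2) M]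

/-- the left letter of the alternating word of length `j` that ends in `x` -/
def alt (x x' : I →₀ ZMod 2) (j : ℕ) : I →₀ ZMod 2 := if j % 2 = 1 then x else x'

/-- insert the alternating word of length `j` in all possible ways -/
noncomputable def ains (x x' : I →₀ ZMod 2) : ℕ → List I → (M →ₗ[ZMod 2] (List I →₀ M))
  | 0, w => Finsupp.lsingle w
  | j + 1, [] => prx (alt x x' (j + 1)) ∘ₗ ains x x' j []
  | j + 1, i :: w => prx (alt x x' (j + 1)) ∘ₗ ains x x' j (i :: w) + pre i ∘ₗ ains x x' (j + 1) w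

/-- insert the alternating word of length `j` in all possible ways -/
noncomputable def ai (x x' : I →₀ ZMod 2) (j : ℕ) : (List I →₀ M) →ₗ[ZMod 2] (List I →₀ M) :=
  Finsupp.lsum (ZMod 2) (ains x x' j)

/-- a section of the contraction against `y` if `x` has value one and `x'` has value one -/
noncomputable def asec (x x' : I →₀ ZMod 2) (y : I → ZMod 2) (N : ℕ) :
    (List I →₀ M) →ₗ[ZMod 2] (List I →₀ M) :=
  ∑ k ∈ Finset.range N, ai x x' (k + 1) ∘ₗ (con y) ^ k

end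

section

variable {I : Type*} {A : Type*} [Ring A] [Algebra (ZMod 2) A]

/-- the linear combination of letters -/
noncomputable def lc (v : I → A) (x : I →₀ ZMod 2) : A := x.sum fun i c => c • v i

/-- the differential with coefficients in an algebra in which the letters have the values `s` -/
noncomputable def dB (s : I → A) : (List I →₀ A) →ₗ[ZMod 2] (List I →₀ A) :=
  dif (fun i => LinearMap.mulLeft (ZMod 2) (s i))

end

/-- the coefficient algebras: generated by a space `WB` of commuting elements with `x * x = r * x`,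
with twisted derivations -/
structure Good {B : Type*} [Ring B] [Algebra (ZMod 2) B] (WB : Submodule (ZMod 2) B) (r : B) :
    Prop where
  mem : r ∈ WB
  comm : ∀ x ∈ WB, ∀ y ∈ WB, x * y = y * x
  sq : ∀ x ∈ WB, x * x = r * x
  der : ∀ Z : B →ₗ[ZMod 2] ZMod 2, Z r = 0 → ∃ ι : B →ₗ[ZMod 2] B, ι 1 = 0 ∧
    ∀ w ∈ WB, ∀ m, ι (w * m) = Z w • m + w * ι m + Z w • (r * ι m)

/-- the powers of `r` detect degree one -/
def Det {B : Type*} [Ring B] [Algebra (ZMod 2) B] (WB : Submodule (ZMod 2) B) (r : B) : Prop :=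
  ∀ χ : B →ₗ[ZMod 2] ZMod 2, χ r = 1 → ∀ n : ℕ, ∃ ψ : B →ₗ[ZMod 2] ZMod 2,
    ∀ w ∈ WB, ψ (w * r ^ (n + 1)) = χ w

/-- exactness of the Koszul complex with coefficients in `B` -/
def ExB {I : Type*} {A : Type*} [Ring A] [Algebra (ZMod 2) A] {B : Type*} [Ring B]
    [Algebra (ZMod 2) B] (v : I → A) (s : I → B) (WB : Submodule (ZMod 2) B) : Prop :=
  ∀ (n : ℕ), ∀ z ∈ C (ZMod 2) (pr v) B, (∀ w, z w ∈ WB ^ (n + 1)) → dB s z = 0 →
    ∃ y ∈ C (ZMod 2) (pr v) B, (∀ w, y w ∈ WB ^ n) ∧ dB s y = z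

/-- residue data with coefficient algebras `B π` -/
structure ResB {A : Type u} [Ring A] [Algebra (ZMod 2) A] (V V' : Submodule (ZMod 2) A)
    (J : Type u) (B : J → Type u) [∀ π, Ring (B π)] [∀ π, Algebra (ZMod 2) (B π)]
    (WB : ∀ π, Submodule (ZMod 2) (B π)) where
  ev : ∀ π, A →ₐ[ZMod 2] B π
  del : ∀ π, A →ₗ[ZMod 2] B π
  e : J → A
  le : V ≤ V'
  e_mem : ∀ π, e π ∈ V'
  del_mul : ∀ π, ∀ v ∈ V, ∀ a, del π (v * a) = ev π v * del π a
  del_one : ∀ π, del π 1 = 0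
  del_e : ∀ π, ∀ n, ∀ a ∈ V ^ n, del π (e π * a) = ev π a
  del_e_ne : ∀ π ρ, π ≠ ρ → ∀ n, ∀ a ∈ V ^ n, del ρ (e π * a) = 0
  ev_mem : ∀ π, ∀ v ∈ V, ev π v ∈ WB π
  ev_surj : ∀ π, ∀ w ∈ WB π, ∃ v ∈ V, ev π v = w
  dec : ∀ n, ∀ x ∈ V' ^ (n + 1), ∃ x0 ∈ V ^ (n + 1), ∃ c : J →₀ A, (∀ π, c π ∈ V ^ n) ∧
    x = x0 + c.sum (fun π a => e π * a)
  ker : ∀ π, ∀ n, ∀ a ∈ V ^ n, ev π a = 0 → e π * a ∈ V ^ (n + 1)

section field

variable {k : Type u} [Field k]

open Classical in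
/-- the value of an additive map `σ` on the residue of a polynomial (zero if the residue is zero) -/
noncomputable def rsig {d : ℕ} (π : Pl k d) {M : Type*} [Zero M] (σ : (AdjoinRoot π.1)ˣ → M)
    (q : k[X]) : M :=
  if h : AdjoinRoot.mk π.1 q = 0 then 0 else σ (Units.mk0 _ h)

/-- the symbol `{-1}` -/
noncomputable def rm (E : Type*) [Field E] : KM 2 E := sym 2 (-1)

/-- the hypothesis on the finite extension `E` of `k` -/
def H2 (k : Type*) [Field k] (E : Type*) [Field E] : Prop :=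
  ∀ a : E, a ≠ 0 → a ≠ 1 → (∃ c : E, a = c ^ 2) ∨ (∃ c : E, 1 - a = c ^ 2) ∨
    (∃ c : E, -(a * (1 - a)) = c ^ 2) ∨
    ((∃ s t : k, s ^ 2 + t ^ 2 = -1) ∧ (∃ c : E, -a = c ^ 2) ∧ ∃ c : E, a - 1 = c ^ 2)

end field

end Pool.Agent.KRb
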