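import Pool.Agent.KRb.Ins

/-!
Row ENDA: cycles with values in the powers of `r`, if the powers of `r` detect degree one.
-/

set_option autoImplicit false

namespace Pool.Agent.KRb

open Finsupp Pool.Agent.KMil Pool.Agent.KRat Polynomial

universe u

section ends

variable {I : Type*} {A : Type*} [Ring A] [Algebra (ZMod 2) A] {B : Type*} [Ring B]
  [Algebra (ZMod 2) B]

/-- two functionals `χ` with `χ r = 1` are enough to separate points -/
private theorem enda_sep {r e : B} (hr : r ≠ 0)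
    (h : ∀ χ : B →ₗ[ZMod 2] ZMod 2, χ r = 1 → χ e = 0) : e = 0 := by
  have hex : ∃ χ : B →ₗ[ZMod 2] ZMod 2, χ r = 1 := by
    by_contra hcon
    push Not at hcon
    apply hr
    rw [← Module.forall_dual_apply_eq_zero_iff (ZMod 2)]
    intro φ
    have h1 := hcon φ
    have h2 : ∀ a : ZMod 2, a ≠ 1 → a = 0 := by decide
    exact h2 _ h1
  obtain ⟨χ, hχ⟩ := hex
  rw [← Module.forall_dual_apply_eq_zero_iff (ZMod 2)]
  intro φ
  have h2 : ∀ a : ZMod 2, a ≠ 1 → a = 0 := by decide
  by_cases h1 : φ r = 1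
  · exact h φ h1
  · have h3 : φ r = 0 := h2 _ h1
    have h4 := h (χ + φ) (by rw [LinearMap.add_apply, hχ, h3, add_zero])
    rw [LinearMap.add_apply, h χ hχ, zero_add] at h4
    exact h4

private theorem enda_span (r : B) (n : ℕ) {a : B}
    (ha : a ∈ (Submodule.span (ZMod 2) {r}) ^ n) : ∃ c : ZMod 2, a = c • r ^ n := by
  rw [Submodule.span_pow, Set.singleton_pow, Submodule.mem_span_singleton] at ha
  obtain ⟨c, hc⟩ := ha
  exact ⟨c, hc.symm⟩

theorem endA (v : I → A) (hc : ∀ i j, v i * v j = v j * v i) (ev : A →ₐ[ZMod 2] B)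
    (WB : Submodule (ZMod 2) B) (r : B) (hr : r ∈ WB) (hdet : Det WB r)
    (hev : ∀ i, ev (v i) ∈ WB) (ρ : I →₀ ZMod 2) (hρ : lc (fun i => ev (v i)) ρ = r)
    (n : ℕ) (z : List I →₀ B) (hz : z ∈ C (ZMod 2) (pr v) B)
    (hn : ∀ w, z w ∈ (Submodule.span (ZMod 2) {r}) ^ (n + 1))
    (hd : dB (fun i => ev (v i)) z = 0) :
    ∃ y ∈ C (ZMod 2) (pr v) B, (∀ w, y w ∈ WB ^ n) ∧ dB (fun i => ev (v i)) y = z := by
  by_cases h0 : r ^ (n + 1) = 0
  · have hz0 : z = 0 := by
      ext w
      obtain ⟨c, hc'⟩ := enda_span r (n + 1) (hn w)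
      rw [hc', h0, smul_zero, Finsupp.zero_apply]
    refine ⟨0, Submodule.zero_mem _, fun w => ?_, ?_⟩
    · rw [Finsupp.zero_apply]
      exact Submodule.zero_mem _
    · rw [map_zero, hz0]
  have hr0 : r ≠ 0 := by
    intro h
    apply h0
    rw [h, zero_pow (Nat.succ_ne_zero n)]
  -- a functional with value one at the power
  obtain ⟨lam, hlam⟩ : ∃ lam : B →ₗ[ZMod 2] ZMod 2, lam (r ^ (n + 1)) = 1 := by
    by_contra hcon
    push Not at hcon
    apply h0
    rw [← Module.forall_dual_apply_eq_zero_iff (ZMod 2)]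
    intro φ
    have h2 : ∀ a : ZMod 2, a ≠ 1 → a = 0 := by decide
    exact h2 _ (hcon φ)
  set c : List I →₀ ZMod 2 := mp lam z with hcdef
  have hcC : c ∈ C (ZMod 2) (pr v) (ZMod 2) := C_mp (pr v) lam hz
  have hzc : z = mp (LinearMap.toSpanSingleton (ZMod 2) B (r ^ (n + 1))) c := by
    ext w
    obtain ⟨a, ha⟩ := enda_span r (n + 1) (hn w)
    rw [mp_apply, hcdef, mp_apply, LinearMap.toSpanSingleton_apply, ha, map_smul, hlam,
      smul_eq_mul, mul_one]
  -- the differential of `c`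
  set e : List I →₀ B := dif (fun i => LinearMap.toSpanSingleton (ZMod 2) B (ev (v i))) c
    with hedef
  have hmul : ∀ m : ℕ, dB (fun i => ev (v i))
      (mp (LinearMap.toSpanSingleton (ZMod 2) B (r ^ m)) c) =
      mp (LinearMap.mulRight (ZMod 2) (r ^ m)) e := by
    intro m
    rw [hedef, mp_dif]
    unfold dB
    rw [dif_mp]
    congr 2
    funext i
    ext
    simp
  have he : e = 0 := by
    ext w
    rw [Finsupp.zero_apply]
    apply enda_sep hr0
    intro χ hχ
    obtain ⟨ψ, hψ⟩ := hdet χ hχ n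
    have hmem : e w ∈ WB := by
      classical
      let s : Finset I := c.support.biUnion (fun w' => w'.toFinset)
      have hs : ∀ i, c (i :: w) ≠ 0 → i ∈ s := by
        intro i hi
        exact Finset.mem_biUnion.2 ⟨i :: w, Finsupp.mem_support_iff.2 hi, by simp⟩
      rw [hedef, dif_apply _ c w s hs]
      refine Submodule.sum_mem _ fun i _ => ?_
      rw [LinearMap.toSpanSingleton_apply]
      exact Submodule.smul_mem _ _ (hev i)
    rw [← hψ _ hmem]
    have h1 := hmul (n + 1)
    rw [← hzc, hd] at h1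
    have h2 := DFunLike.congr_fun h1 w
    rw [mp_apply, Finsupp.zero_apply, LinearMap.mulRight_apply] at h2
    rw [← h2, map_zero]
  refine ⟨mp (LinearMap.toSpanSingleton (ZMod 2) B (r ^ n)) (ai ρ 0 1 c), ?_, ?_, ?_⟩
  · apply C_mp
    apply ai_C v hc ρ 0 _ 1 hcC
    unfold lc
    rw [Finsupp.sum_zero_index, mul_zero]
  · intro w
    rw [mp_apply, LinearMap.toSpanSingleton_apply]
    exact Submodule.smul_mem _ _ (Submodule.pow_mem_pow _ hr n)
  · unfold dB
    rw [dif_mp, dif_ai, ai_zero]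
    have h1 : (alt ρ (0 : I →₀ ZMod 2) (0 + 1)) = ρ := by
      unfold alt
      simp
    have h2 : (ρ.sum fun i c => c • (LinearMap.mulLeft (ZMod 2) (ev (v i)) ∘ₗ
        LinearMap.toSpanSingleton (ZMod 2) B (r ^ n))) =
        LinearMap.toSpanSingleton (ZMod 2) B (r ^ (n + 1)) := by
      ext
      have h3 : r ^ (n + 1) = (ρ.sum fun i c => c • ev (v i)) * r ^ n := by
        rw [pow_succ']
        congr 1
        exact hρ.symm
      simp only [Finsupp.sum, LinearMap.sum_apply, LinearMap.smul_apply, LinearMap.comp_apply,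
        LinearMap.toSpanSingleton_apply, LinearMap.mulLeft_apply, one_smul] at h3 ⊢
      rw [h3, Finset.sum_mul]
      refine Finset.sum_congr rfl fun i _ => ?_
      rw [smul_mul_assoc]
    have h3 : dif (fun i => LinearMap.mulLeft (ZMod 2) (ev (v i)) ∘ₗ
        LinearMap.toSpanSingleton (ZMod 2) B (r ^ n)) c = 0 := by
      have h4 := hmul n
      rw [he, map_zero] at h4
      unfold dB at h4
      rw [dif_mp] at h4
      exact h4
    rw [h1, h2, h3, map_zero, add_zero, ← hzc]

end ends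

end Pool.Agent.KRb
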