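import Pool.Agent.KRb.Ins

/-!
Row SEC: the section `asec` of the contraction.
-/

set_option autoImplicit false

namespace Pool.Agent.KRb

open Finsupp Pool.Agent.KMil Pool.Agent.KRat Polynomial

universe u

section sec

variable {I : Type*} {M N : Type*} [AddCommGroup M] [Module (ZMod 2) M] [AddCommGroup N]
  [Module (ZMod 2) N] {A : Type*} [Ring A] [Algebra (ZMod 2) A]

theorem asec_apply (x x' : I →₀ ZMod 2) (y : I → ZMod 2) (N : ℕ) (z : List I →₀ M) :
    asec x x' y N z = ∑ k ∈ Finset.range N, ai x x' (k + 1) ((con y ^ k) z) := by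
  unfold asec
  rw [LinearMap.sum_apply]
  rfl

theorem asec_mp (x x' : I →₀ ZMod 2) (y : I → ZMod 2) (n : ℕ) (φ : M →ₗ[ZMod 2] N)
    (z : List I →₀ M) : asec x x' y n (mp φ z) = mp φ (asec x x' y n z) := by
  rw [asec_apply, asec_apply, map_sum]
  refine Finset.sum_congr rfl fun k _ => ?_
  rw [con_pow_mp, ai_mp]

theorem asec_C (v : I → A) (hc : ∀ i j, v i * v j = v j * v i) (x x' : I →₀ ZMod 2)
    (h : lc v x * lc v x' = 0) (y : I → ZMod 2) (N : ℕ) {z : List I →₀ M}
    (hz : z ∈ C (ZMod 2) (pr v) M) : asec x x' y N z ∈ C (ZMod 2) (pr v) M := by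
  rw [asec_apply]
  exact Submodule.sum_mem _ fun k _ => ai_C v hc x x' h (k + 1) (con_pow_C (pr v) y k hz)

theorem asum (x x' : I →₀ ZMod 2) (y : I → ZMod 2) (N : ℕ) {z : List I →₀ M} (hz : Short N z) :
    ∑ k ∈ Finset.range N, ai x x' k ((con y ^ k) z) = z + asec x x' y N (con y z) := by
  have h1 := Finset.sum_range_succ (fun k => ai x x' k ((con y ^ k) z)) N
  have h2 := Finset.sum_range_succ' (fun k => ai x x' k ((con y ^ k) z)) N
  rw [con_pow_short y N hz, map_zero, add_zero] at h1
  rw [← h1, h2, asec_apply]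
  have h3 : ∀ k, ai x x' (k + 1) ((con y ^ (k + 1)) z) =
      ai x x' (k + 1) ((con y ^ k) (con y z)) := by
    intro k
    rw [pow_succ]
    rfl
  have h4 : ai x x' 0 ((con y ^ 0) z) = z := by
    rw [pow_zero, ai_zero]
    rfl
  rw [Finset.sum_congr rfl fun k _ => h3 k, h4, add_comm]

private theorem sec_two (z : List I →₀ M) : z + z = 0 := by
  have h : ((1 : ZMod 2) + 1) • z = 0 := by
    have h2 : (1 : ZMod 2) + 1 = 0 := by decide
    rw [h2, zero_smul]
  rwa [add_smul, one_smul] at h

private theorem sec_val (x : I →₀ ZMod 2) (y : I → ZMod 2)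
    (hx : (x.sum fun i c => c * y i) = 1) :
    (x.sum fun i c => c • (y i • (LinearMap.id : M →ₗ[ZMod 2] M))) = LinearMap.id := by
  have h : (x.sum fun i c => c • (y i • (LinearMap.id : M →ₗ[ZMod 2] M))) =
      (x.sum fun i c => c * y i) • (LinearMap.id : M →ₗ[ZMod 2] M) := by
    rw [Finsupp.sum, Finsupp.sum, Finset.sum_smul]
    exact Finset.sum_congr rfl fun i _ => smul_smul _ _ _
  rw [h, hx, one_smul]

private theorem sec_mp_id (z : List I →₀ M) : mp (LinearMap.id : M →ₗ[ZMod 2] M) z = z := by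
  ext w
  rw [mp_apply, LinearMap.id_apply]

/-- `asec` is a section of the contraction -/
theorem con_asec (x x' : I →₀ ZMod 2) (y : I → ZMod 2) (hx : (x.sum fun i c => c * y i) = 1)
    (hx' : (x'.sum fun i c => c * y i) = 1) (N : ℕ) {z : List I →₀ M} (hz : Short N z) :
    con y (asec x x' y N z) = z := by
  have h1 : ∀ k (u : List I →₀ M), con y (ai x x' (k + 1) u) =
      ai x x' k u + ai x x' (k + 1) (con y u) := by
    intro k u
    have h2 := dif_ai (fun i => y i • (LinearMap.id : M →ₗ[ZMod 2] M)) x x' k u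
    have h3 : ((alt x x' (k + 1)).sum fun i c => c • (y i • (LinearMap.id : M →ₗ[ZMod 2] M))) =
        LinearMap.id := by
      unfold alt
      split_ifs
      · exact sec_val x y hx
      · exact sec_val x' y hx'
    rw [h3, sec_mp_id] at h2
    exact h2
  have h4 : ∀ n, (∑ k ∈ Finset.range n, (ai x x' k ((con y ^ k) z) +
      ai x x' (k + 1) ((con y ^ (k + 1)) z))) = z + ai x x' n ((con y ^ n) z) := by
    intro n
    induction n with
    | zero =>
      rw [Finset.sum_range_zero, pow_zero, ai_zero]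
      exact (sec_two z).symm
    | succ n ih =>
      rw [Finset.sum_range_succ, ih]
      have h5 := sec_two (ai x x' n ((con y ^ n) z))
      calc z + ai x x' n ((con y ^ n) z) +
            (ai x x' n ((con y ^ n) z) + ai x x' (n + 1) ((con y ^ (n + 1)) z))
          = z + (ai x x' n ((con y ^ n) z) + ai x x' n ((con y ^ n) z)) +
            ai x x' (n + 1) ((con y ^ (n + 1)) z) := by abel
        _ = _ := by rw [h5, add_zero]
  rw [asec_apply, map_sum]
  have h6 : ∀ k, con y (ai x x' (k + 1) ((con y ^ k) z)) = ai x x' k ((con y ^ k) z) +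
      ai x x' (k + 1) ((con y ^ (k + 1)) z) := by
    intro k
    rw [h1, pow_succ']
    rfl
  rw [Finset.sum_congr rfl fun k _ => h6 k, h4, con_pow_short y N hz, map_zero, add_zero]

end sec

end Pool.Agent.KRb
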