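import Pool.Agent.KRb.Ins
import Pool.Agent.KRb.Sec
import Pool.Agent.KRat.Quad

/-!
Row ENDB: the end of the induction if `r * r = 0`.
-/

set_option autoImplicit false

namespace Pool.Agent.KRb

open Finsupp Pool.Agent.KMil Pool.Agent.KRat Polynomial

universe u

section ends

variable {I : Type*} {A : Type*} [Ring A] [Algebra (ZMod 2) A] {B : Type*} [Ring B]
  [Algebra (ZMod 2) B]

private theorem endB_con_add {M : Type*} [AddCommGroup M] [Module (ZMod 2) M]
    (y y' : I → ZMod 2) (z : List I →₀ M) :
    con (fun i => y i + y' i) z = con y z + con y' z := by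
  have : (con (fun i => y i + y' i) : (List I →₀ M) →ₗ[ZMod 2] (List I →₀ M))
      = con y + con y' := by
    apply lin_ext
    intro w m
    cases w with
    | nil => rw [LinearMap.add_apply, con_nil, con_nil, con_nil, add_zero]
    | cons i w =>
      rw [LinearMap.add_apply, con_cons, con_cons, con_cons, add_smul, Finsupp.single_add]
  exact LinearMap.congr_fun this z

private theorem endB_con_smul {M : Type*} [AddCommGroup M] [Module (ZMod 2) M]
    (a : ZMod 2) (y : I → ZMod 2) (z : List I →₀ M) :
    con (fun i => a * y i) z = a • con y z := by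
  have : (con (fun i => a * y i) : (List I →₀ M) →ₗ[ZMod 2] (List I →₀ M))
      = a • con y := by
    apply lin_ext
    intro w m
    cases w with
    | nil => rw [LinearMap.smul_apply, con_nil, con_nil, smul_zero]
    | cons i w =>
      rw [LinearMap.smul_apply, con_cons, con_cons, mul_smul, Finsupp.smul_single]
  exact LinearMap.congr_fun this z

private theorem endB_con_con {M : Type*} [AddCommGroup M] [Module (ZMod 2) M]
    (y y' : I → ZMod 2) (z : List I →₀ M) :
    con y' (con y z) = quad (fun i j => (y i * y' j) • (LinearMap.id : M →ₗ[ZMod 2] M)) z := by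
  unfold con
  rw [dif_dif]
  congr 2
  funext i j
  ext m
  simp [mul_smul, smul_comm (y i) (y' j) m]

private theorem endB_alt (x : I →₀ ZMod 2) (j : ℕ) : alt x x j = x := by
  unfold alt
  split_ifs <;> rfl

/-- the value of a functional on a linear combination of letters -/
private theorem endB_lc (s : I → B) (L : B →ₗ[ZMod 2] ZMod 2) (x : I →₀ ZMod 2) :
    (x.sum fun i c => c * L (s i)) = L (lc s x) := by
  unfold lc Finsupp.sum
  rw [map_sum]
  refine Finset.sum_congr rfl fun i _ => ?_
  rw [map_smul, smul_eq_mul]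

theorem endB (v : I → A) (hc : ∀ i j, v i * v j = v j * v i) (ev : A →ₐ[ZMod 2] B)
    (WB : Submodule (ZMod 2) B) (r : B) (G : Good WB r) (hrr : r * r = 0)
    (hev : ∀ i, ev (v i) ∈ WB) (ρ : I →₀ ZMod 2) (hρ : lc (fun i => ev (v i)) ρ = r)
    (hρρ : lc v ρ * lc v ρ = 0) (n : ℕ) (z : List I →₀ B) (hz : z ∈ C (ZMod 2) (pr v) B)
    (hn : ∀ w, z w ∈ (Submodule.span (ZMod 2) {r}) ^ (n + 1))
    (hd : dB (fun i => ev (v i)) z = 0) :
    ∃ y ∈ C (ZMod 2) (pr v) B, (∀ w, y w ∈ WB ^ n) ∧ dB (fun i => ev (v i)) y = z := by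
  have hn' : ∀ w, z w ∈ Submodule.span (ZMod 2) {r ^ (n + 1)} := by
    intro w
    have h := hn w
    rw [Submodule.span_pow, Set.singleton_pow] at h
    exact h
  by_cases h0 : r ^ (n + 1) = 0
  · have hz0 : z = 0 := by
      ext w
      have h := hn' w
      rw [h0, Submodule.span_zero_singleton, Submodule.mem_bot] at h
      exact h
    refine ⟨0, Submodule.zero_mem _, fun w => Submodule.zero_mem _, ?_⟩
    rw [map_zero, hz0]
  have hn0 : n = 0 := by
    by_contra hne
    obtain ⟨m, rfl⟩ := Nat.exists_eq_succ_of_ne_zero hne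
    apply h0
    have : r ^ (m.succ + 1) = r ^ m * (r * r) := by
      rw [pow_succ, pow_succ, mul_assoc]
    rw [this, hrr, mul_zero]
  subst hn0
  rw [zero_add, pow_one] at h0
  simp only [zero_add, pow_one] at hn'
  -- a functional with value one at r
  obtain ⟨χ, hχ⟩ : ∃ χ : B →ₗ[ZMod 2] ZMod 2, χ r = 1 := by
    by_contra hcon
    push Not at hcon
    apply h0
    rw [← Module.forall_dual_apply_eq_zero_iff (ZMod 2) r]
    intro φ
    have h1 := hcon φ
    have h2 : ∀ a : ZMod 2, a ≠ 1 → a = 0 := by decide
    exact h2 _ h1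
  set s : I → B := fun i => ev (v i) with hs
  set c : List I →₀ ZMod 2 := mp χ z with hcdef
  have hcC : c ∈ C (ZMod 2) (pr v) (ZMod 2) := C_mp _ _ hz
  have hzc : ∀ w, z w = c w • r := by
    intro w
    obtain ⟨a, ha⟩ := Submodule.mem_span_singleton.1 (hn' w)
    rw [hcdef, mp_apply, ← ha, map_smul, hχ, smul_eq_mul, mul_one]
  obtain ⟨N, hN⟩ := exists_short c
  set e := asec ρ ρ (fun i => χ (s i)) N c with hedef
  have heC : e ∈ C (ZMod 2) (pr v) (ZMod 2) := asec_C v hc ρ ρ hρρ _ N hcC
  -- the contraction with chi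
  have hsumχ : (ρ.sum fun i c => c * χ (s i)) = 1 := by
    rw [endB_lc, hρ, hχ]
  have hconχ : con (fun i => χ (s i)) e = c := con_asec ρ ρ _ hsumχ hsumχ N hN
  -- the contractions with the functionals which vanish at r
  have hconZ : ∀ Z : B →ₗ[ZMod 2] ZMod 2, Z r = 0 → con (fun i => Z (s i)) e = 0 := by
    intro Z hZ
    obtain ⟨ι, hι1, hι⟩ := G.der Z hZ
    have hιr : ι r = 0 := by
      have h1 := hι r G.mem 1
      rw [mul_one, hZ, hι1, zero_smul, zero_smul, mul_zero, add_zero, add_zero] at h1
      exact h1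
    have hιs : ∀ i, ι (s i * r) = Z (s i) • r := by
      intro i
      rw [hι _ (hev i), hιr, mul_zero, mul_zero, smul_zero, add_zero, add_zero]
    have hιs1 : ∀ i, ι (s i) = Z (s i) • (1 : B) := by
      intro i
      have h1 := hι _ (hev i) 1
      rw [mul_one, hι1, mul_zero, mul_zero, smul_zero, add_zero, add_zero] at h1
      exact h1
    -- con_Z c = 0
    have hZc : con (fun i => Z (s i)) c = 0 := by
      have h1 : z = mp (LinearMap.toSpanSingleton (ZMod 2) B r) c := by
        ext w
        rw [mp_apply, LinearMap.toSpanSingleton_apply, hzc w]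
      have h2 : mp ι (dB s z) = mp (LinearMap.toSpanSingleton (ZMod 2) B r)
          (con (fun i => Z (s i)) c) := by
        conv_lhs => rw [h1]
        unfold dB con
        rw [dif_mp, mp_dif, mp_dif]
        congr 2
        funext i
        ext
        simp only [LinearMap.comp_apply, LinearMap.mulLeft_apply,
          LinearMap.toSpanSingleton_apply, one_smul, LinearMap.smul_apply, LinearMap.id_apply,
          smul_eq_mul, mul_one]
        exact hιs i
      rw [hd, map_zero] at h2
      ext w
      have h3 := DFunLike.congr_fun h2 w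
      rw [mp_apply, LinearMap.toSpanSingleton_apply, Finsupp.zero_apply] at h3
      have h4 := congrArg χ h3
      rw [map_zero, map_smul, hχ, smul_eq_mul, mul_one] at h4
      rw [Finsupp.zero_apply]
      exact h4.symm
    -- the quadratic relation
    have hrel : ∀ u ∈ C (ZMod 2) (pr v) (ZMod 2),
        con (fun i => Z (s i)) (con (fun i => χ (s i)) u)
          = con (fun i => χ (s i)) (con (fun i => Z (s i)) u)
            + con (fun i => Z (s i)) (con (fun i => Z (s i)) u) := by
      intro u hu
      have h1 := (mem_C (pr v)).1 hu (χ ∘ₗ ι ∘ₗ ev.toLinearMap) []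
      have h2 : ∀ i j, (χ ∘ₗ ι ∘ₗ ev.toLinearMap) (pr v i j)
          = χ (s i) * Z (s j) + (Z (s i) * χ (s j) + Z (s i) * Z (s j)) := by
        intro i j
        have h3 : ev (pr v i j) = s i * s j := map_mul ev _ _
        change χ (ι (ev (pr v i j))) = _
        rw [h3, hι _ (hev i), hιs1 j, mul_smul_comm, mul_smul_comm, mul_one, mul_one, map_add,
          map_add, map_smul, map_smul, map_smul, map_smul, hχ, smul_eq_mul, smul_eq_mul,
          smul_eq_mul, smul_eq_mul, mul_one]
        ring
      have h4 : quad (fun i j => (χ (s i) * Z (s j)) • (LinearMap.id : ZMod 2 →ₗ[ZMod 2] ZMod 2)) u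
          + (quad (fun i j => (Z (s i) * χ (s j)) • (LinearMap.id : ZMod 2 →ₗ[ZMod 2] ZMod 2)) u
          + quad (fun i j => (Z (s i) * Z (s j)) • (LinearMap.id : ZMod 2 →ₗ[ZMod 2] ZMod 2)) u)
          = 0 := by
        have h5 : (quad (fun i j => ((χ ∘ₗ ι ∘ₗ ev.toLinearMap) (pr v i j))
            • (LinearMap.id : ZMod 2 →ₗ[ZMod 2] ZMod 2)) :
            (List I →₀ ZMod 2) →ₗ[ZMod 2] (List I →₀ ZMod 2))
            = quad (fun i j => (χ (s i) * Z (s j)) • (LinearMap.id : ZMod 2 →ₗ[ZMod 2] ZMod 2))
            + (quad (fun i j => (Z (s i) * χ (s j)) • (LinearMap.id : ZMod 2 →ₗ[ZMod 2] ZMod 2))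
            + quad (fun i j => (Z (s i) * Z (s j))
              • (LinearMap.id : ZMod 2 →ₗ[ZMod 2] ZMod 2))) := by
          apply lin_ext
          intro w m
          rcases w with _ | ⟨i, _ | ⟨j, w⟩⟩
          · simp only [LinearMap.add_apply, quad_nil, add_zero]
          · simp only [LinearMap.add_apply, quad_one, add_zero]
          · rw [LinearMap.add_apply, LinearMap.add_apply, quad_cons, quad_cons, quad_cons,
              quad_cons, ← Finsupp.single_add, ← Finsupp.single_add, h2 i j, add_smul, add_smul]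
            rfl
        have h6 := LinearMap.congr_fun h5 u
        rw [LinearMap.add_apply, LinearMap.add_apply] at h6
        rw [← h6]
        exact h1
      rw [endB_con_con, endB_con_con, endB_con_con]
      have h7 : ∀ a b : List I →₀ ZMod 2, a + b = 0 → a = b := by
        intro a b hab
        ext w
        have h8 := DFunLike.congr_fun hab w
        rw [Finsupp.add_apply, Finsupp.zero_apply] at h8
        have h9 : ∀ x y : ZMod 2, x + y = 0 → x = y := by decide
        exact h9 _ _ h8
      exact h7 _ _ h4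
    have hpow : ∀ k : ℕ, con (fun i => Z (s i)) ((con (fun i => χ (s i)) ^ k) c) = 0 := by
      intro k
      induction k with
      | zero => exact hZc
      | succ k ih =>
        rw [pow_succ']
        change con _ (con _ ((con (fun i => χ (s i)) ^ k) c)) = 0
        rw [hrel _ (con_pow_C _ _ k hcC), ih, map_zero, map_zero, add_zero]
    have hai : ∀ (k : ℕ) (u : List I →₀ ZMod 2),
        con (fun i => Z (s i)) (ai ρ ρ (k + 1) u)
          = ai ρ ρ (k + 1) (con (fun i => Z (s i)) u) := by
      intro k u
      unfold con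
      rw [dif_ai, endB_alt]
      have h1 : (ρ.sum fun i c => c • (Z (s i) • (LinearMap.id : ZMod 2 →ₗ[ZMod 2] ZMod 2)))
          = 0 := by
        have h2 : (ρ.sum fun i c => c • (Z (s i) • (LinearMap.id : ZMod 2 →ₗ[ZMod 2] ZMod 2)))
            = (ρ.sum fun i c => c * Z (s i)) • LinearMap.id := by
          unfold Finsupp.sum
          rw [Finset.sum_smul]
          exact Finset.sum_congr rfl fun i _ => (mul_smul _ _ _).symm
        rw [h2, endB_lc, hρ, hZ, zero_smul]
      rw [h1]
      have h3 : mp (0 : ZMod 2 →ₗ[ZMod 2] ZMod 2) u = 0 := by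
        ext w
        rw [mp_apply]
        rfl
      rw [h3, map_zero, zero_add]
    rw [hedef, asec_apply, map_sum]
    refine Finset.sum_eq_zero fun k _ => ?_
    rw [hai, hpow, map_zero]
  -- all functionals
  have hall : ∀ L : B →ₗ[ZMod 2] ZMod 2, con (fun i => L (s i)) e = L r • c := by
    intro L
    have h1 : (fun i => L (s i)) = fun i => L r * χ (s i) + (L - L r • χ) (s i) := by
      funext i
      rw [LinearMap.sub_apply, LinearMap.smul_apply, smul_eq_mul]
      ring
    rw [h1, endB_con_add, endB_con_smul, hconχ, hconZ _ (by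
      rw [LinearMap.sub_apply, LinearMap.smul_apply, hχ, smul_eq_mul, mul_one, sub_self]),
      add_zero]
  refine ⟨mp (LinearMap.toSpanSingleton (ZMod 2) B 1) e, C_mp _ _ heC, ?_, ?_⟩
  · intro w
    rw [mp_apply, LinearMap.toSpanSingleton_apply, pow_zero]
    exact Submodule.smul_mem _ _ (Submodule.one_le.1 le_rfl)
  · ext w
    rw [← sub_eq_zero, ← Module.forall_dual_apply_eq_zero_iff (ZMod 2)]
    intro L
    have h1 : mp (L : B →ₗ[ZMod 2] ZMod 2) (dB s (mp (LinearMap.toSpanSingleton (ZMod 2) B 1) e))
        = con (fun i => L (s i)) e := by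
      unfold dB con
      rw [dif_mp, mp_dif]
      congr 2
      funext i
      ext
      simp
    have h2 := DFunLike.congr_fun h1 w
    rw [mp_apply, hall L, Finsupp.smul_apply, smul_eq_mul] at h2
    rw [map_sub, hzc w, map_smul, smul_eq_mul, sub_eq_zero, mul_comm]
    exact h2

end ends

end Pool.Agent.KRb
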