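import Pool.Agent.KRb.Ins
import Pool.Agent.KRb.Sec

/-!
Row HOM: the homotopy formula.
-/

set_option autoImplicit false

namespace Pool.Agent.KRb

open Finsupp Pool.Agent.KMil Pool.Agent.KRat Polynomial

universe u

section hom

private theorem hom_add2 {M : Type*} [AddCommGroup M] [Module (ZMod 2) M] (m : M) :
    m + m = 0 := by
  have h : (2 : ZMod 2) = 0 := rfl
  rw [← two_smul (ZMod 2) m, h, zero_smul]

private theorem hom_move {M : Type*} [AddCommGroup M] [Module (ZMod 2) M] {a b c : M}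
    (h : a + b = c) : a = c + b := by
  rw [← h, add_assoc, hom_add2, add_zero]

private theorem hom_lc_add {I : Type*} {B : Type*} [Ring B] [Algebra (ZMod 2) B] (s : I → B)
    (x x' : I →₀ ZMod 2) : lc s (x + x') = lc s x + lc s x' := by
  unfold lc
  exact Finsupp.sum_add_index' (fun i => zero_smul _ _) fun i a b => add_smul _ _ _

private theorem hom_lc_mulLeft {I : Type*} {B : Type*} [Ring B] [Algebra (ZMod 2) B] (s : I → B)
    (x : I →₀ ZMod 2) :
    (x.sum fun i c => c • LinearMap.mulLeft (ZMod 2) (s i)) =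
      LinearMap.mulLeft (ZMod 2) (lc s x) := by
  ext m
  unfold lc
  rw [Finsupp.sum, LinearMap.sum_apply, LinearMap.mulLeft_apply, Finsupp.sum, Finset.sum_mul]
  refine Finset.sum_congr rfl fun i _ => ?_
  rw [LinearMap.smul_apply, LinearMap.mulLeft_apply, smul_mul_assoc]

private theorem hom_Z_lc {I : Type*} {B : Type*} [Ring B] [Algebra (ZMod 2) B] (s : I → B)
    (Z : B →ₗ[ZMod 2] ZMod 2) (x : I →₀ ZMod 2) :
    (x.sum fun i c => c * Z (s i)) = Z (lc s x) := by
  unfold lc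
  rw [Finsupp.sum, Finsupp.sum, map_sum]
  refine Finset.sum_congr rfl fun i _ => ?_
  rw [map_smul, smul_eq_mul]

private theorem hom_lc_mem {I : Type*} {B : Type*} [Ring B] [Algebra (ZMod 2) B] {s : I → B}
    {WB : Submodule (ZMod 2) B} (hs : ∀ i, s i ∈ WB) (x : I →₀ ZMod 2) : lc s x ∈ WB := by
  unfold lc
  exact Submodule.sum_mem _ fun i _ => Submodule.smul_mem _ _ (hs i)

/-- twisted derivation and differential -/
private theorem hom_one {I : Type*} {B : Type*} [Ring B] [Algebra (ZMod 2) B] {s : I → B}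
    {WB : Submodule (ZMod 2) B} (hs : ∀ i, s i ∈ WB) {r : B} (Z : B →ₗ[ZMod 2] ZMod 2)
    (ι : B →ₗ[ZMod 2] B)
    (hι : ∀ w ∈ WB, ∀ m, ι (w * m) = Z w • m + w * ι m + Z w • (r * ι m)) (u : List I →₀ B) :
    mp ι (dB s u) = con (fun i => Z (s i)) u + dB s (mp ι u) +
      con (fun i => Z (s i)) (mp (LinearMap.mulLeft (ZMod 2) r ∘ₗ ι) u) := by
  have h : (mp ι) ∘ₗ (dB s) = con (fun i => Z (s i)) + (dB s) ∘ₗ (mp ι) +
      (con (fun i => Z (s i))) ∘ₗ (mp (LinearMap.mulLeft (ZMod 2) r ∘ₗ ι)) := by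
    apply lin_ext
    intro w m
    rw [LinearMap.add_apply, LinearMap.add_apply, LinearMap.comp_apply, LinearMap.comp_apply,
      LinearMap.comp_apply, mp_single, mp_single]
    unfold dB
    cases w with
    | nil => rw [dif_nil, dif_nil, map_zero, con_nil, con_nil, add_zero, add_zero]
    | cons i w =>
      rw [dif_cons, dif_cons, mp_single, con_cons, con_cons, ← single_add, ← single_add]
      congr 1
      exact hι (s i) (hs i) m
  exact LinearMap.congr_fun h u

/-- contraction and differential -/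
private theorem hom_two {I : Type*} {A : Type*} [Ring A] [Algebra (ZMod 2) A] {B : Type*} [Ring B]
    [Algebra (ZMod 2) B] (v : I → A) (ev : A →ₐ[ZMod 2] B) (WB : Submodule (ZMod 2) B) (r : B)
    (hev : ∀ i, ev (v i) ∈ WB) (Z : B →ₗ[ZMod 2] ZMod 2) (ι : B →ₗ[ZMod 2] B) (hι1 : ι 1 = 0)
    (hι : ∀ w ∈ WB, ∀ m, ι (w * m) = Z w • m + w * ι m + Z w • (r * ι m))
    {u : List I →₀ B} (hu : u ∈ C (ZMod 2) (pr v) B) :
    dB (fun i => ev (v i)) (con (fun i => Z (ev (v i))) u) =
      con (fun i => Z (ev (v i))) (dB (fun i => ev (v i)) u) +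
      mp (LinearMap.mulLeft (ZMod 2) r)
        (con (fun i => Z (ev (v i))) (con (fun i => Z (ev (v i))) u)) := by
  have h0 := quad_eq_zero (N := B) (pr v)
    ((LinearMap.mul (ZMod 2) B) ∘ₗ ι ∘ₗ ev.toLinearMap) hu
  have h1 : (dB (fun i => ev (v i))) ∘ₗ (con (fun i => Z (ev (v i)))) +
      (con (fun i => Z (ev (v i)))) ∘ₗ (dB (fun i => ev (v i))) +
      (mp (LinearMap.mulLeft (ZMod 2) r)) ∘ₗ
        (con (fun i => Z (ev (v i)))) ∘ₗ (con (fun i => Z (ev (v i)))) =
      quad (fun i j => ((LinearMap.mul (ZMod 2) B) ∘ₗ ι ∘ₗ ev.toLinearMap) (pr v i j)) := by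
    apply lin_ext
    intro w m
    rw [LinearMap.add_apply, LinearMap.add_apply, LinearMap.comp_apply, LinearMap.comp_apply,
      LinearMap.comp_apply, LinearMap.comp_apply]
    unfold dB
    rcases w with _ | ⟨i, _ | ⟨j, w⟩⟩
    · rw [con_nil, dif_nil, quad_nil, map_zero, map_zero, map_zero, add_zero, add_zero]
    · rw [con_cons, dif_cons, dif_nil, con_nil, con_nil, quad_one, map_zero, add_zero, add_zero]
    · rw [con_cons, dif_cons, dif_cons, con_cons, con_cons, quad_cons, mp_single, ← single_add,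
        ← single_add]
      congr 1
      have e1 : ι (ev (v j)) = Z (ev (v j)) • (1 : B) := by
        have h := hι (ev (v j)) (hev j) 1
        rw [mul_one, hι1, mul_zero, mul_zero, smul_zero, add_zero, add_zero] at h
        exact h
      have e2 : ((LinearMap.mul (ZMod 2) B) ∘ₗ ι ∘ₗ ev.toLinearMap) (pr v i j) m =
          ι (ev (v i) * ev (v j)) * m := by
        show ι (ev (v i * v j)) * m = _
        rw [map_mul]
      rw [e2, hι _ (hev i), e1]
      show ev (v j) * (Z (ev (v i)) • m) + Z (ev (v j)) • (ev (v i) * m) +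
        r * (Z (ev (v j)) • (Z (ev (v i)) • m)) = _
      rw [add_mul, add_mul, smul_mul_assoc, mul_smul_comm, mul_smul_comm, mul_smul_comm,
        mul_smul_comm, mul_one, mul_smul_comm, mul_one, smul_mul_assoc, smul_mul_assoc,
        smul_mul_assoc, smul_comm (Z (ev (v j)))]
  have h2 := LinearMap.congr_fun h1 u
  rw [h0, LinearMap.add_apply, LinearMap.add_apply, LinearMap.comp_apply, LinearMap.comp_apply,
    LinearMap.comp_apply, LinearMap.comp_apply, add_assoc] at h2
  have h3 := hom_move h2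
  rw [zero_add] at h3
  exact h3

/-- an alternating sum -/
private theorem hom_alt {M : Type*} [AddCommGroup M] [Module (ZMod 2) M] (f : ℕ → M) (N : ℕ) :
    ∑ k ∈ Finset.range N, (if k % 2 = 1 then f k + f (k + 1) else 0) =
      ∑ k ∈ Finset.range N, f (k + 1) + (if N % 2 = 1 then f N else 0) := by
  induction N with
  | zero => simp
  | succ N ih =>
    rw [Finset.sum_range_succ, Finset.sum_range_succ, ih]
    rcases Nat.mod_two_eq_zero_or_one N with h | h
    · have h' : (N + 1) % 2 = 1 := by omega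
      rw [if_neg (by omega), if_neg (by omega), if_pos h', add_zero, add_zero, add_assoc,
        hom_add2, add_zero]
    · have h' : (N + 1) % 2 = 0 := by omega
      rw [if_pos h, if_pos h, if_neg (by omega), add_zero]
      calc ∑ k ∈ Finset.range N, f (k + 1) + f N + (f N + f (N + 1))
          = ∑ k ∈ Finset.range N, f (k + 1) + (f N + f N) + f (N + 1) := by abel
        _ = _ := by rw [hom_add2, add_zero]

theorem hom2 {I : Type*} {A : Type*} [Ring A] [Algebra (ZMod 2) A] {B : Type*} [Ring B]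
    [Algebra (ZMod 2) B] (v : I → A) (ev : A →ₐ[ZMod 2] B) (WB : Submodule (ZMod 2) B) (r : B)
    (hr : r ∈ WB)
    (hev : ∀ i, ev (v i) ∈ WB) (ρ : I →₀ ZMod 2) (hρ : lc (fun i => ev (v i)) ρ = r)
    (Z : B →ₗ[ZMod 2] ZMod 2) (hZ : Z r = 0) (ι : B →ₗ[ZMod 2] B) (hι1 : ι 1 = 0)
    (hι : ∀ w ∈ WB, ∀ m, ι (w * m) = Z w • m + w * ι m + Z w • (r * ι m))
    (x : I →₀ ZMod 2) (hx : Z (lc (fun i => ev (v i)) x) = 1) (N : ℕ) (z : List I →₀ B)
    (hz : z ∈ C (ZMod 2) (pr v) B) (hN : Short N z) (hd : dB (fun i => ev (v i)) z = 0) :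
    z = dB (fun i => ev (v i)) (mp ι (asec x (x + ρ) (fun i => Z (ev (v i))) N z)) +
      mp (LinearMap.id + LinearMap.mulLeft (ZMod 2) (lc (fun i => ev (v i)) x) ∘ₗ ι)
        (z + asec x (x + ρ) (fun i => Z (ev (v i))) N (con (fun i => Z (ev (v i))) z)) := by
  obtain ⟨X, hX⟩ : ∃ X : B, X = lc (fun i => ev (v i)) x := ⟨_, rfl⟩
  obtain ⟨y, hy⟩ : ∃ y : I → ZMod 2, y = fun i => Z (ev (v i)) := ⟨_, rfl⟩
  obtain ⟨zs, hzs⟩ : ∃ zs : ℕ → (List I →₀ B), zs = fun k => (con y ^ k) z := ⟨_, rfl⟩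
  obtain ⟨x', hx'⟩ : ∃ x' : I →₀ ZMod 2, x' = x + ρ := ⟨_, rfl⟩
  have hXWB : X ∈ WB := by
    rw [hX]
    exact hom_lc_mem hev x
  have hX' : lc (fun i => ev (v i)) x' = X + r := by
    rw [hx', hom_lc_add, hρ, hX]
  have hzX : Z X = 1 := by rw [hX]; exact hx
  have hzX' : Z (X + r) = 1 := by rw [map_add, hzX, hZ, add_zero]
  rw [← hX, ← hy, ← hx']
  have hzC : ∀ k, zs k ∈ C (ZMod 2) (pr v) B := fun k => by
    rw [hzs]
    exact con_pow_C (pr v) y k hz
  have hstep : ∀ k, zs (k + 1) = con y (zs k) := fun k => by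
    rw [hzs]
    show (con y ^ (k + 1)) z = con y ((con y ^ k) z)
    rw [pow_succ']
    rfl
  have hstep' : ∀ k, zs (k + 1) = (con y ^ k) (con y z) := fun k => by
    rw [hzs]
    show (con y ^ (k + 1)) z = (con y ^ k) (con y z)
    rw [pow_succ]
    rfl
  have hdz : ∀ k, dB (fun i => ev (v i)) (zs k) =
      if k % 2 = 1 then mp (LinearMap.mulLeft (ZMod 2) r) (zs (k + 1)) else 0 := by
    intro k
    induction k with
    | zero =>
      rw [if_neg (by omega), hzs]
      exact hd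
    | succ k ih =>
      have h1 := hom_two v ev WB r hev Z ι hι1 hι (hzC k)
      rw [← hy, ih] at h1
      rw [hstep k, h1]
      rcases Nat.mod_two_eq_zero_or_one k with h | h
      · rw [if_neg (by omega), if_pos (by omega), map_zero, zero_add, hstep (k + 1), hstep k]
      · rw [if_pos h, if_neg (by omega), con_mp, hstep k, hom_add2]
  have hdai : ∀ k, dB (fun i => ev (v i)) (ai x x' (k + 1) (zs k)) =
      mp (LinearMap.mulLeft (ZMod 2) X) (ai x x' k (zs k)) +
        (if k % 2 = 1 then mp (LinearMap.mulLeft (ZMod 2) r) (ai x x' k (zs k)) +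
          mp (LinearMap.mulLeft (ZMod 2) r) (ai x x' (k + 1) (zs (k + 1))) else 0) := by
    intro k
    have h1 := dif_ai (fun i => LinearMap.mulLeft (ZMod 2) (ev (v i))) x x' k (zs k)
    have h2 : dB (fun i => ev (v i)) (zs k) =
      dif (fun i => LinearMap.mulLeft (ZMod 2) (ev (v i))) (zs k) := rfl
    rw [hom_lc_mulLeft (fun i => ev (v i)) (alt x x' (k + 1)), ← h2, hdz] at h1
    refine h1.trans ?_
    rcases Nat.mod_two_eq_zero_or_one k with h | h
    · have h3 : alt x x' (k + 1) = x := if_pos (by omega)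
      rw [if_neg (by omega), if_neg (by omega), map_zero, h3, ai_mp, ← hX]
    · have h3 : alt x x' (k + 1) = x' := if_neg (by omega)
      rw [if_pos h, if_pos h, h3, ai_mp, ai_mp, hX']
      ext t
      simp only [Finsupp.add_apply, mp_apply, LinearMap.mulLeft_apply, add_mul, add_assoc]
  obtain ⟨S, hS⟩ : ∃ S : List I →₀ B, S = asec x x' y N z := ⟨_, rfl⟩
  obtain ⟨w, hw⟩ : ∃ w : List I →₀ B, w = asec x x' y N (con y z) := ⟨_, rfl⟩
  have hw1 : w = ∑ k ∈ Finset.range N, ai x x' (k + 1) (zs (k + 1)) := by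
    rw [hw, asec_apply]
    exact Finset.sum_congr rfl fun k _ => by rw [hstep' k]
  have hdS : dB (fun i => ev (v i)) S = mp (LinearMap.mulLeft (ZMod 2) X) (z + w) +
      mp (LinearMap.mulLeft (ZMod 2) r) w := by
    have h1 : S = ∑ k ∈ Finset.range N, ai x x' (k + 1) (zs k) := by
      rw [hS, asec_apply, hzs]
    have h2 : ∑ k ∈ Finset.range N, ai x x' k (zs k) = z + w := by
      rw [hw, ← asum x x' y N hN, hzs]
    have h3 := hom_alt (fun k => mp (LinearMap.mulLeft (ZMod 2) r) (ai x x' k (zs k))) N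
    have h4 : zs N = 0 := by
      rw [hzs]
      exact con_pow_short y N hN
    rw [h1, map_sum, Finset.sum_congr rfl fun k _ => hdai k, Finset.sum_add_distrib, ← map_sum,
      h2]
    congr 1
    refine h3.trans ?_
    show ∑ k ∈ Finset.range N, mp (LinearMap.mulLeft (ZMod 2) r) (ai x x' (k + 1) (zs (k + 1))) +
      (if N % 2 = 1 then mp (LinearMap.mulLeft (ZMod 2) r) (ai x x' N (zs N)) else 0) = _
    rw [h4, map_zero, map_zero, ite_self, add_zero, ← map_sum, ← hw1]
  have hcS : con y S = z := by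
    rw [hS]
    refine con_asec x x' y ?_ ?_ N hN
    · rw [hy, hom_Z_lc (fun i => ev (v i)) Z x, ← hX, hzX]
    · rw [hy, hom_Z_lc (fun i => ev (v i)) Z x', hX', hzX']
  have hE := hom_one (s := fun i => ev (v i)) hev Z ι hι S
  rw [← hy, hcS, con_mp, hcS, hdS] at hE
  rw [← hS, ← hw]
  obtain ⟨D, hD⟩ : ∃ D : List I →₀ B, D = dB (fun i => ev (v i)) (mp ι S) := ⟨_, rfl⟩
  rw [← hD] at hE ⊢
  ext t
  have hEt := DFunLike.congr_fun hE t
  simp only [Finsupp.add_apply, mp_apply, LinearMap.mulLeft_apply, LinearMap.comp_apply,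
    LinearMap.add_apply, LinearMap.id_apply] at hEt ⊢
  obtain ⟨a, ha⟩ : ∃ a : B, a = z t := ⟨_, rfl⟩
  obtain ⟨b, hb⟩ : ∃ b : B, b = w t := ⟨_, rfl⟩
  obtain ⟨d, hd'⟩ : ∃ d : B, d = D t := ⟨_, rfl⟩
  rw [← ha, ← hb, ← hd'] at hEt ⊢
  rw [map_add ι (X * (a + b)), hι X hXWB, hι r hr, hzX, hZ, one_smul, one_smul, zero_smul,
    zero_smul, zero_add, add_zero] at hEt
  obtain ⟨p, hp⟩ : ∃ p : B, p = X * ι (a + b) := ⟨_, rfl⟩
  obtain ⟨q, hq⟩ : ∃ q : B, q = r * ι a := ⟨_, rfl⟩
  obtain ⟨e, he⟩ : ∃ e : B, e = r * ι b := ⟨_, rfl⟩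
  have h5 : r * ι (a + b) = q + e := by rw [map_add, mul_add, hq, he]
  rw [h5, ← hp, ← hq, ← he] at hEt
  rw [← hp]
  have h6 : d = b + p := by
    have h7 : d = (a + d + q) - a - q := by abel
    rw [h7, ← hEt]
    calc a + b + p + (q + e) + e - a - q = b + p + (e + e) := by abel
      _ = b + p := by rw [hom_add2, add_zero]
  rw [h6]
  calc a = a + (b + b) + (p + p) := by rw [hom_add2, hom_add2, add_zero, add_zero]
    _ = b + p + (a + b + p) := by abel

end hom

end Pool.Agent.KRb
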