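import Pool.Agent.KRb.Defs
import Pool.Agent.KRat.PSym

/-!
Row INJ: the constants.
-/

set_option autoImplicit false

namespace Pool.Agent.KRb

open Finsupp Pool.Agent.KMil Pool.Agent.KRat Polynomial

universe u

variable {k : Type u} [Field k]

/-- the residue field of a place of degree one is the ground field -/
private theorem injM_bij (π : Pl k 1) : Function.Bijective (AdjoinRoot.of π.1) := by
  refine ⟨(AdjoinRoot.of π.1).injective, ?_⟩
  intro x
  obtain ⟨q, rfl⟩ := AdjoinRoot.mk_surjective x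
  have hm : π.1.Monic := π.2.1
  have h1 : (q %ₘ π.1).natDegree < π.1.natDegree :=
    natDegree_modByMonic_lt q hm (by
      intro h
      have := π.2.2.2
      rw [h, natDegree_one] at this
      exact absurd this (by norm_num))
  rw [π.2.2.2, Nat.lt_one_iff] at h1
  obtain ⟨c, hc⟩ := natDegree_eq_zero.1 h1
  refine ⟨c, ?_⟩
  have h2 : AdjoinRoot.mk π.1 q = AdjoinRoot.mk π.1 (q %ₘ π.1) := by
    rw [AdjoinRoot.mk_eq_mk]
    refine ⟨q /ₘ π.1, ?_⟩
    have h3 := modByMonic_add_div q π.1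
    rw [sub_eq_iff_eq_add, add_comm]
    exact h3.symm
  rw [h2, ← hc, AdjoinRoot.mk_C]

/-- the algebra generated by the constants is the Milnor ring of the constants -/
theorem zero_injM (π : Pl k 1) (ev : KM 2 (RatFunc k) →ₐ[ZMod 2] KM 2 (AdjoinRoot π.1))
    (hev : ∀ q : k[X], q ≠ 0 → q.natDegree ≤ 0 → ev (psym 2 k q) = rsig π (sym 2) q)
    (n : ℕ) (a : KM 2 (RatFunc k)) (ha : a ∈ VV 2 k 0 ^ n) (h0 : ev a = 0) : a = 0 := by
  classical
  let e : k ≃+* AdjoinRoot π.1 := RingEquiv.ofBijective (AdjoinRoot.of π.1) (injM_bij π)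
  have he : ∀ c : k, e.symm (AdjoinRoot.of π.1 c) = c := fun c => e.symm_apply_apply c
  have hC : ∀ c : k, c ≠ 0 → (Polynomial.C c : k[X]) ≠ 0 := fun c hc => C_ne_zero.2 hc
  have hu : ∀ u : (AdjoinRoot π.1)ˣ, e.symm (u : AdjoinRoot π.1) ≠ 0 := fun u h =>
    u.ne_zero ((map_eq_zero_iff e.symm e.symm.injective).1 h)
  let φ : (AdjoinRoot π.1)ˣ → KM 2 (RatFunc k) :=
    fun u => psym 2 k (Polynomial.C (e.symm (u : AdjoinRoot π.1)))
  have hrel : ∀ x y, MRel 2 (AdjoinRoot π.1) x y →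
      FreeAlgebra.lift (ZMod 2) φ x = FreeAlgebra.lift (ZMod 2) φ y := by
    intro x y h
    cases h with
    | mul u v =>
      rw [map_add, FreeAlgebra.lift_ι_apply, FreeAlgebra.lift_ι_apply, FreeAlgebra.lift_ι_apply]
      show psym 2 k (Polynomial.C (e.symm ((u * v : (AdjoinRoot π.1)ˣ) : AdjoinRoot π.1))) = _
      rw [Units.val_mul, map_mul, C_mul]
      exact psym_mul 2 k (hC _ (hu u)) (hC _ (hu v))
    | steinberg u v h =>
      rw [map_mul, FreeAlgebra.lift_ι_apply, FreeAlgebra.lift_ι_apply, map_zero]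
      show psym 2 k (Polynomial.C (e.symm (u : AdjoinRoot π.1))) *
        psym 2 k (Polynomial.C (e.symm (v : AdjoinRoot π.1))) = 0
      have g1 : ∀ c : k, c ≠ 0 → algebraMap k[X] (RatFunc k) (Polynomial.C c) ≠ 0 := by
        intro c hc
        rw [Ne, map_eq_zero_iff _ (RatFunc.algebraMap_injective k)]
        exact hC c hc
      rw [psym_eq 2 k (hC _ (hu u)) (g1 _ (hu u)), psym_eq 2 k (hC _ (hu v)) (g1 _ (hu v))]
      apply sym_steinberg
      rw [Units.val_mk0, Units.val_mk0, ← map_add, ← map_add, ← map_add, h, map_one, map_one,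
        map_one]
  let Ψ : KM 2 (AdjoinRoot π.1) →ₐ[ZMod 2] KM 2 (RatFunc k) := liftKM _ hrel
  have hΨ : ∀ u, Ψ (sym 2 u) = φ u := fun u =>
    (liftKM_quo _ _ _).trans (FreeAlgebra.lift_ι_apply _ _)
  have hV : VV 2 k 0 ≤ Subalgebra.toSubmodule (AlgHom.equalizer (Ψ.comp ev) (AlgHom.id _ _)) := by
    unfold VV
    rw [Submodule.span_le]
    rintro _ ⟨q, hq, hqd, rfl⟩
    show (Ψ.comp ev) (psym 2 k q) = psym 2 k q
    rw [AlgHom.comp_apply, hev q hq hqd]
    obtain ⟨c, rfl⟩ := natDegree_eq_zero.1 (Nat.le_zero.1 hqd)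
    have hc : c ≠ 0 := fun h => hq (by rw [h, C_0])
    have h2 : AdjoinRoot.mk π.1 (Polynomial.C c) ≠ 0 := by
      rw [AdjoinRoot.mk_C]
      exact (_root_.map_ne_zero _).2 hc
    rw [rsig, dif_neg h2, hΨ]
    show psym 2 k (Polynomial.C (e.symm _)) = _
    rw [Units.val_mk0, AdjoinRoot.mk_C, he]
  have hmem : a ∈ Subalgebra.toSubmodule (AlgHom.equalizer (Ψ.comp ev) (AlgHom.id _ _)) := by
    have h3 : VV 2 k 0 ^ n ≤
        Subalgebra.toSubmodule (AlgHom.equalizer (Ψ.comp ev) (AlgHom.id _ _)) := by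
      clear ha
      induction n with
      | zero =>
        rw [pow_zero, Submodule.one_le]
        exact Subalgebra.one_mem _
      | succ n ih =>
        rw [pow_succ, Submodule.mul_le]
        intro x hx y hy
        exact Subalgebra.mul_mem _ (ih hx) (hV hy)
    exact h3 ha
  have h4 : Ψ (ev a) = a := hmem
  rw [← h4, h0, map_zero]

end Pool.Agent.KRb
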