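import Pool.Agent.KRb.Defs
import Pool.Agent.KRat.Ins

/-!
Row INS: insertion of alternating words, coefficients in the field with two elements.
-/

set_option autoImplicit false

namespace Pool.Agent.KRb

open Finsupp Pool.Agent.KMil Pool.Agent.KRat Polynomial

universe u

section ins

variable {I : Type*} {M N : Type*} [AddCommGroup M] [Module (ZMod 2) M] [AddCommGroup N]
  [Module (ZMod 2) N] {A : Type*} [Ring A] [Algebra (ZMod 2) A]

theorem ai_single (x x' : I →₀ ZMod 2) (j : ℕ) (w : List I) (m : M) :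
    ai x x' j (single w m) = ains x x' j w m := by
  simp [ai]

theorem ains_zero (x x' : I →₀ ZMod 2) (w : List I) (m : M) :
    ains x x' 0 w m = single w m := by
  simp [ains]

theorem ains_nil (x x' : I →₀ ZMod 2) (j : ℕ) (m : M) :
    ains x x' (j + 1) [] m = prx (alt x x' (j + 1)) (ains x x' j [] m) := by
  simp [ains]

theorem ains_cons (x x' : I →₀ ZMod 2) (j : ℕ) (i : I) (w : List I) (m : M) :
    ains x x' (j + 1) (i :: w) m = prx (alt x x' (j + 1)) (ains x x' j (i :: w) m) +
      pre (f := ZMod 2) i (ains x x' (j + 1) w m) := by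
  simp [ains]

theorem ai_zero (x x' : I →₀ ZMod 2) (z : List I →₀ M) : ai x x' 0 z = z := by
  have : (ai x x' 0 : (List I →₀ M) →ₗ[ZMod 2] (List I →₀ M)) = LinearMap.id := by
    apply lin_ext
    intro w m
    rw [ai_single, ains_zero, LinearMap.id_apply]
  exact LinearMap.congr_fun this z

theorem mp_ains (x x' : I →₀ ZMod 2) (φ : M →ₗ[ZMod 2] N) (j : ℕ) (w : List I) (m : M) :
    mp φ (ains x x' j w m) = ains x x' j w (φ m) := by
  induction j generalizing w with
  | zero => rw [ains_zero, ains_zero, mp_single]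
  | succ j ih =>
    induction w with
    | nil => rw [ains_nil, ains_nil, mp_prx, ih]
    | cons i w ihw => rw [ains_cons, ains_cons, map_add, mp_prx, mp_pre, ih, ihw]

theorem ai_mp (x x' : I →₀ ZMod 2) (j : ℕ) (φ : M →ₗ[ZMod 2] N) (z : List I →₀ M) :
    ai x x' j (mp φ z) = mp φ (ai x x' j z) := by
  have : (ai x x' j) ∘ₗ (mp φ) = (mp φ) ∘ₗ (ai x x' j) := by
    apply lin_ext
    intro w m
    rw [LinearMap.comp_apply, LinearMap.comp_apply, mp_single, ai_single, ai_single, mp_ains]
  exact LinearMap.congr_fun this z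

theorem dif_ai (g : I → M →ₗ[ZMod 2] N) (x x' : I →₀ ZMod 2) (j : ℕ) (z : List I →₀ M) :
    dif g (ai x x' (j + 1) z) =
      ai x x' j (mp ((alt x x' (j + 1)).sum fun i c => c • g i) z) +
        ai x x' (j + 1) (dif g z) := by
  have : (dif g) ∘ₗ (ai x x' (j + 1)) =
      (ai x x' j) ∘ₗ (mp ((alt x x' (j + 1)).sum fun i c => c • g i)) +
        (ai x x' (j + 1)) ∘ₗ (dif g) := by
    apply lin_ext
    intro w m
    rw [LinearMap.comp_apply, LinearMap.add_apply, LinearMap.comp_apply, LinearMap.comp_apply,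
      mp_single, ai_single, ai_single]
    cases w with
    | nil => rw [ains_nil, dif_prx, mp_ains, dif_nil, map_zero, add_zero]
    | cons i w => rw [ains_cons, map_add, dif_prx, mp_ains, dif_pre, mp_ains, dif_cons, ai_single]
  exact LinearMap.congr_fun this z

theorem tl_ai (i : I) (x x' : I →₀ ZMod 2) (j : ℕ) (z : List I →₀ M) :
    tl (ZMod 2) i (ai x x' (j + 1) z) =
      (alt x x' (j + 1)) i • ai x x' j z + ai x x' (j + 1) (tl (ZMod 2) i z) := by
  classical
  rw [tl_eq_dif, tl_eq_dif, dif_ai, ai_mp]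
  congr 1
  ext w
  rw [mp_apply, Finsupp.smul_apply, Finsupp.sum, LinearMap.sum_apply]
  rw [Finset.sum_eq_single i]
  · rw [if_pos rfl, LinearMap.smul_apply, LinearMap.id_apply]
  · intro k _ hk
    rw [if_neg hk, smul_zero, LinearMap.zero_apply]
  · intro hi
    rw [Finsupp.notMem_support_iff.1 hi, zero_smul, LinearMap.zero_apply]

theorem mp_smul_id (c : ZMod 2) (z : List I →₀ M) :
    mp (c • (LinearMap.id : M →ₗ[ZMod 2] M)) z = c • z := by
  ext w
  rw [mp_apply, LinearMap.smul_apply, LinearMap.id_apply, Finsupp.smul_apply]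

theorem lc_eq (v : I → A) (x : I →₀ ZMod 2) : lc v x = ∑ i ∈ x.support, x i • v i := rfl

theorem lc_comm (v : I → A) (hc : ∀ i j, v i * v j = v j * v i) (x y : I →₀ ZMod 2) :
    lc v x * lc v y = lc v y * lc v x := by
  have h : Commute (lc v x) (lc v y) := by
    rw [lc_eq, lc_eq]
    refine Commute.sum_left _ _ _ fun i _ => ?_
    refine Commute.sum_right _ _ _ fun j _ => ?_
    exact ((show Commute (v i) (v j) from hc i j).smul_left _).smul_right _
  exact h.eq

theorem quad_lc (v : I → A) (μ : A →ₗ[ZMod 2] ZMod 2) (x y : I →₀ ZMod 2) (z : List I →₀ M) :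
    quad (fun i j => μ (pr v i j) • (LinearMap.id : M →ₗ[ZMod 2] M)) (prx x (prx y z)) =
      μ (lc v x * lc v y) • z := by
  rw [prx_apply x, prx_apply y, Finsupp.sum, Finsupp.sum, map_sum, lc_eq, lc_eq,
    Finset.sum_mul, map_sum, Finset.sum_smul]
  refine Finset.sum_congr rfl fun i _ => ?_
  rw [map_smul, map_sum, map_sum, Finset.smul_sum, Finset.mul_sum, map_sum, Finset.sum_smul]
  refine Finset.sum_congr rfl fun j _ => ?_
  rw [map_smul, map_smul, quad_pre_pre, mp_smul_id, smul_mul_assoc, mul_smul_comm, map_smul,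
    map_smul, smul_eq_mul, smul_eq_mul, mul_smul, mul_smul]
  rfl

theorem alt_mul (v : I → A) (hc : ∀ i j, v i * v j = v j * v i) (x x' : I →₀ ZMod 2)
    (h : lc v x * lc v x' = 0) (j : ℕ) :
    lc v (alt x x' (j + 1)) * lc v (alt x x' j) = 0 := by
  rcases Nat.even_or_odd j with hj | hj
  · have h1 : j % 2 = 0 := Nat.even_iff.1 hj
    have h2 : (j + 1) % 2 = 1 := by omega
    rw [alt, alt, if_pos h2, if_neg (by omega), h]
  · have h1 : j % 2 = 1 := Nat.odd_iff.1 hj
    have h2 : ¬ (j + 1) % 2 = 1 := by omega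
    rw [alt, alt, if_neg h2, if_pos h1, lc_comm v hc, h]

theorem ains_form (x x' : I →₀ ZMod 2) (j : ℕ) (i : I) (w : List I) (m : M) :
    ∃ z : List I →₀ M, ains x x' j (i :: w) m = prx (alt x x' j) z +
      pre (f := ZMod 2) i (ains x x' j w m) := by
  cases j with
  | zero =>
    refine ⟨0, ?_⟩
    rw [ains_zero, ains_zero, map_zero, zero_add, pre_single]
  | succ j => exact ⟨_, ains_cons x x' j i w m⟩

theorem quad_ains (v : I → A) (hc : ∀ i j, v i * v j = v j * v i) (x x' : I →₀ ZMod 2)
    (h : lc v x * lc v x' = 0) (μ : A →ₗ[ZMod 2] ZMod 2) (j : ℕ) (w : List I) (m : M) :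
    quad (fun i j => μ (pr v i j) • (LinearMap.id : M →ₗ[ZMod 2] M)) (ains x x' j w m) =
      ai x x' j (quad (fun i j => μ (pr v i j) • (LinearMap.id : M →ₗ[ZMod 2] M))
        (single w m)) := by
  have h2 : ∀ i j, (fun i j => μ (pr v i j) • (LinearMap.id : M →ₗ[ZMod 2] M)) i j +
      (fun i j => μ (pr v i j) • (LinearMap.id : M →ₗ[ZMod 2] M)) j i = 0 := by
    intro i j
    show μ (v i * v j) • _ + μ (v j * v i) • _ = _
    rw [hc j i, ← add_smul, CharTwo.add_self_eq_zero, zero_smul]
  have h3 : ∀ (j : ℕ) (z : List I →₀ M),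
      quad (fun i j => μ (pr v i j) • (LinearMap.id : M →ₗ[ZMod 2] M))
        (prx (alt x x' (j + 1)) (prx (alt x x' j) z)) = 0 := by
    intro j z
    rw [quad_lc, alt_mul v hc x x' h, map_zero, zero_smul]
  cases j with
  | zero => rw [ains_zero, ai_zero]
  | succ j =>
    cases w with
    | nil =>
      rw [quad_nil, map_zero, ains_nil]
      cases j with
      | zero =>
        rw [ains_zero, prx_apply, Finsupp.sum, map_sum]
        refine Finset.sum_eq_zero fun i _ => ?_
        rw [map_smul, pre_single, quad_one, smul_zero]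
      | succ j => rw [ains_nil, h3]
    | cons i w =>
      obtain ⟨z, hz⟩ := ains_form x x' j i w m
      rw [ains_cons, map_add, hz, map_add, map_add, h3, zero_add]
      cases w with
      | nil =>
        rw [ains_nil, quad_prx_pre _ h2, quad_one, map_zero]
      | cons k w =>
        rw [ains_cons, map_add, map_add, ← add_assoc, quad_prx_pre _ h2, zero_add, quad_pre_pre,
          mp_ains, quad_cons, ai_single]

theorem quad_ai (v : I → A) (hc : ∀ i j, v i * v j = v j * v i) (x x' : I →₀ ZMod 2)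
    (h : lc v x * lc v x' = 0) (μ : A →ₗ[ZMod 2] ZMod 2) (j : ℕ) (z : List I →₀ M) :
    quad (fun i j => μ (pr v i j) • (LinearMap.id : M →ₗ[ZMod 2] M)) (ai x x' j z) =
      ai x x' j (quad (fun i j => μ (pr v i j) • (LinearMap.id : M →ₗ[ZMod 2] M)) z) := by
  have : (quad (fun i j => μ (pr v i j) • (LinearMap.id : M →ₗ[ZMod 2] M))) ∘ₗ (ai x x' j) =
      (ai x x' j) ∘ₗ (quad (fun i j => μ (pr v i j) • (LinearMap.id : M →ₗ[ZMod 2] M))) := by
    apply lin_ext
    intro w m
    rw [LinearMap.comp_apply, LinearMap.comp_apply, ai_single, quad_ains v hc x x' h μ]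
  exact LinearMap.congr_fun this z

theorem ai_C (v : I → A) (hc : ∀ i j, v i * v j = v j * v i) (x x' : I →₀ ZMod 2)
    (h : lc v x * lc v x' = 0) (j : ℕ) {z : List I →₀ M} (hz : z ∈ C (ZMod 2) (pr v) M) :
    ai x x' j z ∈ C (ZMod 2) (pr v) M := by
  rw [mem_C]
  intro μ u
  induction u generalizing j z with
  | nil =>
    show quad _ (ai x x' j z) = 0
    rw [quad_ai v hc x x' h μ]
    have := (mem_C (pr v)).1 hz μ []
    change quad _ z = 0 at this
    rw [this, map_zero]
  | cons i u ih =>
    show quad _ (tls (ZMod 2) u (tl (ZMod 2) i (ai x x' j z))) = 0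
    cases j with
    | zero =>
      rw [ai_zero]
      have := ih 0 (C_tl (pr v) i hz)
      rw [ai_zero] at this
      exact this
    | succ j =>
      rw [tl_ai, map_add, map_add, map_smul, map_smul, ih j hz, ih (j + 1) (C_tl (pr v) i hz),
        smul_zero, add_zero]

end ins

end Pool.Agent.KRb
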