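import Pool.Agent.KRb.All
import Pool.Agent.KRat.Main

/-!
Row FIN: the theorem for all primes.
-/

set_option autoImplicit false

namespace Pool.Agent.KRb

open Finsupp Pool.Agent.KMil Pool.Agent.KRat Polynomial

universe u

private theorem fin_sq {E : Type*} [Field E] {x y w c : E} (hw : w ≠ 0) (h : x * w ^ 2 = c ^ 2)
    (hy : y = x) : ∃ d : E, y = d ^ 2 := by
  refine ⟨c / w, ?_⟩
  rw [div_pow, ← h, hy]
  field_simp

section fieldk

variable {k : Type u} [Field k]

theorem koszul_ratFunc_all (p : ℕ) [Fact p.Prime]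
    (hE : ∀ (E : Type u) [Field E] [Algebra k E] [FiniteDimensional k E] (a : E), a ≠ 0 → a ≠ 1 →
      (∃ i j : ℕ, ¬ (p ∣ i ∧ p ∣ j) ∧ ∃ c : E, (-1) ^ (i * j) * (a ^ i * (1 - a) ^ j) = c ^ p) ∨
      (p = 2 ∧ (∃ s t : k, s ^ 2 + t ^ 2 = -1) ∧ (∃ c : E, -a = c ^ 2) ∧ ∃ c : E, a - 1 = c ^ 2)) :
    IsKoszul (KMn p (RatFunc k)) := by
  by_cases hp : p = 2
  · subst hp
    refine koszul_two_ratFunc ?_
    intro E _ _ _ a h0 h1
    have h1' : (1 - a) ≠ 0 := sub_ne_zero.mpr (Ne.symm h1)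
    rcases hE E a h0 h1 with ⟨i, j, hij, c, hc⟩ | ⟨_, hst, h3, h4⟩
    · rcases Nat.even_or_odd' i with ⟨u, hu | hu⟩ <;> rcases Nat.even_or_odd' j with ⟨v, hv | hv⟩
      · exact absurd ⟨⟨u, hu⟩, ⟨v, hv⟩⟩ hij
      · -- `i` even, `j` odd
        right; left
        have he : Even (i * j) := by
          rw [hu]; exact (even_two_mul u).mul_right j
        rw [he.neg_one_pow, one_mul, hu, hv] at hc
        refine fin_sq (x := 1 - a) (w := a ^ u * (1 - a) ^ v) (c := c)
          (mul_ne_zero (pow_ne_zero _ h0) (pow_ne_zero _ h1')) ?_ rfl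
        rw [← hc]
        ring
      · -- `i` odd, `j` even
        left
        have he : Even (i * j) := by
          rw [hv]; exact (even_two_mul v).mul_left i
        rw [he.neg_one_pow, one_mul, hu, hv] at hc
        refine fin_sq (x := a) (w := a ^ u * (1 - a) ^ v) (c := c)
          (mul_ne_zero (pow_ne_zero _ h0) (pow_ne_zero _ h1')) ?_ rfl
        rw [← hc]
        ring
      · -- both odd
        right; right; left
        have ho : Odd (i * j) := by
          rw [hu, hv]; exact (odd_two_mul_add_one u).mul (odd_two_mul_add_one v)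
        rw [ho.neg_one_pow, hu, hv] at hc
        refine fin_sq (x := -(a * (1 - a))) (w := a ^ u * (1 - a) ^ v) (c := c)
          (mul_ne_zero (pow_ne_zero _ h0) (pow_ne_zero _ h1')) ?_ rfl
        rw [← hc]
        ring
    · exact Or.inr (Or.inr (Or.inr ⟨hst, h3, h4⟩))
  · have hodd : Odd p := (Fact.out : p.Prime).odd_of_ne_two hp
    refine koszul_ratFunc p ⟨-1, hodd.neg_one_pow⟩ ?_
    intro E _ _ _ a h0 h1
    rcases hE E a h0 h1 with ⟨i, j, hij, c, hc⟩ | ⟨h2, _⟩
    · refine ⟨i, j, hij, (-1) ^ (i * j) * c, ?_⟩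
      have h3 : ((-1 : E) ^ (i * j)) ^ p = (-1) ^ (i * j) := by
        rw [← pow_mul, mul_comm, pow_mul, hodd.neg_one_pow]
      have h4 : ((-1 : E) ^ (i * j)) * (-1) ^ (i * j) = 1 := by
        rw [← mul_pow]
        simp
      rw [mul_pow, h3, ← hc, ← mul_assoc, h4, one_mul]
    · exact absurd h2 hp

end fieldk

end Pool.Agent.KRb
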