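import Pool.Agent.KRb.Defs

/-!
# KRb, row PRJ: the projection, pure algebra
-/

set_option autoImplicit false

namespace Pool.Agent.KRb

open Finsupp Pool.Agent.KMil Pool.Agent.KRat Polynomial

universe u

section prj

variable {B : Type*} [Ring B] [Algebra (ZMod 2) B]

private theorem prj_add_self (x : B) : x + x = 0 := by
  have h : (2 : ZMod 2) • x = x + x := two_smul _ x
  rw [← h, show (2 : ZMod 2) = 0 from rfl, zero_smul]

private theorem prj_zero {WB S : Submodule (ZMod 2) B} (hS : S ≤ WB) {r : B}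
    (Z : B →ₗ[ZMod 2] ZMod 2) (hZS : ∀ w ∈ S, Z w = 0) (ι : B →ₗ[ZMod 2] B) (hι1 : ι 1 = 0)
    (hι : ∀ w ∈ WB, ∀ m, ι (w * m) = Z w • m + w * ι m + Z w • (r * ι m)) (n : ℕ) :
    ∀ a ∈ S ^ n, ι a = 0 := by
  induction n with
  | zero =>
    intro a ha
    rw [pow_zero] at ha
    obtain ⟨c, rfl⟩ := Submodule.mem_one.1 ha
    rw [Algebra.algebraMap_eq_smul_one, map_smul, hι1, smul_zero]
  | succ n ih =>
    intro a ha
    rw [pow_succ'] at ha
    induction ha using Submodule.mul_induction_on' with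
    | mem_mul_mem w hw m hm =>
      rw [hι w (hS hw), hZS w hw, ih m hm]
      simp
    | add x _ y _ hx hy => rw [map_add, hx, hy, add_zero]

private theorem prj_split {WB : Submodule (ZMod 2) B} {r : B} (G : Good WB r)
    {S : Submodule (ZMod 2) B} (hS : S ≤ WB) (hrS : r ∈ S) {b : B} (hb : b ∈ WB) (n : ℕ) :
    ∀ a ∈ (S ⊔ Submodule.span (ZMod 2) {b}) ^ (n + 1),
      ∃ u ∈ S ^ (n + 1), ∃ t ∈ S ^ n, a = u + b * t := by
  induction n with
  | zero =>
    intro a ha
    rw [zero_add, pow_one] at ha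
    obtain ⟨s, hs, y, hy, rfl⟩ := Submodule.mem_sup.1 ha
    obtain ⟨c, rfl⟩ := Submodule.mem_span_singleton.1 hy
    refine ⟨s, by rw [zero_add, pow_one]; exact hs, c • 1, ?_, ?_⟩
    · rw [pow_zero]
      exact Submodule.smul_mem _ c (Submodule.mem_one.2 ⟨1, map_one _⟩)
    · rw [mul_smul_comm, mul_one]
  | succ n ih =>
    intro a ha
    rw [pow_succ'] at ha
    induction ha using Submodule.mul_induction_on' with
    | mem_mul_mem x hx y hy =>
      obtain ⟨s, hs, z, hz, rfl⟩ := Submodule.mem_sup.1 hx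
      obtain ⟨c, rfl⟩ := Submodule.mem_span_singleton.1 hz
      obtain ⟨u, hu, t, ht, rfl⟩ := ih y hy
      refine ⟨s * u, ?_, s * t + c • u + c • (r * t), ?_, ?_⟩
      · rw [pow_succ' S (n + 1)]
        exact Submodule.mul_mem_mul hs hu
      · refine Submodule.add_mem _ (Submodule.add_mem _ ?_ (Submodule.smul_mem _ c hu))
          (Submodule.smul_mem _ c ?_)
        · rw [pow_succ' S n]
          exact Submodule.mul_mem_mul hs ht
        · rw [pow_succ' S n]
          exact Submodule.mul_mem_mul hrS ht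
      · have e1 : s * (b * t) = b * (s * t) := by
          rw [← mul_assoc, G.comm s (hS hs) b hb, mul_assoc]
        have e2 : b * (b * t) = b * (r * t) := by
          rw [← mul_assoc, G.sq b hb, ← G.comm b hb r G.mem, mul_assoc]
        rw [add_mul, mul_add, mul_add, e1, smul_mul_assoc, smul_mul_assoc, e2, mul_add, mul_add,
          mul_smul_comm, mul_smul_comm]
        abel
    | add x _ y _ hx hy =>
      obtain ⟨u, hu, t, ht, rfl⟩ := hx
      obtain ⟨u', hu', t', ht', rfl⟩ := hy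
      refine ⟨u + u', Submodule.add_mem _ hu hu', t + t', Submodule.add_mem _ ht ht', ?_⟩
      rw [mul_add]
      abel

theorem prj (WB : Submodule (ZMod 2) B) (r : B) (G : Good WB r) (S : Submodule (ZMod 2) B)
    (hS : S ≤ WB) (hrS : r ∈ S) (b : B) (hb : b ∈ WB) (Z : B →ₗ[ZMod 2] ZMod 2)
    (hZS : ∀ w ∈ S, Z w = 0) (hZb : Z b = 1) (ι : B →ₗ[ZMod 2] B) (hι1 : ι 1 = 0)
    (hι : ∀ w ∈ WB, ∀ m, ι (w * m) = Z w • m + w * ι m + Z w • (r * ι m)) (n : ℕ)
    (a : B) (ha : a ∈ (S ⊔ Submodule.span (ZMod 2) {b}) ^ n) : a + b * ι a ∈ S ^ n := by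
  rcases n with _ | n
  · rw [pow_zero] at ha ⊢
    obtain ⟨c, rfl⟩ := Submodule.mem_one.1 ha
    have h : ι (algebraMap (ZMod 2) B c) = 0 := by
      rw [Algebra.algebraMap_eq_smul_one, map_smul, hι1, smul_zero]
    rw [h, mul_zero, add_zero]
    exact ha
  · obtain ⟨u, hu, t, ht, rfl⟩ := prj_split G hS hrS hb n a ha
    have h1 := prj_zero hS Z hZS ι hι1 hι (n + 1) u hu
    have h2 := prj_zero hS Z hZS ι hι1 hι n t ht
    have h3 : ι (b * t) = t := by
      rw [hι b hb, hZb, h2]
      simp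
    rw [map_add, h1, h3, zero_add, add_assoc, prj_add_self, add_zero]
    exact hu

/-- the twisted derivations lower the degree -/
theorem der_deg (WB : Submodule (ZMod 2) B) (r : B) (hr : r ∈ WB) (Z : B →ₗ[ZMod 2] ZMod 2)
    (ι : B →ₗ[ZMod 2] B) (hι1 : ι 1 = 0)
    (hι : ∀ w ∈ WB, ∀ m, ι (w * m) = Z w • m + w * ι m + Z w • (r * ι m)) (n : ℕ)
    (a : B) (ha : a ∈ WB ^ (n + 1)) : ι a ∈ WB ^ n := by
  induction n generalizing a with
  | zero =>
    rw [zero_add, pow_one] at ha
    have h := hι a ha 1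
    rw [mul_one, hι1, mul_zero, mul_zero, smul_zero, add_zero, add_zero] at h
    rw [h, pow_zero]
    exact Submodule.smul_mem _ _ (Submodule.mem_one.2 ⟨1, map_one _⟩)
  | succ n ih =>
    rw [pow_succ'] at ha
    induction ha using Submodule.mul_induction_on' with
    | mem_mul_mem w hw m hm =>
      rw [hι w hw]
      have h := ih m hm
      refine Submodule.add_mem _ (Submodule.add_mem _ (Submodule.smul_mem _ _ hm) ?_)
        (Submodule.smul_mem _ _ ?_)
      · rw [pow_succ' WB n]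
        exact Submodule.mul_mem_mul hw h
      · rw [pow_succ' WB n]
        exact Submodule.mul_mem_mul hr h
    | add x _ y _ hx hy =>
      rw [map_add]
      exact Submodule.add_mem _ hx hy

end prj

end Pool.Agent.KRb
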