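import Pool.Agent.KRb.Spec
import Pool.Agent.KRb.Kmt

/-!
Row RES: the specialisation and the residue at one place.
-/

set_option autoImplicit false

namespace Pool.Agent.KRb

open Finsupp Pool.Agent.KMil Pool.Agent.KRat Polynomial

universe u

variable {k : Type u} [Field k]

/-- induction for the Milnor ring of the rational function field -/
private theorem res_induction (π : k[X]) (hπ : Irreducible π)
    (W : Subalgebra (ZMod 2) (KM 2 (RatFunc k))) (h0 : psym 2 k π ∈ W)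
    (h1 : ∀ q : k[X], ¬ π ∣ q → psym 2 k q ∈ W) (a : KM 2 (RatFunc k)) : a ∈ W := by
  have hpow : ∀ n : ℕ, psym 2 k (π ^ n) ∈ W := by
    intro n
    induction n with
    | zero =>
      refine h1 _ fun h => hπ.not_isUnit ?_
      rw [pow_zero] at h
      exact isUnit_of_dvd_one h
    | succ n ih =>
      rw [pow_succ, psym_mul 2 k (pow_ne_zero _ hπ.ne_zero) hπ.ne_zero]
      exact W.add_mem ih h0
  have hq : ∀ q : k[X], q ≠ 0 → psym 2 k q ∈ W := by
    intro q hq
    obtain ⟨n, r, hr, rfl⟩ := WfDvdMonoid.max_power_factor hq hπ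
    have hr0 : r ≠ 0 := fun h => hr (h ▸ dvd_zero π)
    rw [psym_mul 2 k (pow_ne_zero _ hπ.ne_zero) hr0]
    exact W.add_mem (hpow n) (h1 r hr)
  have hs : ∀ u : (RatFunc k)ˣ, sym 2 u ∈ W := by
    intro u
    obtain ⟨q, r, h2, h3, h4⟩ := sym_eq_psym 2 k u
    rw [h4]
    exact W.sub_mem (hq q h2) (hq r h3)
  obtain ⟨x, rfl⟩ : ∃ x, quo 2 (RatFunc k) x = a := RingQuot.mkAlgHom_surjective _ _ a
  induction x using FreeAlgebra.induction with
  | grade0 r => rw [AlgHom.commutes]; exact W.algebraMap_mem r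
  | grade1 u => exact hs u
  | mul x y hx hy => rw [map_mul]; exact W.mul_mem hx hy
  | add x y hx hy => rw [map_add]; exact W.add_mem hx hy

theorem exists_ev_delM {d : ℕ} (π : Pl k d) :
    ∃ (ev : KM 2 (RatFunc k) →ₐ[ZMod 2] KM 2 (AdjoinRoot π.1))
      (del : KM 2 (RatFunc k) →ₗ[ZMod 2] KM 2 (AdjoinRoot π.1)),
      (∀ q : k[X], ¬ π.1 ∣ q → ev (psym 2 k q) = rsig π (sym 2) q) ∧
      del 1 = 0 ∧
      (∀ q : k[X], ¬ π.1 ∣ q → ∀ a, del (psym 2 k q * a) = ev (psym 2 k q) * del a) ∧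
      (∀ a, del (psym 2 k π.1 * a) = ev a + rm (AdjoinRoot π.1) * del a) := by
  classical
  obtain ⟨ev, hev0, hev⟩ := exists_specM π (M := KM 2 (AdjoinRoot π.1)) (sym 2) 0
    (fun a b => sym_mul 2 a b) (fun a b h => sym_steinberg 2 a b h)
    (fun a => by rw [mul_zero, zero_mul]) (by rw [mul_zero, mul_zero])
  obtain ⟨P0, hP0⟩ : ∃ P0 : Matrix (Fin 2) (Fin 2) (KM 2 (AdjoinRoot π.1)),
    P0 = !![0, 0; 1, rm (AdjoinRoot π.1)] := ⟨_, rfl⟩
  have hrm : rm (AdjoinRoot π.1) ∈ KMn 2 (AdjoinRoot π.1) 1 := sym_mem 2 (-1)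
  obtain ⟨S, hS0, hS⟩ := exists_specM π (M := Matrix (Fin 2) (Fin 2) (KM 2 (AdjoinRoot π.1)))
    (fun a => Matrix.scalar (Fin 2) (sym 2 a)) P0
    (fun a b => by rw [sym_mul, map_add])
    (fun a b h => by rw [← map_mul, sym_steinberg 2 a b h, map_zero])
    (fun a => by
      have hc := km_comm (sym 2 a) (sym_mem 2 a) (rm (AdjoinRoot π.1)) hrm
      rw [hP0]
      ext i j
      fin_cases i <;> fin_cases j <;>
        simp [Matrix.mul_apply, Fin.sum_univ_two, Matrix.scalar_apply, hc])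
    (by
      rw [hP0]
      ext i j
      fin_cases i <;> fin_cases j <;>
        simp [Matrix.mul_apply, Fin.sum_univ_two, Matrix.scalar_apply, rm])
  have hSq : ∀ q : k[X], ¬ π.1 ∣ q → S (psym 2 k q) =
      Matrix.scalar (Fin 2) (ev (psym 2 k q)) := by
    intro q hq
    rw [hS q hq, hev q hq]
    unfold rsig
    split_ifs
    · rw [map_zero]
    · rfl
  -- the matrices are lower triangular
  have key : ∀ a, S a 0 1 = 0 ∧ S a 0 0 = ev a := by
    obtain ⟨W, hW⟩ : ∃ W : Subalgebra (ZMod 2) (KM 2 (RatFunc k)),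
        ∀ a, a ∈ W ↔ (S a 0 1 = 0 ∧ S a 0 0 = ev a) := by
      refine ⟨{
        carrier := {a | S a 0 1 = 0 ∧ S a 0 0 = ev a}
        mul_mem' := ?_
        add_mem' := ?_
        algebraMap_mem' := ?_ }, fun a => Iff.rfl⟩
      · rintro a b ⟨h1, h2⟩ ⟨h3, h4⟩
        refine ⟨?_, ?_⟩
        · rw [map_mul, Matrix.mul_apply, Fin.sum_univ_two, h1, h3, mul_zero, zero_mul, add_zero]
        · rw [map_mul, Matrix.mul_apply, Fin.sum_univ_two, h1, h2, h4, zero_mul, add_zero, map_mul]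
      · rintro a b ⟨h1, h2⟩ ⟨h3, h4⟩
        refine ⟨?_, ?_⟩
        · rw [map_add, Matrix.add_apply, h1, h3, add_zero]
        · rw [map_add, Matrix.add_apply, h2, h4, map_add]
      · intro r
        refine ⟨?_, ?_⟩
        · rw [AlgHom.commutes, Matrix.algebraMap_matrix_apply, if_neg (by decide)]
        · rw [AlgHom.commutes, AlgHom.commutes, Matrix.algebraMap_matrix_apply, if_pos rfl]
    intro a
    rw [← hW]
    refine res_induction π.1 π.2.2.1 W ?_ ?_ a
    · rw [hW, hS0, hev0, hP0]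
      exact ⟨rfl, rfl⟩
    · intro q hq
      rw [hW, hSq q hq, Matrix.scalar_apply]
      exact ⟨Matrix.diagonal_apply_ne _ (by decide), Matrix.diagonal_apply_eq _ _⟩
  obtain ⟨del, hdel⟩ : ∃ del : KM 2 (RatFunc k) →ₗ[ZMod 2] KM 2 (AdjoinRoot π.1),
      ∀ a, del a = S a 1 0 :=
    ⟨{ toFun := fun a => S a 1 0
       map_add' := fun a b => by rw [map_add, Matrix.add_apply]
       map_smul' := fun c a => by rw [map_smul, Matrix.smul_apply, RingHom.id_apply] },
      fun a => rfl⟩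
  refine ⟨ev, del, hev, ?_, ?_, ?_⟩
  · rw [hdel, map_one]
    exact Matrix.one_apply_ne (by decide)
  · intro q hq a
    rw [hdel, hdel, map_mul, hSq q hq, Matrix.scalar_apply]
    exact Matrix.diagonal_mul _ _ _ _
  · intro a
    rw [hdel, hdel, map_mul, hS0, hP0, Matrix.mul_apply, Fin.sum_univ_two, (key a).2]
    show (1 : KM 2 (AdjoinRoot π.1)) * ev a + rm (AdjoinRoot π.1) * S a 1 0 = _
    rw [one_mul]

end Pool.Agent.KRb
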