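import Pool.Agent.KRb.Kmt
import Pool.Agent.KRat.SpecB

set_option autoImplicit false

/-!
Row SPEC: the specialisation with values in a general ring.
-/

namespace Pool.Agent.KRb

open Finsupp Pool.Agent.KMil Pool.Agent.KRat Polynomial

universe u

variable {k : Type u} [Field k]

private theorem spec_uniq {d : ℕ} (π : Pl k d) (m n : ℕ) (q r : k[X])
    (h : π.1 ^ m * q = π.1 ^ n * r) (hq : ¬ π.1 ∣ q) (hr : ¬ π.1 ∣ r) : m = n ∧ q = r := by
  have h0 : π.1 ≠ 0 := π.2.1.ne_zero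
  induction m generalizing n with
  | zero =>
    cases n with
    | zero => exact ⟨rfl, by simpa using h⟩
    | succ n =>
      exfalso
      apply hq
      refine ⟨π.1 ^ n * r, ?_⟩
      rw [pow_zero, one_mul] at h
      rw [h, pow_succ']
      ring
  | succ m ih =>
    cases n with
    | zero =>
      exfalso
      apply hr
      refine ⟨π.1 ^ m * q, ?_⟩
      rw [pow_zero, one_mul] at h
      rw [← h, pow_succ']
      ring
    | succ n =>
      have h' : π.1 ^ m * q = π.1 ^ n * r := by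
        apply mul_left_cancel₀ h0
        rw [← mul_assoc, ← mul_assoc, ← pow_succ', ← pow_succ']
        exact h
      obtain ⟨h1, h2⟩ := ih n h'
      exact ⟨by rw [h1], h2⟩

private theorem spec_ex {d : ℕ} (π : Pl k d) (q : k[X]) (hq : q ≠ 0) :
    ∃ x : ℕ × k[X], q = π.1 ^ x.1 * x.2 ∧ ¬ π.1 ∣ x.2 := by
  have hu : ¬ IsUnit π.1 := π.2.2.1.not_isUnit
  obtain ⟨n, c, hc, h⟩ := WfDvdMonoid.max_power_factor (a₀ := q) (x := π.1) hq π.2.2.1
  exact ⟨(n, c), h, hc⟩

private theorem spec_one {d : ℕ} (π : Pl k d) : ¬ π.1 ∣ (1 : k[X]) := by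
  intro h
  exact π.2.2.1.not_isUnit (isUnit_of_dvd_one h)

section

variable {M : Type*} [Ring M] [Algebra (ZMod 2) M]

private theorem m_two (x : M) : x + x = 0 := by
  have h : ((2 : ZMod 2)) • x = 0 := by
    have : (2 : ZMod 2) = 0 := by decide
    rw [this, zero_smul]
  rwa [two_smul] at h

private theorem m_neg (x : M) : -x = x := by
  have h := m_two x
  exact neg_eq_of_add_eq_zero_left h

private theorem m_sub (x y : M) : x - y = x + y := by
  rw [sub_eq_add_neg, m_neg]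

private theorem rsig_of_not_dvd {d : ℕ} (π : Pl k d) (σ : (AdjoinRoot π.1)ˣ → M) {q : k[X]}
    (h : ¬ π.1 ∣ q) : rsig π σ q = σ (Units.mk0 _ (not_dvd_mk π h)) := by
  unfold rsig
  rw [dif_neg (not_dvd_mk π h)]

private theorem rsig_congr {d : ℕ} (π : Pl k d) (σ : (AdjoinRoot π.1)ˣ → M) (q r : k[X])
    (h : π.1 ∣ q - r) : rsig π σ q = rsig π σ r := by
  have e : AdjoinRoot.mk π.1 q = AdjoinRoot.mk π.1 r := by
    rw [AdjoinRoot.mk_eq_mk]
    exact h
  unfold rsig
  by_cases h0 : AdjoinRoot.mk π.1 r = 0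
  · rw [dif_pos h0, dif_pos (e.trans h0)]
  · rw [dif_neg h0, dif_neg (fun h1 => h0 (e.symm.trans h1))]
    congr 1
    exact Units.ext e

private theorem rsig_mul {d : ℕ} (π : Pl k d) (σ : (AdjoinRoot π.1)ˣ → M)
    (hσ : ∀ a b, σ (a * b) = σ a + σ b) (q r : k[X])
    (hq : ¬ π.1 ∣ q) (hr : ¬ π.1 ∣ r) : rsig π σ (q * r) = rsig π σ q + rsig π σ r := by
  have h5 : ¬ π.1 ∣ q * r := by
    intro h
    rcases π.2.2.1.prime.dvd_or_dvd h with h | h
    · exact hq h
    · exact hr h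
  rw [rsig_of_not_dvd π σ hq, rsig_of_not_dvd π σ hr, rsig_of_not_dvd π σ h5, ← hσ]
  congr 1
  apply Units.ext
  rw [Units.val_mk0, Units.val_mul, Units.val_mk0, Units.val_mk0, map_mul]

private theorem sig_one {G : Type*} [Group G] {σ : G → M} (hσ : ∀ a b, σ (a * b) = σ a + σ b) :
    σ 1 = 0 := by
  have h := hσ 1 1
  rw [one_mul] at h
  exact left_eq_add.1 h

private theorem rsig_one {d : ℕ} (π : Pl k d) (σ : (AdjoinRoot π.1)ˣ → M)
    (hσ : ∀ a b, σ (a * b) = σ a + σ b) : rsig π σ (1 : k[X]) = 0 := by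
  have h := rsig_mul π σ hσ 1 1 (spec_one π) (spec_one π)
  rw [one_mul] at h
  exact left_eq_add.1 h

private theorem rsig_neg {d : ℕ} (π : Pl k d) (σ : (AdjoinRoot π.1)ˣ → M) :
    rsig π σ (-1) = σ (-1) := by
  have hne : AdjoinRoot.mk π.1 (-1 : k[X]) ≠ 0 := by
    rw [map_neg, map_one]
    exact neg_ne_zero.2 one_ne_zero
  unfold rsig
  rw [dif_neg hne]
  congr 1
  apply Units.ext
  rw [Units.val_mk0, Units.val_neg, Units.val_one, map_neg, map_one]

/-- the symbols of the residue field satisfy the relations of the Milnor ring -/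
private theorem sig_rel {E : Type u} [Field E] {σ : Eˣ → M} (hσ : ∀ a b, σ (a * b) = σ a + σ b)
    (hst : ∀ a b : Eˣ, (a : E) + (b : E) = 1 → σ a * σ b = 0) :
    ∃ T : KM 2 E →ₐ[ZMod 2] M, ∀ a, T (sym 2 a) = σ a := by
  have hrel : ∀ x y, MRel 2 E x y → FreeAlgebra.lift (ZMod 2) σ x =
      FreeAlgebra.lift (ZMod 2) σ y := by
    intro x y hxy
    cases hxy with
    | mul u v =>
      rw [map_add, FreeAlgebra.lift_ι_apply, FreeAlgebra.lift_ι_apply, FreeAlgebra.lift_ι_apply, hσ]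
    | steinberg u v h =>
      rw [map_mul, FreeAlgebra.lift_ι_apply, FreeAlgebra.lift_ι_apply, map_zero, hst u v h]
  refine ⟨liftKM _ hrel, fun a => ?_⟩
  unfold sym
  rw [liftKM_quo, FreeAlgebra.lift_ι_apply]

private theorem sig_comm {E : Type u} [Field E] {σ : Eˣ → M} (hσ : ∀ a b, σ (a * b) = σ a + σ b)
    (hst : ∀ a b : Eˣ, (a : E) + (b : E) = 1 → σ a * σ b = 0) (a b : Eˣ) :
    σ a * σ b = σ b * σ a := by
  obtain ⟨T, hT⟩ := sig_rel hσ hst
  rw [← hT a, ← hT b, ← map_mul, ← map_mul, sym_comm]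

private theorem sig_self {E : Type u} [Field E] {σ : Eˣ → M} (hσ : ∀ a b, σ (a * b) = σ a + σ b)
    (hst : ∀ a b : Eˣ, (a : E) + (b : E) = 1 → σ a * σ b = 0) (a : Eˣ) :
    σ a * σ a = σ (-1) * σ a := by
  obtain ⟨T, hT⟩ := sig_rel hσ hst
  have h := km_sq (sym 2 a) (sym_mem 2 a)
  have h1 : rm E = sym 2 (-1 : Eˣ) := rfl
  rw [← hT a, ← hT (-1), ← map_mul, ← map_mul, h, h1]

open Classical in
private noncomputable def chi {d : ℕ} (π : Pl k d) (σ : (AdjoinRoot π.1)ˣ → M) (P0 : M)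
    (q : k[X]) : M :=
  if h : ∃ x : ℕ × k[X], q = π.1 ^ x.1 * x.2 ∧ ¬ π.1 ∣ x.2 then
    rsig π σ h.choose.2 + h.choose.1 • P0
  else 0

private theorem chi_eq {d : ℕ} (π : Pl k d) (σ : (AdjoinRoot π.1)ˣ → M) (P0 : M) (m : ℕ) (q : k[X])
    (hq : ¬ π.1 ∣ q) : chi π σ P0 (π.1 ^ m * q) = rsig π σ q + m • P0 := by
  have h : ∃ x : ℕ × k[X], π.1 ^ m * q = π.1 ^ x.1 * x.2 ∧ ¬ π.1 ∣ x.2 := ⟨(m, q), rfl, hq⟩
  unfold chi
  rw [dif_pos h]
  obtain ⟨h1, h2⟩ := spec_uniq π m h.choose.1 q h.choose.2 h.choose_spec.1 hq h.choose_spec.2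
  rw [← h1, ← h2]

private theorem chi_mul {d : ℕ} (π : Pl k d) (σ : (AdjoinRoot π.1)ˣ → M) (P0 : M)
    (hσ : ∀ a b, σ (a * b) = σ a + σ b) (q r : k[X]) (hq : q ≠ 0) (hr : r ≠ 0) :
    chi π σ P0 (q * r) = chi π σ P0 q + chi π σ P0 r := by
  obtain ⟨⟨m, q'⟩, h1, h2⟩ := spec_ex π q hq
  obtain ⟨⟨n, r'⟩, h3, h4⟩ := spec_ex π r hr
  simp only at h1 h2 h3 h4
  have h5 : ¬ π.1 ∣ q' * r' := by
    intro h
    rcases π.2.2.1.prime.dvd_or_dvd h with h | h
    · exact h2 h
    · exact h4 h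
  have h6 : q * r = π.1 ^ (m + n) * (q' * r') := by
    rw [h1, h3, pow_add]
    ring
  rw [h6, chi_eq π σ P0 _ _ h5, h1, chi_eq π σ P0 _ _ h2, h3, chi_eq π σ P0 _ _ h4,
    rsig_mul π σ hσ _ _ h2 h4, add_smul]
  abel

private theorem chi_pi {d : ℕ} (π : Pl k d) (σ : (AdjoinRoot π.1)ˣ → M) (P0 : M)
    (hσ : ∀ a b, σ (a * b) = σ a + σ b) : chi π σ P0 π.1 = P0 := by
  have h := chi_eq π σ P0 1 1 (spec_one π)
  rw [pow_one, mul_one, rsig_one π σ hσ, zero_add, one_smul] at h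
  exact h

private theorem chi_u {d : ℕ} (π : Pl k d) (σ : (AdjoinRoot π.1)ˣ → M) (P0 : M) (q : k[X])
    (hq : ¬ π.1 ∣ q) : chi π σ P0 q = rsig π σ q := by
  have h := chi_eq π σ P0 0 q hq
  rw [pow_zero, one_mul, zero_smul, add_zero] at h
  exact h

/-- every value of `chi` satisfies `x * x = x * {-1}` -/
private theorem chi_sq {d : ℕ} (π : Pl k d) (σ : (AdjoinRoot π.1)ˣ → M) (P0 : M)
    (hσ : ∀ a b, σ (a * b) = σ a + σ b)
    (hst : ∀ a b : (AdjoinRoot π.1)ˣ, (a : AdjoinRoot π.1) + (b : AdjoinRoot π.1) = 1 →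
      σ a * σ b = 0)
    (hcm : ∀ a, σ a * P0 = P0 * σ a) (hP0 : P0 * P0 = σ (-1) * P0) (u : (AdjoinRoot π.1)ˣ)
    (m : ℕ) : (σ u + m • P0) * (σ u + m • P0) = (σ u + m • P0) * σ (-1) := by
  have h1 := sig_self hσ hst u
  have h2 := hcm u
  have h3 := sig_comm hσ hst u (-1)
  have hm : ∀ y : M, m • y = ((m : ZMod 2)) • y := fun y => (Nat.cast_smul_eq_nsmul (ZMod 2) m y).symm
  rw [hm]
  generalize (m : ZMod 2) = c
  have hc : c * c = c := by
    revert c
    decide
  have h4 : P0 * σ u + P0 * σ u = 0 := m_two _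
  calc (σ u + c • P0) * (σ u + c • P0)
      = σ u * σ u + (c • (σ u * P0) + c • (P0 * σ u)) + (c * c) • (P0 * P0) := by
        rw [mul_add, add_mul, add_mul, smul_mul_assoc, mul_smul_comm, smul_mul_assoc,
          mul_smul_comm, smul_smul]
        abel
    _ = σ (-1) * σ u + c • (σ (-1) * P0) := by
        rw [h2, ← smul_add, h4, smul_zero, add_zero, hc, h1, hP0]
    _ = (σ u + c • P0) * σ (-1) := by
        rw [add_mul, smul_mul_assoc, h3, hcm (-1)]

private theorem spec_aux {d : ℕ} (π : Pl k d) (σ : (AdjoinRoot π.1)ˣ → M) (P0 : M)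
    (hσ : ∀ a b, σ (a * b) = σ a + σ b)
    (hst : ∀ a b : (AdjoinRoot π.1)ˣ, (a : AdjoinRoot π.1) + (b : AdjoinRoot π.1) = 1 →
      σ a * σ b = 0)
    (hcm : ∀ a, σ a * P0 = P0 * σ a) (hP0 : P0 * P0 = σ (-1) * P0)
    (a b c : k[X]) (hc0 : c ≠ 0) (h : a + b = c) (hn : ¬ (π.1 ∣ a ∧ π.1 ∣ b)) :
    (chi π σ P0 a - chi π σ P0 c) * (chi π σ P0 b - chi π σ P0 c) = 0 := by
  by_cases ha : π.1 ∣ a
  · have hb : ¬ π.1 ∣ b := fun hb => hn ⟨ha, hb⟩
    have hc : ¬ π.1 ∣ c := by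
      intro hc
      apply hb
      have e : b = c - a := by rw [← h]; ring
      rw [e]
      exact dvd_sub hc ha
    have e : chi π σ P0 b = chi π σ P0 c := by
      rw [chi_u π σ P0 b hb, chi_u π σ P0 c hc, rsig_congr π σ b c]
      have e' : b - c = -a := by rw [← h]; ring
      rw [e']
      exact (dvd_neg).2 ha
    rw [e, sub_self, mul_zero]
  · by_cases hb : π.1 ∣ b
    · have hc : ¬ π.1 ∣ c := by
        intro hc
        apply ha
        have e : a = c - b := by rw [← h]; ring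
        rw [e]
        exact dvd_sub hc hb
      have e : chi π σ P0 a = chi π σ P0 c := by
        rw [chi_u π σ P0 a ha, chi_u π σ P0 c hc, rsig_congr π σ a c]
        have e' : a - c = -b := by rw [← h]; ring
        rw [e']
        exact (dvd_neg).2 hb
      rw [e, sub_self, zero_mul]
    · by_cases hc : π.1 ∣ c
      · -- `a` is congruent to `-b`
        have hone : ¬ π.1 ∣ (-1 : k[X]) := by
          rw [dvd_neg]
          exact spec_one π
        have e : chi π σ P0 b = chi π σ P0 a + σ (-1) := by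
          have e2 : rsig π σ (-1 * a) = σ (-1) + rsig π σ a := by
            rw [rsig_mul π σ hσ (-1) a hone ha, rsig_neg]
          rw [chi_u π σ P0 a ha, chi_u π σ P0 b hb, rsig_congr π σ b (-1 * a), e2, add_comm]
          have e' : b - (-1) * a = c := by rw [← h]; ring
          rw [e']
          exact hc
        obtain ⟨⟨m, q⟩, h1, h2⟩ := spec_ex π c hc0
        simp only at h1 h2
        have e3 : chi π σ P0 a - chi π σ P0 c =
            σ (Units.mk0 _ (not_dvd_mk π ha) * Units.mk0 _ (not_dvd_mk π h2)) + m • P0 := by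
          rw [m_sub, h1, chi_eq π σ P0 m q h2, chi_u π σ P0 a ha, rsig_of_not_dvd π σ ha,
            rsig_of_not_dvd π σ h2, hσ, add_assoc]
        have e4 : chi π σ P0 b - chi π σ P0 c =
            (chi π σ P0 a - chi π σ P0 c) + σ (-1) := by
          rw [e]
          abel
        have h3 := chi_sq π σ P0 hσ hst hcm hP0
          (Units.mk0 _ (not_dvd_mk π ha) * Units.mk0 _ (not_dvd_mk π h2)) m
        rw [e4, e3, mul_add, h3, m_two]
      · rw [chi_u π σ P0 a ha, chi_u π σ P0 b hb, chi_u π σ P0 c hc, rsig_of_not_dvd π σ ha,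
          rsig_of_not_dvd π σ hb, rsig_of_not_dvd π σ hc]
        set ua := Units.mk0 _ (not_dvd_mk π ha) with hua
        set ub := Units.mk0 _ (not_dvd_mk π hb) with hub
        set uc := Units.mk0 _ (not_dvd_mk π hc) with huc
        have hw := hst (ua * uc⁻¹) (ub * uc⁻¹) (by
          rw [Units.val_mul, Units.val_mul, ← add_mul, hua, hub, Units.val_mk0, Units.val_mk0,
            ← map_add, h, huc, Units.val_inv_eq_inv_val, Units.val_mk0]
          exact mul_inv_cancel₀ (not_dvd_mk π hc))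
        have e1 : ∀ u : (AdjoinRoot π.1)ˣ, σ (u * uc⁻¹) = σ u - σ uc := by
          intro u
          have h1 := hσ (u * uc⁻¹) uc
          rw [inv_mul_cancel_right] at h1
          rw [h1]
          abel
        rw [e1, e1] at hw
        exact hw

private theorem spec_steinberg {d : ℕ} (π : Pl k d) (σ : (AdjoinRoot π.1)ˣ → M) (P0 : M)
    (hσ : ∀ a b, σ (a * b) = σ a + σ b)
    (hst : ∀ a b : (AdjoinRoot π.1)ˣ, (a : AdjoinRoot π.1) + (b : AdjoinRoot π.1) = 1 →
      σ a * σ b = 0)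
    (hcm : ∀ a, σ a * P0 = P0 * σ a) (hP0 : P0 * P0 = σ (-1) * P0) :
    ∀ (n : ℕ) (a b c : k[X]), a.natDegree ≤ n → a ≠ 0 → b ≠ 0 → c ≠ 0 → a + b = c →
      (chi π σ P0 a - chi π σ P0 c) * (chi π σ P0 b - chi π σ P0 c) = 0 := by
  have hdeg : 0 < π.1.natDegree := π.2.2.1.natDegree_pos
  have hπ0 : π.1 ≠ 0 := π.2.2.1.ne_zero
  intro n
  induction n with
  | zero =>
    intro a b c han ha hb hc h
    refine spec_aux π σ P0 hσ hst hcm hP0 a b c hc h ?_
    rintro ⟨hd, -⟩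
    have := Polynomial.natDegree_le_of_dvd hd ha
    omega
  | succ n ih =>
    intro a b c han ha hb hc h
    by_cases hn : π.1 ∣ a ∧ π.1 ∣ b
    · obtain ⟨⟨a', rfl⟩, ⟨b', rfl⟩⟩ := hn
      have hc' : c = π.1 * (a' + b') := by rw [← h]; ring
      subst hc'
      have ha' : a' ≠ 0 := right_ne_zero_of_mul ha
      have hb' : b' ≠ 0 := right_ne_zero_of_mul hb
      have hab : a' + b' ≠ 0 := right_ne_zero_of_mul hc
      rw [chi_mul π σ P0 hσ _ _ hπ0 ha', chi_mul π σ P0 hσ _ _ hπ0 hb',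
        chi_mul π σ P0 hσ _ _ hπ0 hab, add_sub_add_left_eq_sub, add_sub_add_left_eq_sub]
      refine ih a' b' (a' + b') ?_ ha' hb' hab rfl
      rw [Polynomial.natDegree_mul hπ0 ha'] at han
      omega
    · exact spec_aux π σ P0 hσ hst hcm hP0 a b c hc h hn

end

theorem exists_specM {d : ℕ} (π : Pl k d) {M : Type*} [Ring M] [Algebra (ZMod 2) M]
    (σ : (AdjoinRoot π.1)ˣ → M) (P0 : M) (hσ : ∀ a b, σ (a * b) = σ a + σ b)
    (hst : ∀ a b : (AdjoinRoot π.1)ˣ, (a : AdjoinRoot π.1) + (b : AdjoinRoot π.1) = 1 →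
      σ a * σ b = 0)
    (hcm : ∀ a, σ a * P0 = P0 * σ a) (hP0 : P0 * P0 = σ (-1) * P0) :
    ∃ S : KM 2 (RatFunc k) →ₐ[ZMod 2] M, S (psym 2 k π.1) = P0 ∧
      ∀ q : k[X], ¬ π.1 ∣ q → S (psym 2 k q) = rsig π σ q := by
  have hm := chi_mul π σ P0 hσ
  have hrel : ∀ x y, MRel 2 (RatFunc k) x y →
      FreeAlgebra.lift (ZMod 2) (fun u : (RatFunc k)ˣ => chiU (chi π σ P0) u) x =
      FreeAlgebra.lift (ZMod 2) (fun u : (RatFunc k)ˣ => chiU (chi π σ P0) u) y := by
    intro x y hxy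
    cases hxy with
    | mul u v =>
      rw [map_add, FreeAlgebra.lift_ι_apply, FreeAlgebra.lift_ι_apply, FreeAlgebra.lift_ι_apply,
        chiU_mul hm]
    | steinberg u v h =>
      rw [map_mul, FreeAlgebra.lift_ι_apply, FreeAlgebra.lift_ι_apply, map_zero]
      obtain ⟨q, r, hq, hr, h2⟩ := exists_frac u
      obtain ⟨q', r', hq', hr', h3⟩ := exists_frac v
      have hab : q * r' + q' * r = r * r' := by
        apply RatFunc.algebraMap_injective k
        rw [map_add, map_mul, map_mul, map_mul, ← h2, ← h3]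
        calc (u : RatFunc k) * algebraMap k[X] (RatFunc k) r * algebraMap k[X] (RatFunc k) r' +
              (v : RatFunc k) * algebraMap k[X] (RatFunc k) r' * algebraMap k[X] (RatFunc k) r
            = ((u : RatFunc k) + (v : RatFunc k)) * (algebraMap k[X] (RatFunc k) r *
              algebraMap k[X] (RatFunc k) r') := by ring
          _ = _ := by rw [h, one_mul]
      rw [chiU_eq hm u (mul_ne_zero hq hr') (mul_ne_zero hr hr') (by
          rw [map_mul, map_mul, ← h2]; ring),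
        chiU_eq hm v (mul_ne_zero hq' hr) (mul_ne_zero hr hr') (by
          rw [map_mul, map_mul, ← h3]; ring)]
      exact spec_steinberg π σ P0 hσ hst hcm hP0 _ _ _ _ le_rfl (mul_ne_zero hq hr')
        (mul_ne_zero hq' hr) (mul_ne_zero hr hr') hab
  have key : ∀ q : k[X], q ≠ 0 → liftKM (FreeAlgebra.lift (ZMod 2)
      (fun u : (RatFunc k)ˣ => chiU (chi π σ P0) u)) hrel (psym 2 k q) = chi π σ P0 q := by
    intro q hq
    have hq' : algebraMap k[X] (RatFunc k) q ≠ 0 := by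
      rw [Ne, map_eq_zero_iff _ (RatFunc.algebraMap_injective k)]
      exact hq
    rw [psym_eq 2 k hq hq']
    unfold sym
    rw [liftKM_quo, FreeAlgebra.lift_ι_apply, chiU_eq hm _ hq one_ne_zero (by
      rw [Units.val_mk0, map_one, mul_one]), chi_one hm, sub_zero]
  refine ⟨liftKM _ hrel, ?_, ?_⟩
  · rw [key _ π.2.2.1.ne_zero, chi_pi π σ P0 hσ]
  · intro q hq
    have hq0 : q ≠ 0 := by
      rintro rfl
      exact hq (dvd_zero _)
    rw [key q hq0, chi_u π σ P0 q hq]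

end Pool.Agent.KRb
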