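import Pool.Agent.KRb.Sec
import Pool.Agent.KRb.Hom
import Pool.Agent.KRb.EndA
import Pool.Agent.KRb.EndB
import Pool.Agent.KRb.Prj

/-!
Row STEP: exactness of the Koszul complex with coefficients in a good algebra.
-/

set_option autoImplicit false

namespace Pool.Agent.KRb

open Finsupp Pool.Agent.KMil Pool.Agent.KRat Polynomial

universe u

section step

variable {I : Type*} {A : Type*} [Ring A] [Algebra (ZMod 2) A] {B : Type*} [Ring B]
  [Algebra (ZMod 2) B]

private theorem step_lcc (v : I → A) (hc : ∀ i j, v i * v j = v j * v i) (x y : I →₀ ZMod 2) :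
    lc v x * lc v y = lc v y * lc v x := by
  unfold lc Finsupp.sum
  rw [Finset.sum_mul_sum, Finset.sum_mul_sum, Finset.sum_comm]
  refine Finset.sum_congr rfl fun j _ => Finset.sum_congr rfl fun i _ => ?_
  rw [smul_mul_smul_comm, smul_mul_smul_comm, hc i j, mul_comm (x i) (y j)]

private theorem step_lc_add (v : I → A) (x y : I →₀ ZMod 2) :
    lc v (x + y) = lc v x + lc v y := by
  unfold lc
  exact Finsupp.sum_add_index' (fun i => zero_smul _ _) (fun i a b => add_smul _ _ _)

private theorem step_two (a : A) : a + a = 0 := by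
  have h : ((2 : ZMod 2) : ZMod 2) • a = a + a := by
    rw [show (2 : ZMod 2) = 1 + 1 by rfl, add_smul, one_smul]
  rw [← h, show (2 : ZMod 2) = 0 by rfl, zero_smul]

/-- the square of the differential vanishes on the Koszul tensors -/
private theorem step_dd (v : I → A) (hc : ∀ i j, v i * v j = v j * v i) (ev : A →ₐ[ZMod 2] B)
    {z : List I →₀ B} (hz : z ∈ C (ZMod 2) (pr v) B) :
    dB (fun i => ev (v i)) (dB (fun i => ev (v i)) z) = 0 := by
  have h := quad_eq_zero (pr v) (LinearMap.mul (ZMod 2) B ∘ₗ ev.toLinearMap) hz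
  unfold dB
  rw [dif_dif, ← h]
  congr 2
  funext i j
  ext m
  show ev (v j) * (ev (v i) * m) = ev (v i * v j) * m
  rw [hc i j, map_mul, mul_assoc]

/-- tensors with values in a submodule come from the submodule -/
private theorem step_lift (U : Submodule (ZMod 2) B) (z : List I →₀ B) (hz : ∀ w, z w ∈ U) :
    ∃ z' : List I →₀ U, mp U.subtype z' = z := by
  classical
  refine ⟨Finsupp.onFinset z.support (fun w => ⟨z w, hz w⟩) ?_, ?_⟩
  · intro w hw
    rw [Finsupp.mem_support_iff]
    intro h
    apply hw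
    exact Subtype.ext h
  · ext w
    rw [mp_apply]
    rfl

private theorem step_asec (U : Submodule (ZMod 2) B) (x x' : I →₀ ZMod 2) (y : I → ZMod 2)
    (N : ℕ) (z : List I →₀ B) (hz : ∀ w, z w ∈ U) (w : List I) : asec x x' y N z w ∈ U := by
  obtain ⟨z', rfl⟩ := step_lift U z hz
  rw [asec_mp, mp_apply]
  exact (asec x x' y N z' w).2

private theorem step_con (U : Submodule (ZMod 2) B) (y : I → ZMod 2)
    (z : List I →₀ B) (hz : ∀ w, z w ∈ U) (w : List I) : con y z w ∈ U := by
  obtain ⟨z', rfl⟩ := step_lift U z hz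
  rw [con_mp, mp_apply]
  exact (con y z' w).2

/-- the elements of degree `n` come from finitely many elements of degree one -/
private theorem step_fin (WB : Submodule (ZMod 2) B) (n : ℕ) (a : B) (ha : a ∈ WB ^ n) :
    ∃ T : Finset B, (∀ t ∈ T, t ∈ WB) ∧ a ∈ (Submodule.span (ZMod 2) (T : Set B)) ^ n := by
  classical
  induction n generalizing a with
  | zero =>
    refine ⟨∅, by simp, ?_⟩
    rw [pow_zero] at ha ⊢
    exact ha
  | succ n ih =>
    rw [pow_succ'] at ha
    refine Submodule.mul_induction_on ha ?_ ?_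
    · intro m hm c hcc
      obtain ⟨T, hT, hcT⟩ := ih c hcc
      refine ⟨insert m T, ?_, ?_⟩
      · intro t ht
        rcases Finset.mem_insert.mp ht with h | h
        · rw [h]; exact hm
        · exact hT t h
      · rw [pow_succ']
        refine Submodule.mul_mem_mul (Submodule.subset_span (by simp)) ?_
        refine (pow_le_pow_left' (Submodule.span_mono ?_) n) hcT
        rw [Finset.coe_insert]
        exact Set.subset_insert _ _
    · rintro x y ⟨T, hT, hx⟩ ⟨T', hT', hy⟩
      refine ⟨T ∪ T', ?_, ?_⟩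
      · intro t ht
        rcases Finset.mem_union.mp ht with h | h
        · exact hT t h
        · exact hT' t h
      · rw [Finset.coe_union]
        refine Submodule.add_mem _ ?_ ?_
        · exact (pow_le_pow_left' (Submodule.span_mono Set.subset_union_left) (n + 1)) hx
        · exact (pow_le_pow_left' (Submodule.span_mono Set.subset_union_right) (n + 1)) hy

private theorem step_key (v : I → A) (hc : ∀ i j, v i * v j = v j * v i) (ev : A →ₐ[ZMod 2] B)
    (WB : Submodule (ZMod 2) B) (r : B) (G : Good WB r) (hev : ∀ i, ev (v i) ∈ WB)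
    (hsurj : ∀ w ∈ WB, ∃ x : I →₀ ZMod 2, lc (fun i => ev (v i)) x = w)
    (ρ : I →₀ ZMod 2) (hρ : lc (fun i => ev (v i)) ρ = r)
    (hsq : ∀ x : I →₀ ZMod 2, lc v x * lc v x = lc v ρ * lc v x)
    (hfin : Det WB r ∨ (r * r = 0 ∧ lc v ρ * lc v ρ = 0)) (n : ℕ) (T : Finset B) :
    (∀ t ∈ T, t ∈ WB) → ∀ z ∈ C (ZMod 2) (pr v) B,
      (∀ w, z w ∈ (Submodule.span (ZMod 2) (insert r (T : Set B))) ^ (n + 1)) →
      dB (fun i => ev (v i)) z = 0 →
      ∃ y ∈ C (ZMod 2) (pr v) B, (∀ w, y w ∈ WB ^ n) ∧ dB (fun i => ev (v i)) y = z := by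
  classical
  induction T using Finset.induction_on with
  | empty =>
    intro _ z hz hn hd
    rw [Finset.coe_empty, insert_empty_eq] at hn
    rcases hfin with h | ⟨h1, h2⟩
    · exact endA v hc ev WB r G.mem h hev ρ hρ n z hz hn hd
    · exact endB v hc ev WB r G h1 hev ρ hρ h2 n z hz hn hd
  | insert b T hbT ih =>
    intro hT z hz hn hd
    have hTW : ∀ t ∈ T, t ∈ WB := fun t ht => hT t (Finset.mem_insert_of_mem ht)
    have hb : b ∈ WB := hT b (Finset.mem_insert_self b T)
    set S : Submodule (ZMod 2) B := Submodule.span (ZMod 2) (insert r (T : Set B)) with hSdef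
    have hS' : Submodule.span (ZMod 2) (insert r ((insert b T : Finset B) : Set B))
        = S ⊔ Submodule.span (ZMod 2) {b} := by
      rw [hSdef, ← Submodule.span_union]
      congr 1
      rw [Finset.coe_insert]
      ext t
      simp only [Set.mem_insert_iff, Set.mem_union, Set.mem_singleton_iff]
      tauto
    rw [hS'] at hn
    have hSW : S ≤ WB := by
      rw [hSdef, Submodule.span_le]
      intro t ht
      rcases ht with h | h
      · rw [h]; exact G.mem
      · exact hTW t h
    have hrS : r ∈ S := Submodule.subset_span (Set.mem_insert _ _)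
    by_cases hbS : b ∈ S
    · have h1 : S ⊔ Submodule.span (ZMod 2) {b} = S := by
        rw [sup_eq_left, Submodule.span_le, Set.singleton_subset_iff]
        exact hbS
      rw [h1] at hn
      exact ih hTW z hz hn hd
    · obtain ⟨Z, hZb', hZS'⟩ := Submodule.exists_le_ker_of_notMem hbS
      have hZb : Z b = 1 := by
        have : ∀ a : ZMod 2, a ≠ 0 → a = 1 := by decide
        exact this _ hZb'
      have hZS : ∀ w ∈ S, Z w = 0 := fun w hw => hZS' hw
      obtain ⟨ι, hι1, hι⟩ := G.der Z (hZS r hrS)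
      obtain ⟨x, hx⟩ := hsurj b hb
      obtain ⟨N, hN⟩ := exists_short z
      have hxZ : Z (lc (fun i => ev (v i)) x) = 1 := by rw [hx]; exact hZb
      have h0 := hom2 v ev WB r G.mem hev ρ hρ Z (hZS r hrS) ι hι1 hι x hxZ N z hz hN hd
      rw [hx] at h0
      have hxx : lc v x * lc v (x + ρ) = 0 := by
        rw [step_lc_add, mul_add, hsq, step_lcc v hc x ρ, step_two]
      set yy : I → ZMod 2 := fun i => Z (ev (v i)) with hyy
      have hA : asec x (x + ρ) yy N z ∈ C (ZMod 2) (pr v) B := asec_C v hc x (x + ρ) hxx yy N hz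
      have hAc : asec x (x + ρ) yy N (con yy z) ∈ C (ZMod 2) (pr v) B :=
        asec_C v hc x (x + ρ) hxx yy N (C_con (pr v) yy hz)
      set y1 := mp ι (asec x (x + ρ) yy N z) with hy1
      set u := mp (LinearMap.id + LinearMap.mulLeft (ZMod 2) b ∘ₗ ι)
        (z + asec x (x + ρ) yy N (con yy z)) with hu
      have hy1C : y1 ∈ C (ZMod 2) (pr v) B := C_mp (pr v) ι hA
      have huC : u ∈ C (ZMod 2) (pr v) B := C_mp (pr v) _ (Submodule.add_mem _ hz hAc)
      have hdu : dB (fun i => ev (v i)) u = 0 := by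
        have h1 := congrArg (dB (fun i => ev (v i))) h0
        rw [hd, map_add, step_dd v hc ev hy1C, zero_add] at h1
        exact h1.symm
      have huS : ∀ w, u w ∈ S ^ (n + 1) := by
        intro w
        have h1 : u w = (z + asec x (x + ρ) yy N (con yy z)) w
            + b * ι ((z + asec x (x + ρ) yy N (con yy z)) w) := by
          rw [hu, mp_apply]
          rfl
        rw [h1]
        refine prj WB r G S hSW hrS b hb Z hZS hZb ι hι1 hι (n + 1) _ ?_
        rw [Finsupp.add_apply]
        exact Submodule.add_mem _ (hn w)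
          (step_asec _ _ _ _ _ _ (step_con _ _ _ hn) w)
      obtain ⟨y0, hy0C, hy0, hy0d⟩ := ih hTW u huC huS hdu
      refine ⟨y1 + y0, Submodule.add_mem _ hy1C hy0C, ?_, ?_⟩
      · intro w
        rw [Finsupp.add_apply]
        refine Submodule.add_mem _ ?_ (hy0 w)
        rw [hy1, mp_apply]
        refine der_deg WB r G.mem Z ι hι1 hι n _ ?_
        refine step_asec _ _ _ _ _ _ (fun w => ?_) w
        have hle : S ⊔ Submodule.span (ZMod 2) {b} ≤ WB :=
          sup_le hSW ((Submodule.span_singleton_le_iff_mem b WB).mpr hb)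
        exact (pow_le_pow_left' hle (n + 1)) (hn w)
      · rw [map_add, hy0d]
        exact h0.symm

theorem exB (v : I → A) (hc : ∀ i j, v i * v j = v j * v i) (ev : A →ₐ[ZMod 2] B)
    (WB : Submodule (ZMod 2) B) (r : B) (G : Good WB r) (hev : ∀ i, ev (v i) ∈ WB)
    (hsurj : ∀ w ∈ WB, ∃ x : I →₀ ZMod 2, lc (fun i => ev (v i)) x = w)
    (ρ : I →₀ ZMod 2) (hρ : lc (fun i => ev (v i)) ρ = r)
    (hsq : ∀ x : I →₀ ZMod 2, lc v x * lc v x = lc v ρ * lc v x)
    (hfin : Det WB r ∨ (r * r = 0 ∧ lc v ρ * lc v ρ = 0)) :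
    ExB v (fun i => ev (v i)) WB := by
  classical
  intro n z hz hn hd
  choose T hT hzT using fun w => step_fin WB (n + 1) (z w) (hn w)
  refine step_key v hc ev WB r G hev hsurj ρ hρ hsq hfin n (z.support.biUnion T) ?_ z hz ?_ hd
  · intro t ht
    obtain ⟨w, _, hw⟩ := Finset.mem_biUnion.mp ht
    exact hT w t hw
  · intro w
    by_cases hw : w ∈ z.support
    · refine (pow_le_pow_left' (Submodule.span_mono ?_) (n + 1)) (hzT w)
      intro t ht
      exact Set.mem_insert_of_mem _ (Finset.mem_coe.mpr (Finset.mem_biUnion.mpr ⟨w, hw, ht⟩))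
    · rw [Finsupp.notMem_support_iff.mp hw]
      exact Submodule.zero_mem _

end step

end Pool.Agent.KRb
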