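import Pool.Agent.KRb.Base
import Pool.Agent.KRb.Inj
import Pool.Agent.KRb.Exv
import Pool.Agent.KRb.Res
import Pool.Agent.KRb.Rsg
import Pool.Agent.KRb.Kmt

/-!
Row ZERO: the bottom of the filtration.
-/

set_option autoImplicit false

namespace Pool.Agent.KRb

open Finsupp Pool.Agent.KMil Pool.Agent.KRat Polynomial

universe u

variable {k : Type u} [Field k]

theorem kos_zeroM (hE : ∀ (d : ℕ) (π : Pl k d), H2 k (AdjoinRoot π.1))
    (B : Set (KM 2 (RatFunc k)))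
    (hB : LinearIndependent (ZMod 2) (Subtype.val : B → KM 2 (RatFunc k)))
    (hs : Submodule.span (ZMod 2) B = VV 2 k 0) :
    Kos (ZMod 2) (Subtype.val : B → KM 2 (RatFunc k)) := by
  classical
  obtain ⟨π, hπ⟩ : ∃ π : Pl k 1, π.1 = X := ⟨⟨X, monic_X, irreducible_X, natDegree_X⟩, rfl⟩
  obtain ⟨ev, -, hev, -⟩ := exists_ev_delM π
  have hsp : sp (ZMod 2) (Subtype.val : B → KM 2 (RatFunc k)) = VV 2 k 0 := by
    unfold sp
    rw [Subtype.range_coe, hs]
  have hdvd : ∀ q : k[X], q ≠ 0 → q.natDegree ≤ 0 → ¬ π.1 ∣ q := by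
    intro q hq hqd hdiv
    rw [hπ] at hdiv
    have h2 : q.coeff 0 = 0 := X_dvd_iff.1 hdiv
    apply hq
    rw [eq_C_of_natDegree_le_zero hqd, h2, C_0]
  have hev0 : ∀ q : k[X], q ≠ 0 → q.natDegree ≤ 0 →
      ev (psym 2 k q) = rsig π (sym 2) q := fun q hq hqd =>
    hev q (hdvd q hq hqd)
  have hmem : ∀ x ∈ VV 2 k 0, ev x ∈ KMn 2 (AdjoinRoot π.1) 1 := by
    intro x hx
    unfold VV at hx
    induction hx using Submodule.span_induction with
    | mem x hx =>
      obtain ⟨q, hq, hqd, rfl⟩ := hx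
      rw [hev0 q hq hqd]
      exact rsig_mem π q
    | zero => rw [map_zero]; exact Submodule.zero_mem _
    | add x y _ _ ihx ihy => rw [map_add]; exact Submodule.add_mem _ ihx ihy
    | smul c x _ ih => rw [map_smul]; exact Submodule.smul_mem _ c ih
  have hsurj : ∀ w ∈ KMn 2 (AdjoinRoot π.1) 1, ∃ x ∈ VV 2 k 0, ev x = w := by
    intro w hw
    obtain ⟨q, hq, hqd, rfl⟩ := rsig_surj (d := 0) π w hw
    exact ⟨psym 2 k q, Submodule.subset_span ⟨q, hq, hqd, rfl⟩, hev0 q hq hqd⟩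
  have h1 : ev (psym 2 k (-1)) = rm (AdjoinRoot π.1) := by
    rw [hev0 (-1) (neg_ne_zero.2 one_ne_zero) (by rw [natDegree_neg, natDegree_one]),
      rsig_neg_one]
  refine baseB (Subtype.val : B → KM 2 (RatFunc k)) ?_ (KMn 2 (AdjoinRoot π.1) 1) ev ?_ ?_ ?_ ?_
  · rw [hsp]
    intro x hx y hy
    exact km_comm x (VV_le 2 k 0 hx) y (VV_le 2 k 0 hy)
  · intro i
    exact hmem _ (by rw [← hs]; exact Submodule.subset_span i.2)
  · rw [hsp]
    exact hsurj
  · exact exB_VV hE 0 1 π B hs ev hmem hsurj h1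
  · intro n a ha h0
    rw [hsp] at ha
    exact zero_injM π ev hev0 n a ha h0

end Pool.Agent.KRb
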